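import Mathlib
import Pool.Agent.Lib.MP_695920_nt.ClassMaps
import Pool.Agent.Lib.MP_695920_nt.Decomp

set_option autoImplicit false

open Finset NumberField Module IsDedekindDomain
open scoped nonZeroDivisors Pointwise

namespace Pool.Agent.Lib.MP_695920_nt.Solv

section cls

variable {A B : Type*} [CommRing A] [IsDedekindDomain A] [CommRing B] [IsDedekindDomain B]

open Classical in
/-- the class of an ideal (the trivial class for the zero ideal) -/
noncomputable def cls (I : Ideal A) : ClassGroup A :=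
  if h : I = ⊥ then 1 else ClassGroup.mk0 ⟨I, mem_nonZeroDivisors_of_ne_zero h⟩

lemma cls_of_ne {I : Ideal A} (h : I ≠ ⊥) :
    cls I = ClassGroup.mk0 ⟨I, mem_nonZeroDivisors_of_ne_zero h⟩ := by
  unfold cls
  rw [dif_neg h]

lemma cls_coe (I : (Ideal A)⁰) : cls (I : Ideal A) = ClassGroup.mk0 I := by
  rw [cls_of_ne (nonZeroDivisors.coe_ne_zero I)]

lemma cls_surj (c : ClassGroup A) : ∃ I : Ideal A, I ≠ ⊥ ∧ cls I = c := by
  obtain ⟨I, rfl⟩ := ClassGroup.mk0_surjective c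
  exact ⟨I, nonZeroDivisors.coe_ne_zero I, cls_coe I⟩

lemma cls_mul {I J : Ideal A} (hI : I ≠ ⊥) (hJ : J ≠ ⊥) : cls (I * J) = cls I * cls J := by
  rw [cls_of_ne hI, cls_of_ne hJ, ← map_mul, ← cls_coe]
  rfl

variable (A) in
lemma cls_top : cls (⊤ : Ideal A) = 1 := by
  rw [cls_of_ne top_ne_bot, ClassGroup.mk0_eq_one_iff]
  exact ⟨1, by simp⟩

lemma cls_pow {I : Ideal A} (hI : I ≠ ⊥) (n : ℕ) : cls (I ^ n) = cls I ^ n := by
  induction n with
  | zero => rw [pow_zero, pow_zero, Ideal.one_eq_top]; exact cls_top A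
  | succ n ih => rw [pow_succ, cls_mul (pow_ne_zero n hI) hI, ih, pow_succ]

lemma cls_prod {ι : Type*} (s : Finset ι) (f : ι → Ideal A) (h : ∀ i ∈ s, f i ≠ ⊥) :
    cls (∏ i ∈ s, f i) = ∏ i ∈ s, cls (f i) := by
  classical
  induction s using Finset.induction_on with
  | empty => rw [Finset.prod_empty, Finset.prod_empty, Ideal.one_eq_top]; exact cls_top A
  | insert a s ha ih =>
    rw [Finset.prod_insert ha, Finset.prod_insert ha, cls_mul (h a (mem_insert_self a s)),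
      ih (fun i hi => h i (mem_insert_of_mem hi))]
    exact Finset.prod_ne_zero_iff.mpr (fun i hi => h i (mem_insert_of_mem hi))

lemma cls_span {x : A} (hx : x ≠ 0) : cls (Ideal.span {x}) = 1 := by
  have h : Ideal.span {x} ≠ ⊥ := by simpa using hx
  rw [cls_of_ne h, ClassGroup.mk0_eq_one_iff]
  exact ⟨x, rfl⟩

lemma cls_eq_iff {I J : Ideal A} (hI : I ≠ ⊥) (hJ : J ≠ ⊥) :
    cls I = cls J ↔ ∃ x y : A, x ≠ 0 ∧ y ≠ 0 ∧ Ideal.span {x} * I = Ideal.span {y} * J := by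
  rw [cls_of_ne hI, cls_of_ne hJ, ClassGroup.mk0_eq_mk0_iff]
  constructor
  · rintro ⟨x, y, hx, hy, h⟩; exact ⟨x, y, hx, hy, h⟩
  · rintro ⟨x, y, hx, hy, h⟩; exact ⟨x, y, hx, hy, h⟩

end cls

section maps

lemma cls_map {K L : Type*} [Field K] [NumberField K] [Field L] [NumberField L] [Algebra K L]
    {I : Ideal (𝓞 K)} (hI : I ≠ ⊥) :
    ClassGroup.extendedHom (𝓞 K) (𝓞 L) (cls I) = cls (I.map (algebraMap (𝓞 K) (𝓞 L))) := by
  rw [cls_of_ne hI, ClassGroup.extendedHom_mk0, ← cls_coe]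

lemma map_ne_bot' {K L : Type*} [Field K] [NumberField K] [Field L] [NumberField L] [Algebra K L]
    {I : Ideal (𝓞 K)} (hI : I ≠ ⊥) : I.map (algebraMap (𝓞 K) (𝓞 L)) ≠ ⊥ := by
  intro h
  apply hI
  exact (Ideal.map_eq_bot_iff_of_injective (FaithfulSMul.algebraMap_injective (𝓞 K) (𝓞 L))).mp h

variable {G : Type*} [Group G] {L : Type*} [Field L] [NumberField L] [MulSemiringAction G L]

lemma smul_ne_bot' (g : G) {I : Ideal (𝓞 L)} (hI : I ≠ ⊥) : g • I ≠ ⊥ :=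
  (idMap_smul L g).ne I hI

lemma cls_smul (g : G) {I : Ideal (𝓞 L)} (hI : I ≠ ⊥) : act L g (cls I) = cls (g • I) := by
  rw [cls_of_ne hI, act_mk0, ← cls_coe]
  rfl

end maps

section count

lemma card_le_of_fibers {A : Type*} [CommGroup A] [Finite A] (S T : Subgroup A) {F : Type*}
    [Finite F] (f : S → F) (h : ∀ x y : S, f x = f y → (x : A) / y ∈ T) :
    Nat.card S ≤ Nat.card F * Nat.card (S ⊓ T : Subgroup A) := by
  classical
  let r : F → S := fun v => if hv : ∃ y : S, f y = v then hv.choose else 1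
  have hr : ∀ x : S, f (r (f x)) = f x := by
    intro x
    have hv : ∃ y : S, f y = f x := ⟨x, rfl⟩
    simp only [r]
    rw [dif_pos hv]
    exact hv.choose_spec
  let g : S → F × (S ⊓ T : Subgroup A) := fun x =>
    (f x, ⟨(x : A) / r (f x), S.div_mem x.2 (r (f x)).2, h _ _ (hr x).symm⟩)
  have hg : Function.Injective g := by
    intro x y hxy
    have h1 : f x = f y := congrArg Prod.fst hxy
    have h2 : (x : A) / r (f x) = (y : A) / r (f y) :=
      congrArg (fun z => ((z.2 : (S ⊓ T : Subgroup A)) : A)) hxy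
    rw [h1] at h2
    exact Subtype.ext (div_left_injective h2)
  have h3 := Nat.card_le_card_of_injective g hg
  rwa [Nat.card_prod] at h3

end count

section normone

lemma norm_div_eq_one {K L : Type*} [Field K] [NumberField K] [Field L] [NumberField L]
    [Algebra K L] {a₁ b₁ a₂ b₂ : 𝓞 L} (ha₁ : a₁ ≠ 0) (hb₂ : b₂ ≠ 0) (w : (𝓞 K)ˣ)
    (hw : Algebra.intNorm (𝓞 K) (𝓞 L) b₁ * Algebra.intNorm (𝓞 K) (𝓞 L) a₂ =
      Algebra.intNorm (𝓞 K) (𝓞 L) a₁ * Algebra.intNorm (𝓞 K) (𝓞 L) b₂ *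
        (w : 𝓞 K) ^ finrank K L) :
    Algebra.norm K (algebraMap (𝓞 L) L (b₁ * a₂) /
      algebraMap (𝓞 L) L (a₁ * b₂ * algebraMap (𝓞 K) (𝓞 L) w)) = 1 := by
  have hι : ∀ a : 𝓞 L, a ≠ 0 → algebraMap (𝓞 L) L a ≠ 0 := by
    intro a ha
    simpa using ha
  have hwL : algebraMap (𝓞 K) (𝓞 L) w ≠ 0 := (w.isUnit.map (algebraMap (𝓞 K) (𝓞 L))).ne_zero
  have h0 := hι _ (mul_ne_zero (mul_ne_zero ha₁ hb₂) hwL)
  have e1 : ∀ a : 𝓞 L, Algebra.norm K (algebraMap (𝓞 L) L a) =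
      algebraMap (𝓞 K) K (Algebra.intNorm (𝓞 K) (𝓞 L) a) := fun a =>
    (Algebra.algebraMap_intNorm (A := 𝓞 K) (K := K) (L := L) (B := 𝓞 L) a).symm
  have e2 : Algebra.norm K (algebraMap (𝓞 L) L (b₁ * a₂)) =
      Algebra.norm K (algebraMap (𝓞 L) L (a₁ * b₂ * algebraMap (𝓞 K) (𝓞 L) w)) := by
    rw [e1, e1, map_mul (Algebra.intNorm (𝓞 K) (𝓞 L)), map_mul (Algebra.intNorm (𝓞 K) (𝓞 L)),
      map_mul (Algebra.intNorm (𝓞 K) (𝓞 L)), hw]
    congr 2
    apply FaithfulSMul.algebraMap_injective (𝓞 K) K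
    rw [map_pow, Algebra.algebraMap_intNorm (A := 𝓞 K) (K := K) (L := L) (B := 𝓞 L),
      ← IsScalarTower.algebraMap_apply (𝓞 K) (𝓞 L) L, IsScalarTower.algebraMap_apply (𝓞 K) K L,
      Algebra.norm_algebraMap]
  have h1 : Algebra.norm K (algebraMap (𝓞 L) L (a₁ * b₂ * algebraMap (𝓞 K) (𝓞 L) w)) ≠ 0 := by
    rw [Ne, Algebra.norm_eq_zero_iff]
    exact h0
  apply mul_right_cancel₀ h1
  rw [one_mul, ← map_mul, div_mul_cancel₀ _ h0, e2]

end normone

section hilbert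

variable {L : Type} [Field L] [NumberField L] {G : Type*} [Group G] [Finite G]
  [MulSemiringAction G L] [hG : IsGaloisGroup G ℚ L]

/-- Hilbert 90 -/
lemma hilbert90 (σ : G) {x : L} (hx : Algebra.norm (fixF L (Subgroup.zpowers σ)) x = 1) :
    ∃ y : L, y ≠ 0 ∧ x * (σ • y) = y := by
  have hgal : IsGalois (fixF L (Subgroup.zpowers σ)) L :=
    IsGaloisGroup.isGalois (Subgroup.zpowers σ) _ L
  let e := IsGaloisGroup.mulEquivAlgEquiv (Subgroup.zpowers σ) (fixF L (Subgroup.zpowers σ)) L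
  have hcyc : IsCyclic Gal(L/(fixF L (Subgroup.zpowers σ))) :=
    isCyclic_of_surjective e.toMonoidHom e.surjective
  have hgen : ∀ x, x ∈ Subgroup.zpowers (e ⟨σ, Subgroup.mem_zpowers σ⟩) := by
    intro x
    obtain ⟨⟨z, hz⟩, rfl⟩ := e.surjective x
    obtain ⟨k, rfl⟩ := Subgroup.mem_zpowers_iff.mp hz
    rw [Subgroup.mem_zpowers_iff]
    refine ⟨k, ?_⟩
    rw [← map_zpow]
    rfl
  obtain ⟨y, hy⟩ := groupCohomology.exists_div_of_norm_eq_one hgen hx
  refine ⟨y, y.ne_zero, ?_⟩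
  have h1 : (e ⟨σ, Subgroup.mem_zpowers σ⟩) (y : L) = σ • (y : L) := rfl
  rw [h1] at hy
  have h2 : σ • (y : L) ≠ 0 := (smul_ne_zero_iff_ne σ).mpr y.ne_zero
  rw [← hy, div_mul_cancel₀ _ h2]

lemma hilbert90_int (σ : G) {x : L} (hx : Algebra.norm (fixF L (Subgroup.zpowers σ)) x = 1) :
    ∃ y : 𝓞 L, y ≠ 0 ∧ x * algebraMap (𝓞 L) L (σ • y) = algebraMap (𝓞 L) L y := by
  obtain ⟨y, hy0, hy⟩ := hilbert90 σ hx
  obtain ⟨a, b, hb, hab⟩ := IsFractionRing.div_surjective (A := 𝓞 L) y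
  have hb0 : b ≠ 0 := nonZeroDivisors.ne_zero hb
  obtain ⟨c, hc⟩ := Ideal.mem_span_singleton.mp (Ideal.absNorm_mem (Ideal.span {b}))
  set m := Ideal.absNorm (Ideal.span {b}) with hm
  have hm0 : m ≠ 0 := by
    rw [hm, Ne, Ideal.absNorm_eq_zero_iff]
    simpa using hb0
  have hbL : (algebraMap (𝓞 L) L b) ≠ 0 := by simpa using hb0
  have h1 : algebraMap (𝓞 L) L (a * c) = (m : L) * y := by
    have h2 : (m : L) = algebraMap (𝓞 L) L b * algebraMap (𝓞 L) L c := by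
      rw [← map_mul, ← hc, map_natCast]
    rw [h2, ← hab, map_mul]
    field_simp
  refine ⟨a * c, ?_, ?_⟩
  · intro h0
    rw [h0, map_zero] at h1
    have : (m : L) * y ≠ 0 := mul_ne_zero (by exact_mod_cast hm0) hy0
    exact this h1.symm
  · have h3 : algebraMap (𝓞 L) L (σ • (a * c)) = σ • (algebraMap (𝓞 L) L (a * c)) := rfl
    rw [h3, h1, smul_mul']
    have h4 : σ • (m : L) = (m : L) := map_natCast (MulSemiringAction.toRingHom G L σ) m
    rw [h4]
    calc x * (↑m * σ • y) = m * (x * σ • y) := by ring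
      _ = m * y := by rw [hy]

omit [NumberField L] [Finite G] hG in
lemma smul_span (g : G) (a : 𝓞 L) : g • Ideal.span {a} = Ideal.span {g • a} := by
  rw [Ideal.pointwise_smul_def, Ideal.map_span, Set.image_singleton]
  rfl

/-- two classes fixed by `σ` whose units agree modulo `ℓ`-th powers differ by the class of a
`σ`-invariant ideal -/
lemma exists_inv_ideal (σ : G) {I₁ I₂ : Ideal (𝓞 L)} (hI₁ : I₁ ≠ ⊥) (hI₂ : I₂ ≠ ⊥)
    {a₁ b₁ a₂ b₂ : 𝓞 L} (ha₁ : a₁ ≠ 0) (hb₁ : b₁ ≠ 0) (ha₂ : a₂ ≠ 0) (hb₂ : b₂ ≠ 0)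
    (h₁ : Ideal.span {a₁} * (σ • I₁) = Ideal.span {b₁} * I₁)
    (h₂ : Ideal.span {a₂} * (σ • I₂) = Ideal.span {b₂} * I₂)
    (w : (𝓞 (fixF L (Subgroup.zpowers σ)))ˣ)
    (hw : Algebra.intNorm (𝓞 (fixF L (Subgroup.zpowers σ))) (𝓞 L) b₁ *
        Algebra.intNorm (𝓞 (fixF L (Subgroup.zpowers σ))) (𝓞 L) a₂ =
      Algebra.intNorm (𝓞 (fixF L (Subgroup.zpowers σ))) (𝓞 L) a₁ *
        Algebra.intNorm (𝓞 (fixF L (Subgroup.zpowers σ))) (𝓞 L) b₂ *
        (w : 𝓞 (fixF L (Subgroup.zpowers σ))) ^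
          finrank (fixF L (Subgroup.zpowers σ)) L) :
    ∃ J : Ideal (𝓞 L), J ≠ ⊥ ∧ σ • J = J ∧ cls J * cls I₂ = cls I₁ := by
  have hι : ∀ a : 𝓞 L, a ≠ 0 → algebraMap (𝓞 L) L a ≠ 0 := by
    intro a ha
    simpa using ha
  set wL : 𝓞 L := algebraMap (𝓞 (fixF L (Subgroup.zpowers σ))) (𝓞 L) w with hwLdef
  have hwL : wL ≠ 0 := (w.isUnit.map (algebraMap (𝓞 (fixF L (Subgroup.zpowers σ))) (𝓞 L))).ne_zero
  have hnorm := norm_div_eq_one (K := fixF L (Subgroup.zpowers σ)) ha₁ hb₂ w hw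
  rw [← hwLdef] at hnorm
  obtain ⟨y, hy0, hy⟩ := hilbert90_int σ hnorm
  have hy' : b₁ * a₂ * (σ • y) = a₁ * b₂ * wL * y := by
    apply FaithfulSMul.algebraMap_injective (𝓞 L) L
    rw [div_mul_eq_mul_div, div_eq_iff (hι _ (mul_ne_zero (mul_ne_zero ha₁ hb₂) hwL))] at hy
    rw [map_mul, map_mul, map_mul _ _ y, ← map_mul, hy]
    ring
  -- complement of I₂
  obtain ⟨I₂', hI₂'⟩ := Ideal.dvd_iff_le.mpr ((Ideal.span_singleton_le_iff_mem I₂).mpr (Ideal.absNorm_mem I₂))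
  have hm0 : ((Ideal.absNorm I₂ : ℕ) : 𝓞 L) ≠ 0 := by
    have : Ideal.absNorm I₂ ≠ 0 := by rwa [Ne, Ideal.absNorm_eq_zero_iff]
    exact_mod_cast this
  have hσm : σ • ((Ideal.absNorm I₂ : ℕ) : 𝓞 L) = ((Ideal.absNorm I₂ : ℕ) : 𝓞 L) :=
    map_natCast (MulSemiringAction.toRingHom G (𝓞 L) σ) _
  have hI₂0 : I₂' ≠ ⊥ := by
    rintro rfl
    rw [Ideal.mul_bot, Ideal.span_singleton_eq_bot] at hI₂'
    exact hm0 hI₂'
  have h3 : (σ • I₂) * (σ • I₂') = I₂ * I₂' := by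
    rw [← smul_mul', ← hI₂', smul_span, hσm]
  have h4 : Ideal.span {b₂} * (σ • I₂') = Ideal.span {a₂} * I₂' := by
    apply mul_left_cancel₀ (a := I₂) hI₂
    calc I₂ * (Ideal.span {b₂} * (σ • I₂')) = (Ideal.span {b₂} * I₂) * (σ • I₂') := by ring
      _ = (Ideal.span {a₂} * (σ • I₂)) * (σ • I₂') := by rw [h₂]
      _ = Ideal.span {a₂} * ((σ • I₂) * (σ • I₂')) := by ring
      _ = I₂ * (Ideal.span {a₂} * I₂') := by rw [h3]; ring
  have hspan : ∀ a : 𝓞 L, a ≠ 0 → Ideal.span {a} ≠ ⊥ := by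
    intro a ha
    simpa using ha
  refine ⟨Ideal.span {y} * (I₁ * I₂'), ?_, ?_, ?_⟩
  · exact mul_ne_zero (hspan y hy0) (mul_ne_zero hI₁ hI₂0)
  · rw [smul_mul', smul_mul', smul_span]
    apply mul_left_cancel₀ (a := Ideal.span {a₁ * b₂}) (hspan _ (mul_ne_zero ha₁ hb₂))
    have hwspan : Ideal.span {wL} = ⊤ := by
      rw [Ideal.span_singleton_eq_top]
      exact w.isUnit.map (algebraMap (𝓞 (fixF L (Subgroup.zpowers σ))) (𝓞 L))
    calc Ideal.span {a₁ * b₂} * (Ideal.span {σ • y} * ((σ • I₁) * (σ • I₂')))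
        = Ideal.span {σ • y} * ((Ideal.span {a₁} * (σ • I₁)) * (Ideal.span {b₂} * (σ • I₂'))) := by
          rw [← Ideal.span_singleton_mul_span_singleton]; ring
      _ = Ideal.span {σ • y} * ((Ideal.span {b₁} * I₁) * (Ideal.span {a₂} * I₂')) := by
          rw [h₁, h4]
      _ = (Ideal.span {b₁ * a₂ * (σ • y)}) * (I₁ * I₂') := by
          rw [← Ideal.span_singleton_mul_span_singleton, ← Ideal.span_singleton_mul_span_singleton]
          ring
      _ = (Ideal.span {a₁ * b₂ * wL * y}) * (I₁ * I₂') := by rw [hy']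
      _ = Ideal.span {a₁ * b₂} * (Ideal.span {y} * (I₁ * I₂')) := by
          rw [← Ideal.span_singleton_mul_span_singleton, ← Ideal.span_singleton_mul_span_singleton,
            hwspan, Ideal.mul_top]
          ring
  · rw [cls_mul (hspan y hy0) (mul_ne_zero hI₁ hI₂0), cls_span hy0, one_mul, cls_mul hI₁ hI₂0,
      mul_assoc, ← cls_mul hI₂0 hI₂, mul_comm I₂' I₂, ← hI₂', cls_span hm0, mul_one]

end hilbert

section gens

variable {A : Type*} [CommGroup A] [Finite A]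

lemma card_inf_sup_zpowers (S B : Subgroup A) (g : A) {l : ℕ} (hl : 0 < l) (hg : g ^ l ∈ B) :
    Nat.card (S ⊓ (B ⊔ Subgroup.zpowers g) : Subgroup A) ≤ l * Nat.card (S ⊓ B : Subgroup A) := by
  classical
  have hdec : ∀ x : (S ⊓ (B ⊔ Subgroup.zpowers g) : Subgroup A), ∃ (b : B) (k : ℕ),
      (b : A) * g ^ k = x := by
    rintro ⟨x, hx1, hx2⟩
    obtain ⟨b, hb, z, hz, hbz⟩ := Subgroup.mem_sup.mp hx2
    obtain ⟨k, -, hk⟩ := (isOfFinOrder_of_finite g).mem_zpowers_iff_mem_range_orderOf.mp hz |>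
      Finset.mem_image.mp
    exact ⟨⟨b, hb⟩, k, by rw [hk]; exact hbz⟩
  choose b k hbk using hdec
  let f : (S ⊓ (B ⊔ Subgroup.zpowers g) : Subgroup A) → Fin l := fun x => ⟨k x % l, Nat.mod_lt _ hl⟩
  have hpow : ∀ n : ℕ, g ^ n / g ^ (n % l) ∈ B := by
    intro n
    have h1 : g ^ n = g ^ (n % l) * (g ^ l) ^ (n / l) := by
      rw [← pow_mul, ← pow_add, Nat.mod_add_div]
    rw [h1, mul_div_cancel_left]
    exact B.pow_mem hg _
  have h := card_le_of_fibers (S ⊓ (B ⊔ Subgroup.zpowers g) : Subgroup A) B f (by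
    intro x y hxy
    have h1 : k x % l = k y % l := congrArg Fin.val hxy
    have e1 := hpow (k x)
    have e2 := hpow (k y)
    rw [h1] at e1
    have e3 := B.div_mem e1 e2
    rw [div_div_div_cancel_right] at e3
    rw [← hbk x, ← hbk y, mul_div_mul_comm]
    exact B.mul_mem (B.div_mem (b x).2 (b y).2) e3)
  rw [Nat.card_fin] at h
  refine h.trans (Nat.mul_le_mul_left l ?_)
  apply Nat.card_mono (Set.toFinite _)
  intro x hx
  exact ⟨hx.1.1, hx.2⟩

lemma card_inf_sup_closure (S B : Subgroup A) {l : ℕ} (hl : 0 < l) (R : Finset A)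
    (hg : ∀ g ∈ R, g ^ l ∈ B) :
    Nat.card (S ⊓ (B ⊔ Subgroup.closure (R : Set A)) : Subgroup A) ≤
      l ^ R.card * Nat.card (S ⊓ B : Subgroup A) := by
  classical
  induction R using Finset.induction_on with
  | empty => simp
  | insert a R ha ih =>
    have h1 : (B ⊔ Subgroup.closure ((insert a R : Finset A) : Set A)) =
        (B ⊔ Subgroup.closure (R : Set A)) ⊔ Subgroup.zpowers a := by
      rw [Finset.coe_insert, Set.insert_eq, Subgroup.closure_union, Subgroup.zpowers_eq_closure,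
        sup_assoc, sup_comm (Subgroup.closure {a})]
    rw [h1, Finset.card_insert_of_notMem ha, pow_succ]
    refine (card_inf_sup_zpowers S _ a hl ?_).trans ?_
    · exact Subgroup.mem_sup_left (hg a (Finset.mem_insert_self a R))
    · have h2 := ih (fun g hg' => hg g (Finset.mem_insert_of_mem hg'))
      calc l * Nat.card (S ⊓ (B ⊔ Subgroup.closure (R : Set A)) : Subgroup A)
          ≤ l * (l ^ R.card * Nat.card (S ⊓ B : Subgroup A)) := Nat.mul_le_mul_left l h2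
        _ = l ^ R.card * l * Nat.card (S ⊓ B : Subgroup A) := by ring

end gens

section decomp

variable {L : Type} [Field L] [NumberField L] {G : Type*} [Group G] [Finite G]
  [MulSemiringAction G L] [hG : IsGaloisGroup G ℚ L]

omit [NumberField L] [Finite G] hG in
lemma smul_eq_of_mem_zpowers {σ : G} {I : Ideal (𝓞 L)} (h : σ • I = I) {g : G}
    (hg : g ∈ Subgroup.zpowers σ) : g • I = I := by
  have h1 : σ ∈ MulAction.stabilizer G I := h
  exact (Subgroup.zpowers_le.mpr h1) hg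

/-- the norm to the fixed field -/
lemma map_relNorm_zpowers (σ : G) (P : Ideal (𝓞 L)) [Fintype (Subgroup.zpowers σ)] :
    (Ideal.relNorm (𝓞 (fixF L (Subgroup.zpowers σ))) P).map
      (algebraMap (𝓞 (fixF L (Subgroup.zpowers σ))) (𝓞 L)) =
      ∏ h : Subgroup.zpowers σ, (h : G) • P := by
  have hGH := gal_fix (L := L) (Subgroup.zpowers σ)
  rw [map_relNorm_eq (H := Subgroup.zpowers σ)]
  rfl

lemma relNorm_ne_bot {σ : G} {P : Ideal (𝓞 L)} (hP : P ≠ ⊥) :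
    Ideal.relNorm (𝓞 (fixF L (Subgroup.zpowers σ))) P ≠ ⊥ := by
  rw [Ne, Ideal.relNorm_eq_bot_iff]
  exact hP

lemma cls_relNorm_mem (σ : G) {P : Ideal (𝓞 L)} (hP : P ≠ ⊥) :
    cls ((Ideal.relNorm (𝓞 (fixF L (Subgroup.zpowers σ))) P).map
      (algebraMap (𝓞 (fixF L (Subgroup.zpowers σ))) (𝓞 L))) ∈
      (ClassGroup.extendedHom (𝓞 (fixF L (Subgroup.zpowers σ))) (𝓞 L)).range := by
  rw [← cls_map (relNorm_ne_bot hP)]
  exact ⟨_, rfl⟩

/-- an invariant unramified prime is extended -/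
lemma eq_map_under {σ : G} {P : Ideal (𝓞 L)} (hP : P.IsPrime) (hP0 : P ≠ ⊥) (hσP : σ • P = P)
    (hram : ¬ P ^ 2 ∣ (P.under (𝓞 (fixF L (Subgroup.zpowers σ)))).map
      (algebraMap (𝓞 (fixF L (Subgroup.zpowers σ))) (𝓞 L))) :
    (P.under (𝓞 (fixF L (Subgroup.zpowers σ)))).map
      (algebraMap (𝓞 (fixF L (Subgroup.zpowers σ))) (𝓞 L)) = P := by
  have hGH := gal_fix (L := L) (Subgroup.zpowers σ)
  have hle : (P.under (𝓞 (fixF L (Subgroup.zpowers σ)))).map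
      (algebraMap (𝓞 (fixF L (Subgroup.zpowers σ))) (𝓞 L)) ≤ P := Ideal.map_comap_le
  obtain ⟨C, hC⟩ := Ideal.dvd_iff_le.mpr hle
  have hq0 : P.under (𝓞 (fixF L (Subgroup.zpowers σ))) ≠ ⊥ :=
    Ideal.under_ne_bot (𝓞 (fixF L (Subgroup.zpowers σ))) hP0
  by_cases hCtop : C = ⊤
  · rw [hC, hCtop, Ideal.mul_top]
  exfalso
  obtain ⟨P', hP'max, hCP'⟩ := Ideal.exists_le_maximal C hCtop
  have hP'p : P'.IsPrime := hP'max.isPrime
  have hPmax : P.IsMaximal := hP.isMaximal hP0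
  have hqmax : (P.under (𝓞 (fixF L (Subgroup.zpowers σ)))).IsMaximal :=
    (Ideal.IsPrime.under _ P).isMaximal hq0
  have h1 : P.under (𝓞 (fixF L (Subgroup.zpowers σ))) =
      P'.under (𝓞 (fixF L (Subgroup.zpowers σ))) := by
    apply hqmax.eq_of_le (Ideal.IsPrime.under _ P').ne_top
    rw [Ideal.under, ← Ideal.map_le_iff_le_comap, hC]
    exact Ideal.mul_le_right.trans hCP'
  obtain ⟨g, hg⟩ := Algebra.IsInvariant.exists_smul_of_under_eq
    (𝓞 (fixF L (Subgroup.zpowers σ))) (𝓞 L) (Subgroup.zpowers σ) P P' h1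
  have h2 : (g : G) • P = P := smul_eq_of_mem_zpowers hσP g.2
  have h3 : P' = P := by
    rw [hg]
    exact h2
  rw [h3] at hCP'
  apply hram
  rw [hC, sq]
  exact mul_dvd_mul_left P (Ideal.dvd_iff_le.mpr hCP')

/-- the subgroup generated by extended classes and classes of invariant ramified primes -/
noncomputable def ambT (σ : G) (R : Finset (Ideal (𝓞 L))) : Subgroup (ClassGroup (𝓞 L)) :=
  (ClassGroup.extendedHom (𝓞 (fixF L (Subgroup.zpowers σ))) (𝓞 L)).range ⊔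
    Subgroup.closure (cls '' {P | P ∈ R ∧ P ≠ ⊥ ∧ σ • P = P})

omit [NumberField L] [Finite G] hG in
lemma orbit_inj {σ : G} (hσ : (orderOf σ).Prime) {P : Ideal (𝓞 L)} (hσP : σ • P ≠ P) :
    Function.Injective (fun h : Subgroup.zpowers σ => (h : G) • P) := by
  intro g h hgh
  have h1 : ((g⁻¹ * h : Subgroup.zpowers σ) : G) • P = P := by
    have hgh' : (g : G) • P = (h : G) • P := hgh
    rw [Subgroup.coe_mul, Subgroup.coe_inv, mul_smul, ← hgh', inv_smul_smul]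
  by_contra hne
  apply hσP
  have h2 : (g⁻¹ * h : Subgroup.zpowers σ) ≠ 1 := by
    intro h3
    exact hne (inv_mul_eq_one.mp h3)
  set z : G := ((g⁻¹ * h : Subgroup.zpowers σ) : G) with hz
  have hzmem : z ∈ Subgroup.zpowers σ := (g⁻¹ * h : Subgroup.zpowers σ).2
  have hz1 : z ≠ 1 := fun h3 => h2 (Subtype.ext h3)
  have hfin : Finite (Subgroup.zpowers σ) := by
    apply Nat.finite_of_card_ne_zero
    rw [Nat.card_zpowers]
    exact hσ.ne_zero
  have h3 : Subgroup.zpowers z = Subgroup.zpowers σ := by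
    apply Subgroup.eq_of_le_of_card_ge (Subgroup.zpowers_le.mpr hzmem)
    rw [Nat.card_zpowers, Nat.card_zpowers]
    have h4 : orderOf z ∣ orderOf σ := by
      rw [← Nat.card_zpowers σ]
      exact Subgroup.orderOf_dvd_natCard _ hzmem
    rcases (Nat.dvd_prime hσ).mp h4 with h5 | h5
    · exact absurd (orderOf_eq_one_iff.mp h5) hz1
    · exact h5.ge
  have h4 : z ∈ MulAction.stabilizer G P := h1
  have h5 : Subgroup.zpowers z ≤ MulAction.stabilizer G P := Subgroup.zpowers_le.mpr h4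
  rw [h3] at h5
  exact h5 (Subgroup.mem_zpowers σ)

omit [Finite G] hG in
lemma orbit_prod_dvd {σ : G} (hσ : (orderOf σ).Prime) {P J : Ideal (𝓞 L)} (hσP : σ • P ≠ P)
    (hP : P.IsPrime) (hP0 : P ≠ ⊥) (hσJ : σ • J = J) (hJP : J ≤ P)
    [Fintype (Subgroup.zpowers σ)] :
    ∏ h : Subgroup.zpowers σ, (h : G) • P ∣ J := by
  classical
  have hinj := orbit_inj hσ hσP
  rw [← Finset.prod_image (f := fun I : Ideal (𝓞 L) => I) (fun _ _ _ _ h => hinj h)]
  apply Finset.prod_primes_dvd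
  · intro Q hQ
    obtain ⟨g, -, rfl⟩ := Finset.mem_image.mp hQ
    exact Ideal.prime_of_isPrime (smul_ne_bot' _ hP0) (hP.smul _)
  · intro Q hQ
    obtain ⟨g, -, rfl⟩ := Finset.mem_image.mp hQ
    rw [Ideal.dvd_iff_le, ← smul_eq_of_mem_zpowers hσJ g.2]
    exact Ideal.pointwise_smul_le_pointwise_smul_iff.mpr hJP

omit [NumberField L] [Finite G] hG in
lemma orbit_prod_inv (σ : G) (P : Ideal (𝓞 L)) [Fintype (Subgroup.zpowers σ)] :
    σ • (∏ h : Subgroup.zpowers σ, (h : G) • P) = ∏ h : Subgroup.zpowers σ, (h : G) • P := by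
  rw [Finset.smul_prod']
  have h1 : ∀ h : Subgroup.zpowers σ, σ • ((h : G) • P) =
      ((⟨σ, Subgroup.mem_zpowers σ⟩ * h : Subgroup.zpowers σ) : G) • P := by
    intro h
    rw [Subgroup.coe_mul, mul_smul]
  rw [Finset.prod_congr rfl (fun h _ => h1 h)]
  exact Fintype.prod_equiv (Equiv.mulLeft (⟨σ, Subgroup.mem_zpowers σ⟩ : Subgroup.zpowers σ))
    _ _ (fun h => rfl)

omit [NumberField L] [Finite G] hG in
lemma dvd_orbit_prod (σ : G) (P : Ideal (𝓞 L)) [Fintype (Subgroup.zpowers σ)] :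
    P ∣ ∏ h : Subgroup.zpowers σ, (h : G) • P := by
  have h1 := Finset.dvd_prod_of_mem (fun h : Subgroup.zpowers σ => (h : G) • P)
    (Finset.mem_univ (1 : Subgroup.zpowers σ))
  have h2 : ((1 : Subgroup.zpowers σ) : G) • P = P := by rw [Subgroup.coe_one, one_smul]
  change ((1 : Subgroup.zpowers σ) : G) • P ∣ _ at h1
  rwa [h2] at h1

lemma cls_orbit_mem (σ : G) {P : Ideal (𝓞 L)} (hP0 : P ≠ ⊥) [Fintype (Subgroup.zpowers σ)] :
    cls (∏ h : Subgroup.zpowers σ, (h : G) • P) ∈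
      (ClassGroup.extendedHom (𝓞 (fixF L (Subgroup.zpowers σ))) (𝓞 L)).range := by
  rw [← map_relNorm_zpowers σ P]
  exact cls_relNorm_mem σ hP0

lemma cls_mem_of_inv_prime {σ : G} {R : Finset (Ideal (𝓞 L))}
    (hR : ∀ P : Ideal (𝓞 L), P.IsPrime → P ≠ ⊥ →
      P ^ 2 ∣ (P.under (𝓞 (fixF L (Subgroup.zpowers σ)))).map
        (algebraMap (𝓞 (fixF L (Subgroup.zpowers σ))) (𝓞 L)) → P ∈ R)
    {P : Ideal (𝓞 L)} (hP : P.IsPrime) (hP0 : P ≠ ⊥) (hσP : σ • P = P) : cls P ∈ ambT σ R := by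
  by_cases hram : P ^ 2 ∣ (P.under (𝓞 (fixF L (Subgroup.zpowers σ)))).map
      (algebraMap (𝓞 (fixF L (Subgroup.zpowers σ))) (𝓞 L))
  · apply Subgroup.mem_sup_right
    apply Subgroup.subset_closure
    exact ⟨P, ⟨hR P hP hP0 hram, hP0, hσP⟩, rfl⟩
  · apply Subgroup.mem_sup_left
    rw [← eq_map_under hP hP0 hσP hram, ← cls_map (Ideal.under_ne_bot _ hP0)]
    exact ⟨_, rfl⟩

lemma cls_mem_ambT (σ : G) (hσ : (orderOf σ).Prime) {R : Finset (Ideal (𝓞 L))}
    (hR : ∀ P : Ideal (𝓞 L), P.IsPrime → P ≠ ⊥ →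
      P ^ 2 ∣ (P.under (𝓞 (fixF L (Subgroup.zpowers σ)))).map
        (algebraMap (𝓞 (fixF L (Subgroup.zpowers σ))) (𝓞 L)) → P ∈ R) :
    ∀ (n : ℕ) (J : Ideal (𝓞 L)), Ideal.absNorm J = n → J ≠ ⊥ → σ • J = J → cls J ∈ ambT σ R := by
  classical
  cases nonempty_fintype (Subgroup.zpowers σ)
  intro n
  induction n using Nat.strong_induction_on with
  | _ n ih =>
  intro J hn hJ0 hσJ
  by_cases hJtop : J = ⊤
  · rw [hJtop, cls_top]
    exact one_mem _
  obtain ⟨P, hPmax, hJP⟩ := Ideal.exists_le_maximal J hJtop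
  have hP : P.IsPrime := hPmax.isPrime
  have hP0 : P ≠ ⊥ := by
    rintro rfl
    exact hJ0 (le_bot_iff.mp hJP)
  -- the reduction step
  have step : ∀ F : Ideal (𝓞 L), F ∣ J → F ≠ ⊥ → F ≠ ⊤ → σ • F = F → cls F ∈ ambT σ R →
      cls J ∈ ambT σ R := by
    rintro F ⟨J', rfl⟩ hF0 hFtop hσF hFT
    have hJ'0 : J' ≠ ⊥ := by
      rintro rfl
      exact hJ0 (Ideal.mul_bot F)
    have hσJ' : σ • J' = J' := by
      rw [smul_mul', hσF] at hσJ
      exact mul_left_cancel₀ hF0 hσJ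
    have hlt : Ideal.absNorm J' < n := by
      rw [← hn, map_mul]
      have h1 : 0 < Ideal.absNorm J' := absNorm_pos_of_ne_bot hJ'0
      have h2 : 1 < Ideal.absNorm F := by
        have h3 : 0 < Ideal.absNorm F := absNorm_pos_of_ne_bot hF0
        have h4 : Ideal.absNorm F ≠ 1 := by rwa [Ne, Ideal.absNorm_eq_one_iff]
        omega
      exact (Nat.lt_mul_iff_one_lt_left h1).mpr h2
    rw [cls_mul hF0 hJ'0]
    exact mul_mem hFT (ih _ hlt J' rfl hJ'0 hσJ')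
  by_cases hσP : σ • P = P
  · exact step P (Ideal.dvd_iff_le.mpr hJP) hP0 hP.ne_top hσP (cls_mem_of_inv_prime hR hP hP0 hσP)
  · apply step (∏ h : Subgroup.zpowers σ, (h : G) • P) (orbit_prod_dvd hσ hσP hP hP0 hσJ hJP)
    · exact Finset.prod_ne_zero_iff.mpr (fun h _ => smul_ne_bot' _ hP0)
    · intro htop
      have h1 := dvd_orbit_prod σ P
      rw [htop] at h1
      exact hP.ne_top (top_le_iff.mp (Ideal.le_of_dvd h1))
    · exact orbit_prod_inv σ P
    · exact Subgroup.mem_sup_left (cls_orbit_mem σ hP0)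

end decomp




section bound

variable {L : Type} [Field L] [NumberField L] {G : Type*} [Group G] [Finite G]
  [MulSemiringAction G L] [hG : IsGaloisGroup G ℚ L]

lemma relNorm_smul_zpowers (σ : G) (I : Ideal (𝓞 L)) :
    Ideal.relNorm (𝓞 (fixF L (Subgroup.zpowers σ))) (σ • I) =
      Ideal.relNorm (𝓞 (fixF L (Subgroup.zpowers σ))) I := by
  have hGH := gal_fix (L := L) (Subgroup.zpowers σ)
  exact Ideal.relNorm_smul (R := 𝓞 (fixF L (Subgroup.zpowers σ)))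
    (⟨σ, Subgroup.mem_zpowers σ⟩ : Subgroup.zpowers σ) I

lemma exists_unit_of_fixed (σ : G) {x : ClassGroup (𝓞 L)} (hx : act L σ x = x) :
    ∃ (I : Ideal (𝓞 L)) (a b : 𝓞 L) (u : (𝓞 (fixF L (Subgroup.zpowers σ)))ˣ), I ≠ ⊥ ∧
      cls I = x ∧ a ≠ 0 ∧ b ≠ 0 ∧ Ideal.span {a} * (σ • I) = Ideal.span {b} * I ∧
      Algebra.intNorm (𝓞 (fixF L (Subgroup.zpowers σ))) (𝓞 L) b =
        Algebra.intNorm (𝓞 (fixF L (Subgroup.zpowers σ))) (𝓞 L) a * u := by
  obtain ⟨I, hI0, rfl⟩ := cls_surj x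
  rw [cls_smul σ hI0, cls_eq_iff (smul_ne_bot' σ hI0) hI0] at hx
  obtain ⟨a, b, ha, hb, hab⟩ := hx
  have h1 := congrArg (Ideal.relNorm (𝓞 (fixF L (Subgroup.zpowers σ)))) hab
  rw [map_mul, map_mul, relNorm_smul_zpowers, Ideal.relNorm_singleton, Ideal.relNorm_singleton] at h1
  have h2 := mul_right_cancel₀ (relNorm_ne_bot hI0) h1
  rw [Ideal.span_singleton_eq_span_singleton] at h2
  obtain ⟨u, hu⟩ := h2
  exact ⟨I, a, b, u, hI0, rfl, ha, hb, hab, hu.symm⟩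

lemma finrank_fix_zpowers (σ : G) : finrank (fixF L (Subgroup.zpowers σ)) L = orderOf σ := by
  rw [← Nat.card_zpowers]
  exact (IsGaloisGroup.card_eq_finrank (Subgroup.zpowers σ) (fixF L (Subgroup.zpowers σ)) L).symm

theorem amb_bound (σ : G) (hσ : (orderOf σ).Prime) {R : Finset (Ideal (𝓞 L))}
    (hR : ∀ P : Ideal (𝓞 L), P.IsPrime → P ≠ ⊥ →
      P ^ 2 ∣ (P.under (𝓞 (fixF L (Subgroup.zpowers σ)))).map
        (algebraMap (𝓞 (fixF L (Subgroup.zpowers σ))) (𝓞 L)) → P ∈ R)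
    {n : ℕ} (κ : (𝓞 (fixF L (Subgroup.zpowers σ)))ˣ → (Fin n → Fin (orderOf σ)))
    (hκ : ∀ u v, κ u = κ v → ∃ w : (𝓞 (fixF L (Subgroup.zpowers σ)))ˣ, u = v * w ^ (orderOf σ))
    (S : Subgroup (ClassGroup (𝓞 L))) (hS : ∀ x ∈ S, act L σ x = x) :
    Nat.card S ≤ (orderOf σ) ^ (n + R.card) *
      Nat.card (S ⊓ (ClassGroup.extendedHom (𝓞 (fixF L (Subgroup.zpowers σ))) (𝓞 L)).range :
        Subgroup (ClassGroup (𝓞 L))) := by
  classical
  cases nonempty_fintype (Subgroup.zpowers σ)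
  have hex := fun x : S => exists_unit_of_fixed σ (hS x.1 x.2)
  choose I a b u hI0 hIx ha hb hab hu using hex
  -- first step: reduce to classes of invariant ideals
  have h1 : Nat.card S ≤ Nat.card (Fin n → Fin (orderOf σ)) * Nat.card (S ⊓ ambT σ R :
      Subgroup (ClassGroup (𝓞 L))) := by
    apply card_le_of_fibers S (ambT σ R) (fun x => κ (u x))
    intro x y hxy
    obtain ⟨w, hw⟩ := hκ _ _ hxy
    obtain ⟨J, hJ0, hJ, hJc⟩ := exists_inv_ideal σ (hI0 x) (hI0 y) (ha x) (hb x) (ha y) (hb y)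
      (hab x) (hab y) w (by
        rw [finrank_fix_zpowers, hu x, hu y, hw]
        push_cast
        ring)
    have h2 : (x : ClassGroup (𝓞 L)) / y = cls J := by
      rw [← hIx x, ← hIx y, ← hJc, mul_div_cancel_right]
    rw [h2]
    exact cls_mem_ambT σ hσ hR _ J rfl hJ0 hJ
  -- second step: the ramified primes
  let R' : Finset (ClassGroup (𝓞 L)) := (R.filter (fun P => P ≠ ⊥ ∧ σ • P = P)).image cls
  have h2 : ambT σ R = (ClassGroup.extendedHom (𝓞 (fixF L (Subgroup.zpowers σ))) (𝓞 L)).range ⊔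
      Subgroup.closure (R' : Set (ClassGroup (𝓞 L))) := by
    unfold ambT
    congr 2
    ext c
    simp only [R', Set.mem_image, Set.mem_setOf_eq, Finset.coe_image, Finset.coe_filter]
  have h3 := card_inf_sup_closure S
    (ClassGroup.extendedHom (𝓞 (fixF L (Subgroup.zpowers σ))) (𝓞 L)).range hσ.pos R' (by
      intro g hg
      obtain ⟨P, hP, rfl⟩ := Finset.mem_image.mp hg
      obtain ⟨-, hP0, hσP⟩ := Finset.mem_filter.mp hP
      have h4 : ∏ h : Subgroup.zpowers σ, (h : G) • P = P ^ (orderOf σ) := by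
        rw [Finset.prod_congr rfl (fun h _ => smul_eq_of_mem_zpowers hσP h.2), Finset.prod_const,
          Finset.card_univ, ← Nat.card_eq_fintype_card, Nat.card_zpowers]
      rw [← cls_pow hP0, ← h4]
      exact cls_orbit_mem σ hP0)
  rw [← h2] at h3
  have h5 : R'.card ≤ R.card := Finset.card_image_le.trans (Finset.card_filter_le _ _)
  have h6 : Nat.card (Fin n → Fin (orderOf σ)) = (orderOf σ) ^ n := by
    rw [Nat.card_fun, Nat.card_fin, Nat.card_fin]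
  rw [h6] at h1
  refine h1.trans ?_
  rw [pow_add, mul_assoc]
  apply Nat.mul_le_mul_left
  refine h3.trans ?_
  apply Nat.mul_le_mul_right
  exact Nat.pow_le_pow_right hσ.pos h5

end bound

end Pool.Agent.Lib.MP_695920_nt.Solv
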