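import Mathlib
import Pool.Agent.Lib.MP_695920_nt.GoodPrimes

set_option autoImplicit false

open Finset NumberField Module IsDedekindDomain
open scoped nonZeroDivisors Pointwise IntermediateField

namespace Pool.Agent.Lib.MP_695920_nt.Solv

lemma mem_primesOverFinset_nat {K : Type*} [Field K] [NumberField K] {p : ℕ} (hp : p.Prime)
    {P : Ideal (𝓞 K)} :
    P ∈ IsDedekindDomain.primesOverFinset (Ideal.span {(p : ℤ)}) (𝓞 K) ↔
      P.IsPrime ∧ P.LiesOver (Ideal.span {(p : ℤ)}) := by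
  have hmax := span_int_isMaximal hp
  rw [IsDedekindDomain.mem_primesOverFinset_iff (by simpa using hp.ne_zero)]
  rfl

lemma nat_mem_of_liesOver {K : Type*} [Field K] [NumberField K] {p : ℕ}
    {P : Ideal (𝓞 K)} (h : P.LiesOver (Ideal.span {(p : ℤ)})) : (p : 𝓞 K) ∈ P := by
  have h1 : (p : ℤ) ∈ P.under ℤ := by
    rw [← h.over]
    exact Ideal.mem_span_singleton_self _
  rw [Ideal.under, Ideal.mem_comap] at h1
  simpa using h1

lemma ne_bot_of_liesOver {K : Type*} [Field K] [NumberField K] {p : ℕ} (hp : p.Prime)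
    {P : Ideal (𝓞 K)} (h : P.LiesOver (Ideal.span {(p : ℤ)})) : P ≠ ⊥ := by
  rintro rfl
  have h1 := nat_mem_of_liesOver h
  rw [Ideal.mem_bot] at h1
  exact hp.ne_zero (by exact_mod_cast h1)

/-- Task D3 -/
theorem prod_dvd_discr {K : Type*} [Field K] [NumberField K] (S : Finset ℕ)
    (hSp : ∀ p ∈ S, p.Prime) :
    ∏ p ∈ S, p ^ (∑ P ∈ IsDedekindDomain.primesOverFinset (Ideal.span {(p : ℤ)}) (𝓞 K),
      P.inertiaDeg ℤ * (P.ramificationIdx ℤ - 1)) ∣ (discr K).natAbs := by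
  classical
  let F : ℕ → Finset (Ideal (𝓞 K)) := fun p =>
    IsDedekindDomain.primesOverFinset (Ideal.span {(p : ℤ)}) (𝓞 K)
  have h1 : ∏ x ∈ S.sigma F, (x.2 : Ideal (𝓞 K)) ^ (x.2.ramificationIdx ℤ - 1) ∣
      differentIdeal ℤ (𝓞 K) := by
    apply Finset.prod_dvd_of_coprime
    · intro x hx y hy hxy
      rw [Finset.mem_coe, Finset.mem_sigma] at hx hy
      obtain ⟨p, P⟩ := x
      obtain ⟨q, Q⟩ := y
      obtain ⟨hp, hP⟩ := hx
      obtain ⟨hq, hQ⟩ := hy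
      have hp' := hSp p hp
      have hq' := hSp q hq
      obtain ⟨hPp, hPo⟩ := (mem_primesOverFinset_nat hp').mp hP
      obtain ⟨hQp, hQo⟩ := (mem_primesOverFinset_nat hq').mp hQ
      have hPM : P.IsMaximal := hPp.isMaximal (ne_bot_of_liesOver hp' hPo)
      have hQM : Q.IsMaximal := hQp.isMaximal (ne_bot_of_liesOver hq' hQo)
      have hne : P ≠ Q := by
        rintro rfl
        apply hxy
        have h2 := hPo.over
        have h3 := hQo.over
        rw [← h2, Ideal.span_singleton_eq_span_singleton] at h3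
        have h4 : p = q := by
          have := Int.associated_iff_natAbs.mp h3
          simpa using this.symm
        subst h4
        rfl
      change IsCoprime (P ^ (P.ramificationIdx ℤ - 1)) (Q ^ (Q.ramificationIdx ℤ - 1))
      apply IsCoprime.pow
      rw [Ideal.isCoprime_iff_sup_eq]
      exact Ideal.IsMaximal.coprime_of_ne hPM hQM hne
    · rintro ⟨p, P⟩ hx
      rw [Finset.mem_sigma] at hx
      obtain ⟨hp, hP⟩ := hx
      have hp' := hSp p hp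
      obtain ⟨hPp, hPo⟩ := (mem_primesOverFinset_nat hp').mp hP
      have hmax := span_int_isMaximal hp'
      have hne : Ideal.span {(p : ℤ)} ≠ ⊥ := by simpa using hp'.ne_zero
      have hPM : P.IsMaximal := hPp.isMaximal (ne_bot_of_liesOver hp' hPo)
      apply pow_sub_one_dvd_differentIdeal ℤ P _ hne
      rw [Ideal.dvd_iff_le, ← Ideal.ramificationIdx'_eq_ramificationIdx _ P hne]
      exact Ideal.le_pow_ramificationIdx'
  have h2 := Ideal.absNorm_dvd_absNorm_of_le (Ideal.le_of_dvd h1)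
  rw [absNorm_differentIdeal K, map_prod, Finset.prod_sigma] at h2
  refine dvd_trans (dvd_of_eq ?_) h2
  apply Finset.prod_congr rfl
  intro p hp
  rw [← Finset.prod_pow_eq_pow_sum]
  apply Finset.prod_congr rfl
  intro P hP
  obtain ⟨hPp, hPo⟩ := (mem_primesOverFinset_nat (hSp p hp)).mp hP
  rw [map_pow, ← Ideal.pow_inertiaDeg p P, pow_mul]

section group

variable {G : Type*} [Group G] {N H : Subgroup G}

/-- elements of `N H` -/
lemma frob_decomp (hNn : N.Normal) (hNH' : N ⊔ H = ⊤) (g : G) : ∃ n ∈ N, ∃ h ∈ H, g = n * h := by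
  have h1 : g ∈ ((N ⊔ H : Subgroup G) : Set G) := by rw [hNH']; exact Set.mem_univ g
  rw [Subgroup.normal_mul] at h1
  obtain ⟨n, hn, h, hh, rfl⟩ := Set.mem_mul.mp h1
  exact ⟨n, hn, h, hh, rfl⟩

/-- the complement is malnormal -/
lemma frob_malnormal (hNn : N.Normal) (hNH : N ⊓ H = ⊥) (hNH' : N ⊔ H = ⊤)
    (hcomm : ∀ g k : G, g * k * g⁻¹ * k⁻¹ ∈ N)
    (hfix : ∀ h ∈ H, h ≠ 1 → ∀ n ∈ N, h * n = n * h → n = 1) {h : G} (hh : h ∈ H) (h1 : h ≠ 1)
    {g : G} (hg : g * h * g⁻¹ ∈ H) : g ∈ H := by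
  obtain ⟨n, hn, k, hk, rfl⟩ := frob_decomp hNn hNH' g
  have hkh : k * h * k⁻¹ * h⁻¹ = 1 := by
    have e1 : k * h * k⁻¹ * h⁻¹ ∈ N ⊓ H := by
      refine ⟨hcomm k h, ?_⟩
      exact H.mul_mem (H.mul_mem (H.mul_mem hk hh) (H.inv_mem hk)) (H.inv_mem hh)
    rw [hNH, Subgroup.mem_bot] at e1
    exact e1
  have hkh' : k * h * k⁻¹ = h := by
    rw [mul_inv_eq_one] at hkh
    exact hkh
  have e2 : n * k * h * (n * k)⁻¹ = n * h * n⁻¹ := by
    calc n * k * h * (n * k)⁻¹ = n * (k * h * k⁻¹) * n⁻¹ := by group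
      _ = n * h * n⁻¹ := by rw [hkh']
  rw [e2] at hg
  have e3 : n * h * n⁻¹ * h⁻¹ ∈ N ⊓ H := ⟨hcomm n h, H.mul_mem hg (H.inv_mem hh)⟩
  rw [hNH, Subgroup.mem_bot, mul_inv_eq_one, mul_inv_eq_iff_eq_mul] at e3
  have e4 := hfix h hh h1 n hn e3.symm
  rw [e4, one_mul]
  exact hk

/-- if a subgroup `I` meets `N` trivially and `H` non-trivially then the subgroups normalising it
are inside `H` -/
lemma frob_stab_le (hNn : N.Normal) (hNH : N ⊓ H = ⊥) (hNH' : N ⊔ H = ⊤)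
    (hcomm : ∀ g k : G, g * k * g⁻¹ * k⁻¹ ∈ N)
    (hfix : ∀ h ∈ H, h ≠ 1 → ∀ n ∈ N, h * n = n * h → n = 1) {I D : Subgroup G}
    (hIN : I ⊓ N = ⊥) (hID : ∀ g ∈ D, ∀ i ∈ I, g * i * g⁻¹ ∈ I) {h : G} (hh : h ∈ H) (hI : h ∈ I)
    (h1 : h ≠ 1) : D ≤ H := by
  have e1 : I ≤ H := by
    intro i hi
    have e2 : i * h * i⁻¹ * h⁻¹ ∈ I ⊓ N :=
      ⟨I.mul_mem (I.mul_mem (I.mul_mem hi hI) (I.inv_mem hi)) (I.inv_mem hI), hcomm i h⟩
    rw [hIN, Subgroup.mem_bot, mul_inv_eq_one] at e2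
    exact frob_malnormal hNn hNH hNH' hcomm hfix hh h1 (by rw [e2]; exact hh)
  intro g hg
  exact frob_malnormal hNn hNH hNH' hcomm hfix hh h1 (e1 (hID g hg h hI))

/-- modular law for cardinalities: if `N ≤ I` then `|I| = |N| |I ∩ H|` -/
lemma card_of_le (hNn : N.Normal) (hNH : N ⊓ H = ⊥) (hNH' : N ⊔ H = ⊤) {I : Subgroup G}
    (hNI : N ≤ I) : Nat.card I = Nat.card N * Nat.card (I ⊓ H : Subgroup G) := by
  rw [← Nat.card_prod]
  symm
  let f : N × (I ⊓ H : Subgroup G) → I := fun x => ⟨x.1.1 * x.2.1, I.mul_mem (hNI x.1.2) x.2.2.1⟩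
  apply Nat.card_congr (Equiv.ofBijective f ⟨?_, ?_⟩)
  · rintro ⟨⟨n, hn⟩, ⟨h, hh⟩⟩ ⟨⟨m, hm⟩, ⟨k, hk⟩⟩ hxy
    have h1 : n * h = m * k := congrArg Subtype.val hxy
    have h2 : m⁻¹ * n = k * h⁻¹ := by
      rw [inv_mul_eq_iff_eq_mul, ← mul_assoc, ← h1, mul_assoc, mul_inv_cancel, mul_one]
    have h3 : m⁻¹ * n ∈ N ⊓ H := ⟨N.mul_mem (N.inv_mem hm) hn, by
      rw [h2]; exact H.mul_mem hk.2 (H.inv_mem hh.2)⟩
    rw [hNH, Subgroup.mem_bot] at h3
    have h4 : m = n := inv_mul_eq_one.mp h3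
    have h5 : k = h := by
      rw [h3] at h2
      exact (mul_inv_eq_one.mp h2.symm)
    subst h4
    subst h5
    rfl
  · rintro ⟨i, hi⟩
    obtain ⟨n, hn, h, hh, rfl⟩ := frob_decomp hNn hNH' i
    have h1 : h ∈ I := by
      have := I.mul_mem (I.inv_mem (hNI hn)) hi
      rwa [inv_mul_cancel_left] at this
    exact ⟨(⟨n, hn⟩, ⟨h, h1, hh⟩), rfl⟩

lemma card_complement (hNn : N.Normal) (hNH : N ⊓ H = ⊥) (hNH' : N ⊔ H = ⊤) :
    Nat.card N * Nat.card H = Nat.card G := by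
  have h1 := card_of_le hNn hNH hNH' (I := ⊤) le_top
  rw [Subgroup.card_top, top_inf_eq] at h1
  exact h1.symm

end group

lemma sub_ne_bot_iff {G : Type*} [Group G] (R : Subgroup G) :
    R ≠ ⊥ ↔ ∃ h, h ∈ R ∧ h ≠ 1 := by
  rw [Ne, Subgroup.eq_bot_iff_forall]
  push Not
  rfl

section ram

variable {L : Type*} [Field L] [NumberField L] [IsGalois ℚ L]

lemma inertia_subgroup (R : Subgroup Gal(L/ℚ)) (Q : Ideal (𝓞 L)) :
    Nat.card (Q.inertia R) = Nat.card ((Q.inertia Gal(L/ℚ)) ⊓ R : Subgroup Gal(L/ℚ)) := by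
  rw [← AddSubgroup.inertia_map_subtype]
  exact (Nat.card_congr (Subgroup.equivMapOfInjective _ _ R.subtype_injective).toEquiv)

/-- ramification indices in terms of inertia groups -/
lemma ram_fix {p : ℕ} (hp : p.Prime) {Q : Ideal (𝓞 L)} (hQ : Q.IsPrime)
    (hQo : Q.LiesOver (Ideal.span {(p : ℤ)})) (R : Subgroup Gal(L/ℚ)) :
    (Q.under (𝓞 (fixF L R))).ramificationIdx ℤ *
      Nat.card ((Q.inertia Gal(L/ℚ)) ⊓ R : Subgroup Gal(L/ℚ)) = Nat.card (Q.inertia Gal(L/ℚ)) := by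
  have hmem := nat_mem_of_liesOver hQo
  have hQ0 := ne_bot_of_liesOver hp hQo
  have hmax := span_int_isMaximal hp
  have hpr : (Ideal.span {(p : ℤ)}).IsPrime := hmax.isPrime
  have hne : Ideal.span {(p : ℤ)} ≠ ⊥ := by simpa using hp.ne_zero
  have hQmax : Q.IsMaximal := hQ.isMaximal hQ0
  have hfin : Finite (ℤ ⧸ Ideal.span {(p : ℤ)}) := Ring.HasFiniteQuotients.finiteQuotient hne
  have hgal := gal_fix (L := L) R
  set P := Q.under (𝓞 (fixF L R)) with hP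
  have hPp : P.IsPrime := inferInstance
  have hPQ : Q.LiesOver P := ⟨rfl⟩
  have hmemP : (p : 𝓞 (fixF L R)) ∈ P := mem_of_under hmem _
  have hP0 : P ≠ ⊥ := by
    intro h
    rw [h, Ideal.mem_bot] at hmemP
    exact hp.ne_zero (by exact_mod_cast hmemP)
  have hPmax : P.IsMaximal := hPp.isMaximal hP0
  have hfinP : Finite (𝓞 (fixF L R) ⧸ P) := Ring.HasFiniteQuotients.finiteQuotient hP0
  have h1 := Ideal.card_inertia_eq_ramificationIdxIn (G := Gal(L/ℚ)) (Ideal.span {(p : ℤ)}) Q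
  have h2 := Ideal.card_inertia_eq_ramificationIdxIn (G := R) P Q
  rw [Ideal.ramificationIdxIn_eq_ramificationIdx (Ideal.span {(p : ℤ)}) Q Gal(L/ℚ)] at h1
  rw [Ideal.ramificationIdxIn_eq_ramificationIdx P Q R] at h2
  have h3 := Ideal.ramificationIdx_tower (R := ℤ) P Q
  rw [← inertia_subgroup, h2, h1, h3]

lemma card_inertia_eq {p : ℕ} (hp : p.Prime) {Q Q' : Ideal (𝓞 L)} (hQ : Q.IsPrime)
    (hQo : Q.LiesOver (Ideal.span {(p : ℤ)})) (hQ' : Q'.IsPrime)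
    (hQo' : Q'.LiesOver (Ideal.span {(p : ℤ)})) :
    Nat.card (Q.inertia Gal(L/ℚ)) = Nat.card (Q'.inertia Gal(L/ℚ)) := by
  have hmax := span_int_isMaximal hp
  have hpr : (Ideal.span {(p : ℤ)}).IsPrime := hmax.isPrime
  have hne : Ideal.span {(p : ℤ)} ≠ ⊥ := by simpa using hp.ne_zero
  have hfin : Finite (ℤ ⧸ Ideal.span {(p : ℤ)}) := Ring.HasFiniteQuotients.finiteQuotient hne
  rw [Ideal.card_inertia_eq_ramificationIdxIn (G := Gal(L/ℚ)) (Ideal.span {(p : ℤ)}) Q,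
    Ideal.card_inertia_eq_ramificationIdxIn (G := Gal(L/ℚ)) (Ideal.span {(p : ℤ)}) Q']

lemma finrank_fixF_mul (R : Subgroup Gal(L/ℚ)) :
    finrank ℚ (fixF L R) * Nat.card R = Nat.card Gal(L/ℚ) := by
  rw [IsGaloisGroup.card_eq_finrank R (fixF L R) L, IsGaloisGroup.card_eq_finrank Gal(L/ℚ) ℚ L]
  exact finrank_mul_finrank ℚ (fixF L R) L

/-- the fundamental identity -/
lemma sum_ef {K : Type*} [Field K] [NumberField K] {p : ℕ} (hp : p.Prime) :
    ∑ P ∈ IsDedekindDomain.primesOverFinset (Ideal.span {(p : ℤ)}) (𝓞 K),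
      P.ramificationIdx ℤ * P.inertiaDeg ℤ = finrank ℚ K := by
  have hmax := span_int_isMaximal hp
  have hne : Ideal.span {(p : ℤ)} ≠ ⊥ := by simpa using hp.ne_zero
  rw [← Ideal.sum_ramification_inertia (𝓞 K) ℚ K hne]
  apply Finset.sum_congr rfl
  intro P hP
  obtain ⟨hPp, hPo⟩ := (mem_primesOverFinset_nat hp).mp hP
  have hPM : P.IsMaximal := hPp.isMaximal (ne_bot_of_liesOver hp hPo)
  rw [Ideal.ramificationIdx'_eq_ramificationIdx _ P hne, Ideal.inertiaDeg'_eq_inertiaDeg]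

/-- every prime of the fixed field lies under a prime of `L` -/
lemma exists_above {p : ℕ} (hp : p.Prime) {K : IntermediateField ℚ L} {P : Ideal (𝓞 K)}
    (hP : P.IsPrime) (hPo : P.LiesOver (Ideal.span {(p : ℤ)})) :
    ∃ Q : Ideal (𝓞 L), Q.IsPrime ∧ Q.LiesOver (Ideal.span {(p : ℤ)}) ∧ Q.under (𝓞 K) = P := by
  have hPM : P.IsMaximal := hP.isMaximal (ne_bot_of_liesOver hp hPo)
  obtain ⟨Q, hQM, hQo⟩ := Ideal.exists_maximal_ideal_liesOver_of_isIntegral (S := 𝓞 L) P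
  exact ⟨Q, hQM.isPrime, Ideal.LiesOver.trans Q P _, hQo.over.symm⟩

omit [IsGalois ℚ L] in
lemma inertia_conj {Q : Ideal (𝓞 L)} {g i : Gal(L/ℚ)} (hg : g ∈ MulAction.stabilizer Gal(L/ℚ) Q)
    (hi : i ∈ Q.inertia Gal(L/ℚ)) : g * i * g⁻¹ ∈ Q.inertia Gal(L/ℚ) := by
  rw [AddSubgroup.mem_inertia] at hi ⊢
  intro x
  have h1 := hi (g⁻¹ • x)
  have h2 : g • Q = Q := hg
  rw [Submodule.mem_toAddSubgroup] at h1 ⊢
  have h3 : (g * i * g⁻¹) • x - x = g • (i • (g⁻¹ • x) - g⁻¹ • x) := by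
    rw [smul_sub, smul_inv_smul, mul_smul, mul_smul]
  rw [h3, ← h2]
  exact Ideal.smul_mem_pointwise_smul _ _ _ h1

/-- Task D4 -/
theorem ram_ineq {L : Type*} [Field L] [NumberField L] [IsGalois ℚ L] (N H : Subgroup Gal(L/ℚ))
    (hNn : N.Normal) (hN : (Nat.card N).Prime) (hNH : N ⊓ H = ⊥) (hNH' : N ⊔ H = ⊤)
    (hcomm : ∀ g k : Gal(L/ℚ), g * k * g⁻¹ * k⁻¹ ∈ N)
    (hfix : ∀ h ∈ H, h ≠ 1 → ∀ n ∈ N, h * n = n * h → n = 1) {p : ℕ} (hp : p.Prime) :
    (Nat.card N - 1) * (Nat.card H -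
        Nat.card H / (Ideal.span {(p : ℤ)}).ramificationIdxIn (𝓞 (fixF L N))) ≤
      Nat.card H * ∑ P ∈ IsDedekindDomain.primesOverFinset (Ideal.span {(p : ℤ)}) (𝓞 (fixF L H)),
        P.inertiaDeg ℤ * (P.ramificationIdx ℤ - 1) := by
  classical
  have hmax := span_int_isMaximal hp
  have hpr : (Ideal.span {(p : ℤ)}).IsPrime := hmax.isPrime
  have hne : Ideal.span {(p : ℤ)} ≠ ⊥ := by simpa using hp.ne_zero
  set T := IsDedekindDomain.primesOverFinset (Ideal.span {(p : ℤ)}) (𝓞 (fixF L H)) with hT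
  set e := (Ideal.span {(p : ℤ)}).ramificationIdxIn (𝓞 (fixF L N)) with he
  set l := Nat.card N with hl
  set d := Nat.card H with hd
  have hd0 : 0 < d := Nat.card_pos
  have hcard := card_complement hNn hNH hNH'
  have hK : finrank ℚ (fixF L H) = l := by
    have h1 := finrank_fixF_mul (L := L) H
    rw [← hcard] at h1
    exact Nat.eq_of_mul_eq_mul_right hd0 h1
  have hE : finrank ℚ (fixF L N) = d := by
    have h1 := finrank_fixF_mul (L := L) N
    rw [← hcard, mul_comm (Nat.card N)] at h1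
    exact Nat.eq_of_mul_eq_mul_right Nat.card_pos h1
  have hsum : ∑ P ∈ T, P.ramificationIdx ℤ * P.inertiaDeg ℤ = l := by
    rw [← hK]
    exact sum_ef hp
  have hgalE : IsGalois ℚ (fixF L N) := IsGalois.of_fixedField_normal_subgroup N
  -- choose primes above
  have hch : ∀ P ∈ T, ∃ Q : Ideal (𝓞 L), Q.IsPrime ∧ Q.LiesOver (Ideal.span {(p : ℤ)}) ∧
      Q.under (𝓞 (fixF L H)) = P := by
    intro P hP
    obtain ⟨hPp, hPo⟩ := (mem_primesOverFinset_nat hp).mp hP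
    exact exists_above hp hPp hPo
  -- the ramification index in E
  have heE : ∀ Q : Ideal (𝓞 L), Q.IsPrime → Q.LiesOver (Ideal.span {(p : ℤ)}) →
      e * Nat.card ((Q.inertia Gal(L/ℚ)) ⊓ N : Subgroup Gal(L/ℚ)) =
        Nat.card (Q.inertia Gal(L/ℚ)) := by
    intro Q hQ hQo
    rw [← ram_fix hp hQ hQo N]
    congr 1
    have hmemP : (p : 𝓞 (fixF L N)) ∈ Q.under (𝓞 (fixF L N)) :=
      mem_of_under (nat_mem_of_liesOver hQo) _
    have hPo : (Q.under (𝓞 (fixF L N))).LiesOver (Ideal.span {(p : ℤ)}) :=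
      liesOver_of_mem inferInstance hp hmemP
    exact Ideal.ramificationIdxIn_eq_ramificationIdx (Ideal.span {(p : ℤ)})
      (Q.under (𝓞 (fixF L N))) Gal((fixF L N)/ℚ)
  have he0 : 0 < e := by
    obtain ⟨P, hP, hP0, hmem⟩ := exists_prime_above (K := L) hp
    have h1 := heE P hP (liesOver_of_mem hP hp hmem)
    have h2 : 0 < Nat.card (P.inertia Gal(L/ℚ)) := Nat.card_pos
    exact Nat.pos_of_mul_pos_right (by rw [h1]; exact h2)
  have hed : e ∣ d := by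
    have h3 := Ideal.ncard_primesOver_mul_ramificationIdxIn_mul_inertiaDegIn (Ideal.span {(p : ℤ)})
      (𝓞 (fixF L N)) Gal((fixF L N)/ℚ)
    rw [IsGalois.card_aut_eq_finrank, hE] at h3
    rw [← h3]
    exact Dvd.dvd.mul_left (Dvd.intro _ rfl) _
  obtain ⟨d', hd'⟩ := hed
  have hdiv : d / e = d' := by
    rw [hd', Nat.mul_div_cancel_left _ he0]
  rw [hdiv]
  obtain ⟨Q0, hQ0p, hQ00, hQ0mem⟩ := exists_prime_above (K := L) hp
  have hQ0o := liesOver_of_mem hQ0p hp hQ0mem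
  set m := Nat.card ((Q0.inertia Gal(L/ℚ)) ⊓ N : Subgroup Gal(L/ℚ)) with hm
  have hmQ : ∀ Q : Ideal (𝓞 L), Q.IsPrime → Q.LiesOver (Ideal.span {(p : ℤ)}) →
      Nat.card ((Q.inertia Gal(L/ℚ)) ⊓ N : Subgroup Gal(L/ℚ)) = m := by
    intro Q hQ hQo
    have h1 := heE Q hQ hQo
    rw [card_inertia_eq hp hQ hQo hQ0p hQ0o, ← heE Q0 hQ0p hQ0o] at h1
    exact Nat.eq_of_mul_eq_mul_left he0 h1
  have hml : m ∣ l := by
    rw [hm, hl]
    exact Subgroup.card_dvd_of_le inf_le_right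
  rcases (Nat.dvd_prime hN).mp hml with hm1 | hml'
  · -- the case of trivial intersection
    have hIN : ∀ Q : Ideal (𝓞 L), Q.IsPrime → Q.LiesOver (Ideal.span {(p : ℤ)}) →
        (Q.inertia Gal(L/ℚ)) ⊓ N = ⊥ := by
      intro Q hQ hQo
      exact Subgroup.eq_bot_of_card_eq _ (by rw [hmQ Q hQ hQo, hm1])
    have hIe : ∀ Q : Ideal (𝓞 L), Q.IsPrime → Q.LiesOver (Ideal.span {(p : ℤ)}) →
        Nat.card (Q.inertia Gal(L/ℚ)) = e := by
      intro Q hQ hQo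
      rw [← heE Q hQ hQo, hmQ Q hQ hQo, hm1, mul_one]
    let Sp : Ideal (𝓞 (fixF L H)) → Prop := fun P => ∃ Q : Ideal (𝓞 L), Q.IsPrime ∧
      Q.LiesOver (Ideal.span {(p : ℤ)}) ∧ Q.under (𝓞 (fixF L H)) = P ∧
      MulAction.stabilizer Gal(L/ℚ) Q ≤ H ∧ (Q.inertia Gal(L/ℚ)) ⊓ H ≠ ⊥
    have hterm : ∀ P ∈ T, e * (P.inertiaDeg ℤ * (P.ramificationIdx ℤ - 1)) +
        (e - 1) * (if Sp P then 1 else 0) = (e - 1) * (P.ramificationIdx ℤ * P.inertiaDeg ℤ) := by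
      intro P hP
      obtain ⟨Q, hQ, hQo, hQP⟩ := hch P hP
      by_cases hIH : (Q.inertia Gal(L/ℚ)) ⊓ H = ⊥
      · have h1 := ram_fix hp hQ hQo H
        rw [hIH, Subgroup.card_bot, mul_one, hIe Q hQ hQo, hQP] at h1
        have h2 : ¬ Sp P := by
          rintro ⟨Q', hQ', hQo', hQP', hst, hne'⟩
          have h3 := ram_fix hp hQ' hQo' H
          rw [hIe Q' hQ' hQo', hQP', h1] at h3
          have h4 : Nat.card ((Q'.inertia Gal(L/ℚ)) ⊓ H : Subgroup Gal(L/ℚ)) = 1 := by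
            have h5 : e * Nat.card ((Q'.inertia Gal(L/ℚ)) ⊓ H : Subgroup Gal(L/ℚ)) = e * 1 := by
              rw [h3, mul_one]
            exact Nat.eq_of_mul_eq_mul_left he0 h5
          exact hne' (Subgroup.eq_bot_of_card_eq _ h4)
        rw [if_neg h2, h1]
        ring
      · obtain ⟨h, hhI, hh1⟩ := (sub_ne_bot_iff _).mp hIH
        have hst : MulAction.stabilizer Gal(L/ℚ) Q ≤ H :=
          frob_stab_le hNn hNH hNH' hcomm hfix (hIN Q hQ hQo)
            (fun g hg i hi => inertia_conj hg hi)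
            hhI.2 hhI.1 hh1
        have h1 := under_deg_one hp hQ (ne_bot_of_liesOver hp hQo) (nat_mem_of_liesOver hQo) hst
        rw [hQP] at h1
        have h2 : Sp P := ⟨Q, hQ, hQo, hQP, hst, hIH⟩
        rw [if_pos h2, h1.1, h1.2]
        simp
    have hone : ∑ P ∈ T, (if Sp P then 1 else 0) ≤ 1 := by
      rw [← Finset.card_filter, Finset.card_le_one]
      intro P1 hP1 P2 hP2
      rw [mem_filter] at hP1 hP2
      obtain ⟨Q1, hQ1, hQo1, hQP1, hst1, hne1⟩ := hP1.2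
      obtain ⟨Q2, hQ2, hQo2, hQP2, hst2, hne2⟩ := hP2.2
      obtain ⟨g, hg⟩ := Ideal.exists_smul_eq_of_isGaloisGroup (Ideal.span {(p : ℤ)}) Q1 Q2
        Gal(L/ℚ)
      obtain ⟨h, hhI, hh1⟩ := (sub_ne_bot_iff _).mp hne1
      have h1 : g * h * g⁻¹ ∈ MulAction.stabilizer Gal(L/ℚ) Q2 := by
        have h2 : h • Q1 = Q1 := Ideal.inertia_le_stabilizer (M := Gal(L/ℚ)) Q1 hhI.1
        rw [MulAction.mem_stabilizer_iff, ← hg, ← mul_smul, inv_mul_cancel_right, mul_smul, h2]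
      have h2 : g ∈ H := frob_malnormal hNn hNH hNH' hcomm hfix hhI.2 hh1 (hst2 h1)
      have hgal := gal_fix (L := L) H
      rw [← hQP1, ← hQP2, ← hg]
      have h3 : g • Q1 = (⟨g, h2⟩ : H) • Q1 := rfl
      rw [h3]
      exact (Ideal.under_smul (𝓞 (fixF L H)) Q1 (⟨g, h2⟩ : H)).symm
    have hfin1 : e * (∑ P ∈ T, P.inertiaDeg ℤ * (P.ramificationIdx ℤ - 1)) +
        (e - 1) * (∑ P ∈ T, (if Sp P then 1 else 0)) = (e - 1) * l := by
      rw [← hsum, Finset.mul_sum, Finset.mul_sum, Finset.mul_sum, ← Finset.sum_add_distrib]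
      exact Finset.sum_congr rfl hterm
    have hfin2 : (e - 1) * (l - 1) ≤
        e * (∑ P ∈ T, P.inertiaDeg ℤ * (P.ramificationIdx ℤ - 1)) := by
      have h1 : (e - 1) * (∑ P ∈ T, (if Sp P then 1 else 0)) ≤ (e - 1) * 1 :=
        Nat.mul_le_mul_left _ hone
      have h2 : (e - 1) * (l - 1) = (e - 1) * l - (e - 1) * 1 := Nat.mul_sub _ _ _
      omega
    have h3 : d - d' = d' * (e - 1) := by
      rw [hd', Nat.mul_sub, mul_one, mul_comm]
    calc (l - 1) * (d - d') = d' * ((e - 1) * (l - 1)) := by rw [h3]; ring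
      _ ≤ d' * (e * (∑ P ∈ T, P.inertiaDeg ℤ * (P.ramificationIdx ℤ - 1))) :=
        Nat.mul_le_mul_left _ hfin2
      _ = d * (∑ P ∈ T, P.inertiaDeg ℤ * (P.ramificationIdx ℤ - 1)) := by
        rw [hd']; ring
  · -- the totally ramified case
    have hram : ∀ P ∈ T, P.ramificationIdx ℤ = l := by
      intro P hP
      obtain ⟨Q, hQ, hQo, hQP⟩ := hch P hP
      have h1 : N ≤ Q.inertia Gal(L/ℚ) := by
        have h2 : (Q.inertia Gal(L/ℚ)) ⊓ N = N := by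
          apply Subgroup.eq_of_le_of_card_ge inf_le_right
          rw [hmQ Q hQ hQo, hml']
        exact inf_eq_right.mp h2
      have h2 := ram_fix hp hQ hQo H
      rw [card_of_le hNn hNH hNH' h1, hQP] at h2
      exact Nat.eq_of_mul_eq_mul_right Nat.card_pos h2
    have h1 : ∑ P ∈ T, P.ramificationIdx ℤ * P.inertiaDeg ℤ = l * ∑ P ∈ T, P.inertiaDeg ℤ := by
      rw [Finset.mul_sum]
      exact Finset.sum_congr rfl fun P hP => by rw [hram P hP]
    rw [hsum] at h1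
    have h2 : ∑ P ∈ T, P.inertiaDeg ℤ = 1 := by
      have : l * 1 = l * ∑ P ∈ T, P.inertiaDeg ℤ := by rw [mul_one]; exact h1
      exact (Nat.eq_of_mul_eq_mul_left hN.pos this).symm
    have h3 : ∑ P ∈ T, P.inertiaDeg ℤ * (P.ramificationIdx ℤ - 1) = l - 1 := by
      rw [Finset.sum_congr rfl fun P hP => by rw [hram P hP], ← Finset.sum_mul, h2, one_mul]
    rw [h3, mul_comm]
    exact Nat.mul_le_mul_right _ (Nat.sub_le _ _)

end ram

end Pool.Agent.Lib.MP_695920_nt.Solv
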