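import Mathlib

set_option autoImplicit false

open Finset NumberField Module IsDedekindDomain
open scoped nonZeroDivisors Pointwise

namespace Pool.Agent.Lib.MP_695920_nt.Solv

/-- The different of an isomorphic copy. -/
lemma different_le_map {B C : Type*} [CommRing B] [CommRing C] [IsDedekindDomain B]
    [IsDedekindDomain C] [Module.Finite ℤ B] [Module.Finite ℤ C] [CharZero B] [CharZero C]
    (σ : B ≃+* C) :
    differentIdeal ℤ C ≤ (differentIdeal ℤ B).map (σ : B →+* C) := by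
  let _ : Algebra B C := (σ : B →+* C).toAlgebra
  have h1 : algebraMap B C = (σ : B →+* C) := rfl
  have : IsScalarTower ℤ B C := by
    refine IsScalarTower.of_algebraMap_eq fun x => ?_
    simp
  have : Module.Finite B C := Module.Finite.of_restrictScalars_finite ℤ B C
  have : FaithfulSMul B C := (faithfulSMul_iff_algebraMap_injective B C).mpr σ.injective
  have : IsTorsionFree B C := inferInstance
  have h2 := differentIdeal_eq_differentIdeal_mul_differentIdeal ℤ B C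
  rw [h2, ← h1]
  exact Ideal.mul_le_right (I := differentIdeal B C)
    (J := (differentIdeal ℤ B).map (algebraMap B C))

theorem span_isMaximal {p : ℕ} (hp : p.Prime) : (Ideal.span {(p : ℤ)}).IsMaximal := by
  have hpZ : Prime (p : ℤ) := Nat.prime_iff_prime_int.mp hp
  exact ((Ideal.span_singleton_prime hpZ.ne_zero).mpr hpZ).isMaximal_of_ne_bot
    (by simpa using hpZ.ne_zero)

/-- Task D1: the exponent of the different of a Galois extension of `ℚ` -/
theorem diff_exp {E : Type*} [Field E] [NumberField E] [IsGalois ℚ E] {p : ℕ} (hp : p.Prime)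
    {P : Ideal (𝓞 E)} (hP : P.IsPrime) (hP0 : P ≠ ⊥) (hmem : (p : 𝓞 E) ∈ P) {k : ℕ}
    (hk : ¬ p ^ k ∣ finrank ℚ E) :
    ¬ P ^ (P.ramificationIdx ℤ * k) ∣ differentIdeal ℤ (𝓞 E) := by
  intro hdvd
  have hpZ : Prime (p : ℤ) := Nat.prime_iff_prime_int.mp hp
  have hmax : (Ideal.span {(p : ℤ)}).IsMaximal := span_isMaximal hp
  have hLO : P.LiesOver (Ideal.span {(p : ℤ)}) :=
    (Ideal.liesOver_span_iff hP.ne_top hpZ).mpr (by simpa using hmem)
  have hq0 : Ideal.span {(p : ℤ)} ≠ 0 := by simpa using hpZ.ne_zero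
  have hall : ∀ Q ∈ (Ideal.span {(p : ℤ)}).primesOver (𝓞 E),
      Q ^ (Q.ramificationIdx ℤ * k) ∣ differentIdeal ℤ (𝓞 E) := by
    intro Q hQ
    have := hQ.1
    have := hQ.2
    obtain ⟨σ, rfl⟩ := Ideal.exists_smul_eq_of_isGaloisGroup (Ideal.span {(p : ℤ)}) P Q Gal(E/ℚ)
    rw [Ideal.ramificationIdx_smul, ← smul_pow']
    obtain ⟨J, hJ⟩ := hdvd
    have h1 : σ • P ^ (P.ramificationIdx ℤ * k) ∣ σ • differentIdeal ℤ (𝓞 E) := by
      rw [hJ, smul_mul']
      exact dvd_mul_right _ _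
    refine h1.trans ?_
    rw [Ideal.dvd_iff_le]
    exact different_le_map (MulSemiringAction.toRingEquiv Gal(E/ℚ) (𝓞 E) σ)
  have hprod : Ideal.map (algebraMap ℤ (𝓞 E)) (Ideal.span {((p : ℤ) ^ k)}) ∣
      differentIdeal ℤ (𝓞 E) := by
    rw [← Ideal.span_singleton_pow, Ideal.map_pow, Ideal.map_algebraMap_eq_finsetProd_pow hq0,
      ← Finset.prod_pow]
    apply Finset.prod_dvd_of_isRelPrime
    · intro Q hQ Q' hQ' hne
      simp only [Set.coe_toFinset] at hQ hQ'
      have hQ0 := Ideal.ne_bot_of_mem_primesOver hq0 hQ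
      have hQ0' := Ideal.ne_bot_of_mem_primesOver hq0 hQ'
      have hm : Q.IsMaximal := hQ.1.isMaximal hQ0
      have hm' : Q'.IsMaximal := hQ'.1.isMaximal hQ0'
      apply IsCoprime.isRelPrime
      apply IsCoprime.pow
      apply IsCoprime.pow
      exact Ideal.isCoprime_of_isMaximal hne
    · intro Q hQ
      rw [← pow_mul]
      exact hall Q (by simpa using hQ)
  refine not_dvd_differentIdeal_of_intTrace_not_mem ℤ
    (Ideal.map (algebraMap ℤ (𝓞 E)) (Ideal.span {((p : ℤ) ^ k)})) ⊤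
    (p := Ideal.span {((p : ℤ) ^ k)}) (by simp) 1 trivial ?_ hprod
  rw [Algebra.intTrace_eq_trace, ← map_one (algebraMap ℤ (𝓞 E)), Algebra.trace_algebraMap,
    RingOfIntegers.rank, Ideal.mem_span_singleton]
  intro h
  apply hk
  have : ((p ^ k : ℕ) : ℤ) ∣ ((finrank ℚ E : ℕ) : ℤ) := by simpa using h
  exact_mod_cast this


/-- Divisibility of nonzero ideals can be tested on prime powers. -/
theorem dvd_of_forall_prime_pow {R : Type*} [CommRing R] [IsDedekindDomain R] {I J : Ideal R}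
    (hI : I ≠ ⊥) (hJ : J ≠ ⊥)
    (h : ∀ P : Ideal R, P.IsPrime → P ≠ ⊥ → ∀ m : ℕ, P ^ m ∣ I → P ^ m ∣ J) : I ∣ J := by
  classical
  rw [UniqueFactorizationMonoid.dvd_iff_normalizedFactors_le_normalizedFactors hI hJ,
    Multiset.le_iff_count]
  intro P
  by_cases hP : P ∈ UniqueFactorizationMonoid.normalizedFactors I
  · have hirr := UniqueFactorizationMonoid.irreducible_of_normalized_factor P hP
    have hprime : Prime P := hirr.prime
    have hP0 : P ≠ ⊥ := hprime.ne_zero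
    have hPp : P.IsPrime := Ideal.isPrime_of_prime hprime
    have h1 : P ^ (Multiset.count P (UniqueFactorizationMonoid.normalizedFactors I)) ∣ I := by
      rw [pow_dvd_iff_le_emultiplicity,
        UniqueFactorizationMonoid.emultiplicity_eq_count_normalizedFactors hirr hI, normalize_eq]
    have h2 := h P hPp hP0 _ h1
    rw [pow_dvd_iff_le_emultiplicity,
      UniqueFactorizationMonoid.emultiplicity_eq_count_normalizedFactors hirr hJ,
      normalize_eq] at h2
    exact_mod_cast h2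
  · rw [Multiset.count_eq_zero_of_notMem hP]
    exact Nat.zero_le _

/-- the correction ideal -/
noncomputable def corr (E : Type*) [Field E] [NumberField E] (S : Finset ℕ) : Ideal (𝓞 E) :=
  ∏ p ∈ S, ∏ P ∈ IsDedekindDomain.primesOverFinset (Ideal.span {(p : ℤ)}) (𝓞 E),
    P ^ (P.ramificationIdx ℤ - 1)

theorem corr_ne_bot {E : Type*} [Field E] [NumberField E] (S : Finset ℕ)
    (hSp : ∀ p ∈ S, p.Prime) : corr E S ≠ ⊥ := by
  rw [corr, ← Ideal.zero_eq_bot, Finset.prod_ne_zero_iff]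
  intro p hp
  have hpZ : Prime (p : ℤ) := Nat.prime_iff_prime_int.mp (hSp p hp)
  have hmax : (Ideal.span {(p : ℤ)}).IsMaximal := span_isMaximal (hSp p hp)
  have hq0 : Ideal.span {(p : ℤ)} ≠ ⊥ := by simpa using hpZ.ne_zero
  rw [Finset.prod_ne_zero_iff]
  intro P hP
  rw [IsDedekindDomain.mem_primesOverFinset_iff hq0] at hP
  exact pow_ne_zero _ (Ideal.ne_bot_of_mem_primesOver hq0 hP)

theorem pow_ram_dvd {E : Type*} [Field E] [NumberField E] {p : ℕ} (hp : p.Prime)
    {P : Ideal (𝓞 E)} (hP : P ∈ (Ideal.span {(p : ℤ)}).primesOver (𝓞 E)) :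
    P ^ (P.ramificationIdx ℤ) ∣ Ideal.span {(p : 𝓞 E)} := by
  have hpZ : Prime (p : ℤ) := Nat.prime_iff_prime_int.mp hp
  have hmax : (Ideal.span {(p : ℤ)}).IsMaximal := span_isMaximal hp
  have hq0 : Ideal.span {(p : ℤ)} ≠ 0 := by simpa using hpZ.ne_zero
  have h1 := Ideal.map_algebraMap_eq_finsetProd_pow (S := ℤ) (R := 𝓞 E) hq0
  rw [Ideal.map_span, Set.image_singleton] at h1
  have h2 : algebraMap ℤ (𝓞 E) (p : ℤ) = (p : 𝓞 E) := by simp
  rw [h2] at h1
  rw [h1]
  exact Finset.dvd_prod_of_mem (fun P : Ideal (𝓞 E) => P ^ P.ramificationIdx ℤ)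
    (Set.mem_toFinset.mpr hP)

theorem different_dvd {E : Type*} [Field E] [NumberField E] [IsGalois ℚ E] (S : Finset ℕ)
    (hS : ∀ p, p.Prime → p ∣ (discr E).natAbs → p ∈ S) (hSp : ∀ p ∈ S, p.Prime) :
    differentIdeal ℤ (𝓞 E) ∣ Ideal.span {((finrank ℚ E : ℕ) : 𝓞 E)} * corr E S := by
  have hn0 : finrank ℚ E ≠ 0 := finrank_pos.ne'
  have hn0' : Ideal.span {((finrank ℚ E : ℕ) : 𝓞 E)} ≠ ⊥ := by
    simpa using hn0
  apply dvd_of_forall_prime_pow (differentIdeal_ne_bot)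
  · exact mul_ne_zero hn0' (corr_ne_bot S hSp)
  intro P hP hP0 m hm
  rcases Nat.eq_zero_or_pos m with rfl | hm0
  · simp
  have : NeZero P := ⟨hP0⟩
  obtain ⟨p, hp, hmem⟩ : ∃ p : ℕ, p.Prime ∧ (p : 𝓞 E) ∈ P := by
    refine ⟨_, Nat.absNorm_under_prime P, ?_⟩
    have := Int.absNorm_under_mem P
    simpa using this
  have hpZ : Prime (p : ℤ) := Nat.prime_iff_prime_int.mp hp
  have hmax : (Ideal.span {(p : ℤ)}).IsMaximal := span_isMaximal hp
  have hLO : P.LiesOver (Ideal.span {(p : ℤ)}) :=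
    (Ideal.liesOver_span_iff hP.ne_top hpZ).mpr (by simpa using hmem)
  have hq0 : Ideal.span {(p : ℤ)} ≠ ⊥ := by simpa using hpZ.ne_zero
  have hPover : P ∈ (Ideal.span {(p : ℤ)}).primesOver (𝓞 E) := ⟨hP, hLO⟩
  have hPD : P ∣ differentIdeal ℤ (𝓞 E) := (dvd_pow_self P hm0.ne').trans hm
  -- `p` divides the discriminant
  have hpS : p ∈ S := by
    apply hS p hp
    have h1 := Ideal.absNorm_dvd_absNorm_of_le (Ideal.dvd_iff_le.mp hPD)
    rw [absNorm_differentIdeal E, ← Ideal.natAbs_pow_inertiaDeg (p : ℤ) P] at h1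
    exact (dvd_pow_self _ (Ideal.inertiaDeg_pos ..).ne').trans (by simpa using h1)
  -- exponent bound
  set e := P.ramificationIdx ℤ with he
  set v := padicValNat p (finrank ℚ E) with hv
  have hk : ¬ p ^ (v + 1) ∣ finrank ℚ E := by
    have : Fact p.Prime := ⟨hp⟩
    exact pow_succ_padicValNat_not_dvd hn0
  have h3 := diff_exp hp hP hP0 hmem hk
  have hlt : m < e * (v + 1) := by
    by_contra hle
    exact h3 ((pow_dvd_pow P (not_lt.mp hle)).trans hm)
  have he0 : 0 < e := Nat.pos_of_ne_zero (by rintro h; simp [h] at hlt)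
  have hle : m ≤ e * v + (e - 1) := by
    rw [mul_add, mul_one] at hlt
    omega
  refine (pow_dvd_pow P hle).trans ?_
  rw [pow_add]
  apply mul_dvd_mul
  · rw [pow_mul]
    refine (pow_dvd_pow_of_dvd (pow_ram_dvd hp hPover) v).trans ?_
    rw [Ideal.span_singleton_pow, Ideal.dvd_iff_le, Ideal.span_singleton_le_span_singleton]
    have : p ^ v ∣ finrank ℚ E := pow_padicValNat_dvd
    exact_mod_cast (Nat.cast_dvd_cast (α := 𝓞 E) this)
  · rw [corr]
    refine dvd_trans ?_ (Finset.dvd_prod_of_mem _ hpS)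
    exact Finset.dvd_prod_of_mem (fun P : Ideal (𝓞 E) => P ^ (P.ramificationIdx ℤ - 1))
      ((IsDedekindDomain.mem_primesOverFinset_iff hq0 _).mpr hPover)

theorem absNorm_corr {E : Type*} [Field E] [NumberField E] [IsGalois ℚ E] (S : Finset ℕ)
    (hSp : ∀ p ∈ S, p.Prime) :
    Ideal.absNorm (corr E S) = ∏ p ∈ S,
      p ^ (finrank ℚ E - finrank ℚ E / (Ideal.span {(p : ℤ)}).ramificationIdxIn (𝓞 E)) := by
  rw [corr, map_prod]
  refine Finset.prod_congr rfl fun p hpS => ?_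
  have hp := hSp p hpS
  have hpZ : Prime (p : ℤ) := Nat.prime_iff_prime_int.mp hp
  have hmax : (Ideal.span {(p : ℤ)}).IsMaximal := span_isMaximal hp
  have hq0 : Ideal.span {(p : ℤ)} ≠ ⊥ := by simpa using hpZ.ne_zero
  set q : Ideal ℤ := Ideal.span {(p : ℤ)} with hq
  have h1 : ∀ P ∈ IsDedekindDomain.primesOverFinset q (𝓞 E),
      Ideal.absNorm (P ^ (P.ramificationIdx ℤ - 1)) =
        p ^ (q.inertiaDegIn (𝓞 E) * (q.ramificationIdxIn (𝓞 E) - 1)) := by
    intro P hP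
    rw [IsDedekindDomain.mem_primesOverFinset_iff hq0] at hP
    have := hP.1
    have := hP.2
    rw [map_pow, ← Ideal.natAbs_pow_inertiaDeg (p : ℤ) P, Int.natAbs_natCast, ← pow_mul,
      Ideal.inertiaDegIn_eq_inertiaDeg q P Gal(E/ℚ),
      Ideal.ramificationIdxIn_eq_ramificationIdx q P Gal(E/ℚ)]
  rw [map_prod, Finset.prod_congr rfl h1, Finset.prod_const, ← pow_mul]
  congr 1
  have h2 := Ideal.ncard_primesOver_mul_ramificationIdxIn_mul_inertiaDegIn q (𝓞 E) Gal(E/ℚ)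
  rw [IsGalois.card_aut_eq_finrank] at h2
  have h3 : (IsDedekindDomain.primesOverFinset q (𝓞 E)).card = (q.primesOver (𝓞 E)).ncard := by
    rw [← IsDedekindDomain.coe_primesOverFinset hq0, Set.ncard_coe_finset]
  rw [h3]
  have he0 : q.ramificationIdxIn (𝓞 E) ≠ 0 := Ideal.ramificationIdxIn_ne_zero Gal(E/ℚ)
  have h4 : finrank ℚ E / q.ramificationIdxIn (𝓞 E) =
      (q.primesOver (𝓞 E)).ncard * q.inertiaDegIn (𝓞 E) := by
    rw [← h2]
    apply Nat.div_eq_of_eq_mul_left (Nat.pos_of_ne_zero he0)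
    ring
  rw [h4, ← h2]
  obtain ⟨e, he⟩ : ∃ e, q.ramificationIdxIn (𝓞 E) = e + 1 := Nat.exists_eq_succ_of_ne_zero he0
  rw [he, Nat.add_sub_cancel]
  have : (q.primesOver (𝓞 E)).ncard * ((e + 1) * q.inertiaDegIn (𝓞 E)) =
    q.inertiaDegIn (𝓞 E) * e * (q.primesOver (𝓞 E)).ncard
      + (q.primesOver (𝓞 E)).ncard * q.inertiaDegIn (𝓞 E) := by ring
  omega

/-- Task D2 -/
theorem discr_dvd_galois {E : Type*} [Field E] [NumberField E] [IsGalois ℚ E] (S : Finset ℕ)
    (hS : ∀ p, p.Prime → p ∣ (discr E).natAbs → p ∈ S) (hSp : ∀ p ∈ S, p.Prime) :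
    (discr E).natAbs ∣ (finrank ℚ E) ^ (finrank ℚ E) * ∏ p ∈ S,
      p ^ (finrank ℚ E - finrank ℚ E / (Ideal.span {(p : ℤ)}).ramificationIdxIn (𝓞 E)) := by
  have h1 := Ideal.absNorm_dvd_absNorm_of_le (Ideal.dvd_iff_le.mp (different_dvd (E := E) S hS hSp))
  rwa [absNorm_differentIdeal E, map_mul, Ideal.absNorm_span_natCast, RingOfIntegers.rank,
    absNorm_corr S hSp] at h1

end Pool.Agent.Lib.MP_695920_nt.Solv
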