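import Mathlib
import Pool.Agent.Lib.MP_695920_nt.Solv.DiscGal
import Pool.Agent.Lib.MP_695920_nt.Solv.DiscRam

set_option autoImplicit false

open Finset NumberField Module IsDedekindDomain
open scoped nonZeroDivisors Pointwise IntermediateField

namespace Pool.Agent.Lib.MP_695920_nt.Solv

lemma finrank_fixF_index {L : Type*} [Field L] [NumberField L] [IsGalois ℚ L]
    (N : Subgroup Gal(L/ℚ)) : finrank ℚ (fixF L N) = N.index := by
  have h1 := finrank_mul_finrank ℚ (fixF L N) L
  have h2 : finrank (fixF L N) L = Nat.card N :=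
    (IsGaloisGroup.card_eq_finrank N (fixF L N) L).symm
  have h3 : Nat.card Gal(L/ℚ) = finrank ℚ L := IsGalois.card_aut_eq_finrank ℚ L
  have h4 := N.index_mul_card
  rw [h2, ← h3, ← h4] at h1
  exact Nat.eq_of_mul_eq_mul_right Nat.card_pos h1

/-- the discriminant of the cyclic resolvent -/
theorem disc_ineq {L : Type*} [Field L] [NumberField L] [IsGalois ℚ L] (N H : Subgroup Gal(L/ℚ))
    (hNn : N.Normal) (hN : (Nat.card N).Prime) (hNH : N ⊓ H = ⊥) (hNH' : N ⊔ H = ⊤)
    (hidx : N.index = Nat.card H)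
    (hcomm : ∀ g k : Gal(L/ℚ), g * k * g⁻¹ * k⁻¹ ∈ N)
    (hfix : ∀ h ∈ H, h ≠ 1 → ∀ n ∈ N, h * n = n * h → n = 1) :
    (discr (fixF L N)).natAbs ^ (Nat.card N - 1) ≤
      Nat.card H ^ (Nat.card H * (Nat.card N - 1)) * (discr (fixF L H)).natAbs ^ Nat.card H := by
  classical
  have hgal : IsGalois ℚ (fixF L N) := IsGalois.of_fixedField_normal_subgroup N
  set S := (discr (fixF L N)).natAbs.primeFactors with hS
  have hSp : ∀ p ∈ S, p.Prime := fun p hp => Nat.prime_of_mem_primeFactors hp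
  have hD0 : (discr (fixF L N)).natAbs ≠ 0 := Int.natAbs_ne_zero.mpr (discr_ne_zero _)
  have h1 := discr_dvd_galois (E := fixF L N) S (fun p hp hpd =>
    Nat.mem_primeFactors.mpr ⟨hp, hpd, hD0⟩) hSp
  have h2 := prod_dvd_discr (K := fixF L H) S hSp
  have hfr : finrank ℚ (fixF L N) = Nat.card H := by rw [finrank_fixF_index, hidx]
  rw [hfr] at h1
  have hH0 : 0 < Nat.card H := Nat.card_pos
  have hDK0 : 0 < (discr (fixF L H)).natAbs :=
    Nat.pos_of_ne_zero (Int.natAbs_ne_zero.mpr (discr_ne_zero _))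
  have h3 := Nat.le_of_dvd (by
    apply Nat.mul_pos (pow_pos hH0 _)
    exact Finset.prod_pos (fun p hp => pow_pos (hSp p hp).pos _)) h1
  have h4 := Nat.le_of_dvd hDK0 h2
  calc (discr (fixF L N)).natAbs ^ (Nat.card N - 1)
      ≤ (Nat.card H ^ Nat.card H * ∏ p ∈ S,
          p ^ (Nat.card H - Nat.card H /
            (Ideal.span {(p : ℤ)}).ramificationIdxIn (𝓞 (fixF L N)))) ^ (Nat.card N - 1) :=
        Nat.pow_le_pow_left h3 _
    _ = Nat.card H ^ (Nat.card H * (Nat.card N - 1)) * ∏ p ∈ S,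
          p ^ ((Nat.card N - 1) * (Nat.card H - Nat.card H /
            (Ideal.span {(p : ℤ)}).ramificationIdxIn (𝓞 (fixF L N)))) := by
        rw [mul_pow, ← pow_mul, ← Finset.prod_pow]
        congr 1
        apply Finset.prod_congr rfl
        intro p _
        rw [← pow_mul, mul_comm]
    _ ≤ Nat.card H ^ (Nat.card H * (Nat.card N - 1)) * ∏ p ∈ S,
          p ^ (Nat.card H * ∑ P ∈ IsDedekindDomain.primesOverFinset (Ideal.span {(p : ℤ)})
            (𝓞 (fixF L H)), P.inertiaDeg ℤ * (P.ramificationIdx ℤ - 1)) := by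
        apply Nat.mul_le_mul_left
        apply Finset.prod_le_prod'
        intro p hp
        exact Nat.pow_le_pow_right (hSp p hp).pos
          (ram_ineq N H hNn hN hNH hNH' hcomm hfix (hSp p hp))
    _ = Nat.card H ^ (Nat.card H * (Nat.card N - 1)) * (∏ p ∈ S,
          p ^ (∑ P ∈ IsDedekindDomain.primesOverFinset (Ideal.span {(p : ℤ)})
            (𝓞 (fixF L H)), P.inertiaDeg ℤ * (P.ramificationIdx ℤ - 1))) ^ Nat.card H := by
        congr 1
        rw [← Finset.prod_pow]
        apply Finset.prod_congr rfl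
        intro p _
        rw [← pow_mul, mul_comm]
    _ ≤ _ := Nat.mul_le_mul_left _ (Nat.pow_le_pow_left h4 _)

end Pool.Agent.Lib.MP_695920_nt.Solv
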