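import Mathlib

set_option autoImplicit false

open Finset Module
open scoped Pointwise

namespace Pool.Agent.Lib.MP_695920_nt.Solv

section
variable {p : ℕ} [Fact p.Prime] {V : Type*} [AddCommGroup V] [Module (ZMod p) V] [Finite V]

omit [Finite V] in
theorem LB_u_pow (s : Module.End (ZMod p) V) (hs : s ^ p = 1) : (s - 1) ^ p = 0 := by
  have h : ((Polynomial.X : Polynomial (ZMod p)) - 1) ^ p = Polynomial.X ^ p - 1 := by
    rw [sub_pow_char]; simp
  have h2 := congrArg (Polynomial.aeval s) h
  simp only [map_pow, map_sub, Polynomial.aeval_X, map_one, hs, sub_self] at h2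
  exact h2

omit [Finite V] in
theorem LB_t_u (s t : Module.End (ZMod p) V) (c : ℕ) (hst : t * s = s ^ c * t) (i : ℕ) :
    t * (s - 1) ^ i = (∑ j ∈ range c, s ^ j) ^ i * (s - 1) ^ i * t := by
  have hcomm : Commute (∑ j ∈ range c, s ^ j) (s - 1) := by
    apply Commute.sum_left
    intro j _
    exact ((Commute.refl s).pow_left j).sub_right (Commute.one_right _)
  induction i with
  | zero => simp
  | succ i ih =>
    have h1 : t * (s - 1) = (∑ j ∈ range c, s ^ j) * (s - 1) * t := by
      rw [geom_sum_mul, mul_sub, sub_mul, hst, mul_one, one_mul]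
    rw [pow_succ (s - 1), ← mul_assoc, ih, mul_assoc _ t, h1]
    rw [← hcomm.mul_pow, ← pow_succ (s - 1), ← hcomm.mul_pow, pow_succ]
    simp only [mul_assoc]

omit [Finite V] in
theorem LB_w (s : Module.End (ZMod p) V) (c : ℕ) (y : V) (hy : s y = y) :
    (∑ j ∈ range c, s ^ j) y = (c : ZMod p) • y := by
  have h : ∀ j : ℕ, (s ^ j) y = y := by
    intro j
    induction j with
    | zero => simp
    | succ j ih => rw [pow_succ, Module.End.mul_apply, hy, ih]
  rw [LinearMap.sum_apply, Finset.sum_congr rfl (fun j _ => h j)]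
  simp [Nat.cast_smul_eq_nsmul]

omit [Finite V] in
theorem LB_w_pow (s : Module.End (ZMod p) V) (c : ℕ) (y : V) (hy : s y = y) (i : ℕ) :
    ((∑ j ∈ range c, s ^ j) ^ i) y = ((c : ZMod p) ^ i) • y := by
  induction i with
  | zero => simp
  | succ i ih =>
    rw [pow_succ, Module.End.mul_apply, LB_w s c y hy, map_smul, ih, smul_smul, pow_succ, mul_comm]

theorem LB_step (s t : Module.End (ZMod p) V) (c : ℕ) (hst : t * s = s ^ c * t) (i : ℕ) :
    finrank (ZMod p) (LinearMap.ker (t - 1) ⊓ LinearMap.ker ((s - 1) ^ (i + 1)) :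
        Submodule (ZMod p) V) ≤
      finrank (ZMod p) (LinearMap.ker (t - 1) ⊓ LinearMap.ker ((s - 1) ^ i) :
        Submodule (ZMod p) V) +
      finrank (ZMod p) (LinearMap.ker (s - 1) ⊓ t.eigenspace ((c : ZMod p) ^ i) :
        Submodule (ZMod p) V) := by
  set W := LinearMap.ker (t - 1) ⊓ LinearMap.ker ((s - 1) ^ (i + 1)) with hW
  set f : W →ₗ[ZMod p] V := ((s - 1) ^ i).domRestrict W with hf
  rw [← LinearMap.finrank_range_add_finrank_ker f, add_comm]
  have hk : finrank (ZMod p) (LinearMap.ker f) ≤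
      finrank (ZMod p) (LinearMap.ker (t - 1) ⊓ LinearMap.ker ((s - 1) ^ i) :
        Submodule (ZMod p) V) := by
    rw [← Submodule.finrank_map_subtype_eq W (LinearMap.ker f)]
    apply Submodule.finrank_mono
    rintro _ ⟨⟨x, hx⟩, hxf, rfl⟩
    exact ⟨hx.1, hxf⟩
  have hr : finrank (ZMod p) (LinearMap.range f) ≤
      finrank (ZMod p) (LinearMap.ker (s - 1) ⊓ t.eigenspace ((c : ZMod p) ^ i) :
        Submodule (ZMod p) V) := by
    apply Submodule.finrank_mono
    rintro _ ⟨⟨x, hx⟩, rfl⟩
    obtain ⟨hx1, hx2⟩ := hx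
    have hx1' : t x = x := by
      have := LinearMap.mem_ker.1 hx1
      simpa [sub_eq_zero] using this
    have hx2' : s (((s - 1) ^ i) x) = ((s - 1) ^ i) x := by
      have := LinearMap.mem_ker.1 hx2
      rw [pow_succ', Module.End.mul_apply, LinearMap.sub_apply, Module.End.one_apply,
        sub_eq_zero] at this
      exact this
    refine ⟨?_, ?_⟩
    · rw [SetLike.mem_coe, LinearMap.mem_ker, LinearMap.sub_apply, Module.End.one_apply, sub_eq_zero]
      exact hx2'
    · rw [SetLike.mem_coe, Module.End.mem_eigenspace_iff]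
      show t (((s - 1) ^ i) x) = (c : ZMod p) ^ i • ((s - 1) ^ i) x
      rw [← Module.End.mul_apply, LB_t_u s t c hst i, Module.End.mul_apply, Module.End.mul_apply, hx1',
        LB_w_pow s c _ hx2' i]
  omega

theorem LB_sum (s t : Module.End (ZMod p) V) (c : ℕ) (hst : t * s = s ^ c * t) (n : ℕ) :
    finrank (ZMod p) (LinearMap.ker (t - 1) ⊓ LinearMap.ker ((s - 1) ^ n) :
        Submodule (ZMod p) V) ≤
      ∑ i ∈ range n, finrank (ZMod p) (LinearMap.ker (s - 1) ⊓ t.eigenspace ((c : ZMod p) ^ i) :
        Submodule (ZMod p) V) := by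
  induction n with
  | zero =>
    rw [pow_zero, Finset.sum_range_zero, Nat.le_zero, Submodule.finrank_eq_zero]
    rw [eq_bot_iff]
    rintro x ⟨-, hx⟩
    simpa using hx
  | succ n ih =>
    rw [Finset.sum_range_succ]
    exact (LB_step s t c hst n).trans (Nat.add_le_add_right ih _)

theorem LB_indep (s t : Module.End (ZMod p) V) (c d : ℕ) (hc : orderOf (c : ZMod p) = d)
    (hd : 0 < d) :
    ∑ i ∈ range d, finrank (ZMod p) (LinearMap.ker (s - 1) ⊓ t.eigenspace ((c : ZMod p) ^ i) :
        Submodule (ZMod p) V) ≤ finrank (ZMod p) (LinearMap.ker (s - 1)) := by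
  have hfo : IsOfFinOrder (c : ZMod p) := by
    rw [← orderOf_pos_iff, hc]; exact hd
  have hind := t.eigenspaces_iSupIndep
  have key : ∀ n ≤ d, ∑ i ∈ range n, finrank (ZMod p)
      (LinearMap.ker (s - 1) ⊓ t.eigenspace ((c : ZMod p) ^ i) : Submodule (ZMod p) V) ≤
      finrank (ZMod p) (LinearMap.ker (s - 1) ⊓ ⨆ i ∈ range n, t.eigenspace ((c : ZMod p) ^ i) :
        Submodule (ZMod p) V) := by
    intro n
    induction n with
    | zero => intro _; simp
    | succ n ih =>
      intro hn
      rw [Finset.sum_range_succ]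
      have h1 := ih (by omega)
      have hdisj : Disjoint (t.eigenspace ((c : ZMod p) ^ n))
          (⨆ i ∈ range n, t.eigenspace ((c : ZMod p) ^ i)) := by
        apply (hind ((c : ZMod p) ^ n)).mono_right
        refine iSup₂_le ?_
        intro i hi
        have hne : (c : ZMod p) ^ i ≠ (c : ZMod p) ^ n := by
          intro h
          rw [Finset.mem_range] at hi
          have := hfo.pow_eq_pow_iff_modEq.1 h
          rw [hc, Nat.ModEq, Nat.mod_eq_of_lt (by omega), Nat.mod_eq_of_lt (by omega)] at this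
          omega
        exact le_iSup₂_of_le ((c : ZMod p) ^ i) hne le_rfl
      have h2 := Submodule.finrank_sup_add_finrank_inf_eq
        (LinearMap.ker (s - 1) ⊓ ⨆ i ∈ range n, t.eigenspace ((c : ZMod p) ^ i))
        (LinearMap.ker (s - 1) ⊓ t.eigenspace ((c : ZMod p) ^ n))
      have h3 : (LinearMap.ker (s - 1) ⊓ ⨆ i ∈ range n, t.eigenspace ((c : ZMod p) ^ i)) ⊓
          (LinearMap.ker (s - 1) ⊓ t.eigenspace ((c : ZMod p) ^ n)) = ⊥ := by
        rw [← disjoint_iff]
        exact (hdisj.symm.mono inf_le_right inf_le_right)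
      have h4 : finrank (ZMod p) (((LinearMap.ker (s - 1) ⊓
          ⨆ i ∈ range n, t.eigenspace ((c : ZMod p) ^ i)) ⊓
          (LinearMap.ker (s - 1) ⊓ t.eigenspace ((c : ZMod p) ^ n)) : Submodule (ZMod p) V)) = 0 := by
        rw [h3]; simp
      rw [h4] at h2
      have h5 : finrank (ZMod p) (((LinearMap.ker (s - 1) ⊓
          ⨆ i ∈ range n, t.eigenspace ((c : ZMod p) ^ i)) ⊔
          (LinearMap.ker (s - 1) ⊓ t.eigenspace ((c : ZMod p) ^ n)) : Submodule (ZMod p) V)) ≤
          finrank (ZMod p) (LinearMap.ker (s - 1) ⊓ ⨆ i ∈ range (n + 1),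
            t.eigenspace ((c : ZMod p) ^ i) : Submodule (ZMod p) V) := by
        apply Submodule.finrank_mono
        apply sup_le
        · apply inf_le_inf_left
          apply iSup₂_le
          intro i hi
          exact le_iSup₂_of_le (f := fun i (_ : i ∈ range (n + 1)) =>
            t.eigenspace ((c : ZMod p) ^ i)) i (by simp at hi ⊢; omega) le_rfl
        · apply inf_le_inf_left
          exact le_iSup₂_of_le (f := fun i (_ : i ∈ range (n + 1)) =>
            t.eigenspace ((c : ZMod p) ^ i)) n (by simp) le_rfl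
      omega
  exact (key d le_rfl).trans (Submodule.finrank_mono inf_le_left)

theorem LB_finrank (s t : Module.End (ZMod p) V) (c d a : ℕ) (hd : d * a = p - 1)
    (hc : orderOf (c : ZMod p) = d) (hs : s ^ p = 1) (hst : t * s = s ^ c * t) :
    finrank (ZMod p) (LinearMap.ker (t - 1)) ≤ a * finrank (ZMod p) (LinearMap.ker (s - 1)) +
      finrank (ZMod p) (LinearMap.ker (s - 1) ⊓ LinearMap.ker (t - 1) : Submodule (ZMod p) V) := by
  have hp : p.Prime := Fact.out
  have hp2 := hp.two_le
  have hdpos : 0 < d := by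
    rcases Nat.eq_zero_or_pos d with h | h
    · subst h; simp at hd; omega
    · exact h
  have h1 := LB_sum s t c hst p
  rw [LB_u_pow s hs] at h1
  have h2 : (LinearMap.ker (t - 1) ⊓ LinearMap.ker (0 : Module.End (ZMod p) V)) =
      LinearMap.ker (t - 1) := by
    rw [LinearMap.ker_zero, inf_top_eq]
  rw [h2] at h1
  set Y : ℕ → ℕ := fun i => finrank (ZMod p)
    (LinearMap.ker (s - 1) ⊓ t.eigenspace ((c : ZMod p) ^ i) : Submodule (ZMod p) V) with hY
  have hper : ∀ i, Y (i + d) = Y i := by
    intro i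
    simp only [hY]
    have : (c : ZMod p) ^ (i + d) = (c : ZMod p) ^ i := by
      rw [pow_add, ← hc, pow_orderOf_eq_one, mul_one]
    rw [this]
  have hper2 : ∀ k i, Y (i + d * k) = Y i := by
    intro k
    induction k with
    | zero => intro i; simp
    | succ k ih => intro i; rw [mul_add, mul_one, ← add_assoc, hper, ih]
  have hsum : ∀ k, ∑ i ∈ range (d * k), Y i = k * ∑ i ∈ range d, Y i := by
    intro k
    induction k with
    | zero => simp
    | succ k ih =>
      rw [mul_add, mul_one, Finset.sum_range_add, ih, add_mul, one_mul]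
      congr 1
      apply Finset.sum_congr rfl
      intro i _
      rw [add_comm, hper2]
  have hY0 : Y (p - 1) = finrank (ZMod p)
      (LinearMap.ker (s - 1) ⊓ LinearMap.ker (t - 1) : Submodule (ZMod p) V) := by
    have : Y (p - 1) = Y 0 := by
      have := hper2 a 0
      rw [zero_add, hd] at this
      exact this
    rw [this]
    simp only [hY]
    rw [Module.End.eigenspace_def, pow_zero, one_smul]
  have hp1 : p = (p - 1) + 1 := by omega
  have h3 : ∑ i ∈ range p, Y i = a * ∑ i ∈ range d, Y i + Y (p - 1) := by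
    conv_lhs => rw [hp1]
    rw [Finset.sum_range_succ, ← hsum a, hd]
  have h4 := LB_indep s t c d hc hdpos
  calc finrank (ZMod p) (LinearMap.ker (t - 1)) ≤ ∑ i ∈ range p, Y i := h1
    _ = a * ∑ i ∈ range d, Y i + Y (p - 1) := h3
    _ ≤ _ := by
      rw [hY0]
      exact Nat.add_le_add_right (Nat.mul_le_mul_left a h4) _
end

/-- Task L (pure finite abelian groups) -/
theorem lin_bound {A : Type*} [CommGroup A] [Finite A] {p : ℕ} (hp : p.Prime) (s t : A →* A)
    (c d a : ℕ) (hd : d * a = p - 1) (hc : orderOf (c : ZMod p) = d)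
    (hs : ∀ x, x ^ p = 1 → (⇑s)^[p] x = x)
    (hst : ∀ x, x ^ p = 1 → t (s x) = (⇑s)^[c] (t x)) :
    Nat.card {x : A // x ^ p = 1 ∧ t x = x} ≤
      Nat.card {x : A // x ^ p = 1 ∧ s x = x} ^ a *
        Nat.card {x : A // x ^ p = 1 ∧ s x = x ∧ t x = x} := by
  have : Fact p.Prime := ⟨hp⟩
  let B : Subgroup A := (powMonoidHom p : A →* A).ker
  have hB : ∀ x : A, x ∈ B ↔ x ^ p = 1 := fun x => MonoidHom.mem_ker
  obtain ⟨inst⟩ : Nonempty (Module (ZMod p) (Additive B)) := ⟨AddCommGroup.zmodModule (n := p) (by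
    intro x
    apply Additive.toMul.injective
    apply Subtype.ext
    exact (hB _).1 (Additive.toMul x).2)⟩
  have : Finite (Additive B) := inferInstanceAs (Finite B)
  have hmap : ∀ (f : A →* A) (x : A), x ∈ B → f x ∈ B := by
    intro f x hx
    rw [hB] at hx ⊢
    rw [← map_pow, hx, map_one]
  let R : (A →* A) → (Additive B →+ Additive B) := fun f =>
    MonoidHom.toAdditive ((f.comp B.subtype).codRestrict B (fun x => hmap f x x.2))
  let S : Module.End (ZMod p) (Additive B) := (R s).toZModLinearMap p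
  let T : Module.End (ZMod p) (Additive B) := (R t).toZModLinearMap p
  have hSval : ∀ x : Additive B, ((Additive.toMul (S x) : B) : A) = s ((Additive.toMul x : B) : A) :=
    fun x => rfl
  have hTval : ∀ x : Additive B, ((Additive.toMul (T x) : B) : A) = t ((Additive.toMul x : B) : A) :=
    fun x => rfl
  have hSpow : ∀ (n : ℕ) (x : Additive B), ((Additive.toMul ((S ^ n) x) : B) : A) =
      (⇑s)^[n] ((Additive.toMul x : B) : A) := by
    intro n
    induction n with
    | zero => intro x; rfl
    | succ n ih =>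
      intro x
      rw [pow_succ, Module.End.mul_apply, ih, hSval, Function.iterate_succ_apply]
  have hext : ∀ x y : Additive B, ((Additive.toMul x : B) : A) = ((Additive.toMul y : B) : A) →
      x = y := fun x y h => Additive.toMul.injective (Subtype.ext h)
  have hpB : ∀ x : Additive B, ((Additive.toMul x : B) : A) ^ p = 1 := fun x =>
    (hB _).1 (Additive.toMul x).2
  have hS : S ^ p = 1 := by
    apply LinearMap.ext
    intro x
    apply hext
    rw [hSpow, Module.End.one_apply]
    exact hs _ (hpB x)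
  have hST : T * S = S ^ c * T := by
    apply LinearMap.ext
    intro x
    apply hext
    rw [Module.End.mul_apply, Module.End.mul_apply, hSpow, hTval, hTval, hSval]
    exact hst _ (hpB x)
  have key := LB_finrank S T c d a hd hc hS hST
  have hkS : ∀ x : Additive B, x ∈ LinearMap.ker (S - 1) ↔
      s ((Additive.toMul x : B) : A) = ((Additive.toMul x : B) : A) := by
    intro x
    rw [LinearMap.mem_ker, LinearMap.sub_apply, Module.End.one_apply, sub_eq_zero, ← hSval]
    exact ⟨fun h => by rw [h], fun h => hext _ _ h⟩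
  have hkT : ∀ x : Additive B, x ∈ LinearMap.ker (T - 1) ↔
      t ((Additive.toMul x : B) : A) = ((Additive.toMul x : B) : A) := by
    intro x
    rw [LinearMap.mem_ker, LinearMap.sub_apply, Module.End.one_apply, sub_eq_zero, ← hTval]
    exact ⟨fun h => by rw [h], fun h => hext _ _ h⟩
  have hcard : ∀ (W : Submodule (ZMod p) (Additive B)) (P : A → Prop),
      (∀ x : Additive B, x ∈ W ↔ P ((Additive.toMul x : B) : A)) →
      Nat.card {x : A // x ^ p = 1 ∧ P x} = Nat.card W := by
    intro W P hWP
    refine Nat.card_congr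
      { toFun := fun x => ⟨Additive.ofMul ⟨x.1, (hB _).2 x.2.1⟩, (hWP _).2 x.2.2⟩
        invFun := fun x => ⟨((Additive.toMul x.1 : B) : A), hpB _, (hWP _).1 x.2⟩
        left_inv := fun x => rfl
        right_inv := fun x => rfl }
  have e1 := hcard (LinearMap.ker (T - 1)) (fun x => t x = x) hkT
  have e2 := hcard (LinearMap.ker (S - 1)) (fun x => s x = x) hkS
  have e3 := hcard (LinearMap.ker (S - 1) ⊓ LinearMap.ker (T - 1)) (fun x => s x = x ∧ t x = x)
    (fun x => by rw [Submodule.mem_inf, hkS, hkT])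
  have hpow : ∀ W : Submodule (ZMod p) (Additive B), Nat.card W = p ^ finrank (ZMod p) W := by
    intro W
    rw [Module.natCard_eq_pow_finrank (K := ZMod p) (V := W), Nat.card_zmod]
  rw [e1, e2, e3, hpow, hpow, hpow, ← pow_mul, ← pow_add]
  apply Nat.pow_le_pow_right hp.pos
  rw [mul_comm _ a]
  exact key

end Pool.Agent.Lib.MP_695920_nt.Solv
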