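import Mathlib
import Pool.Agent.Lib.MP_695920_nt.Solv.Amb
import Pool.Agent.Lib.MP_695920_nt.Solv.LinBound

set_option autoImplicit false

open Finset NumberField Module IsDedekindDomain
open scoped nonZeroDivisors Pointwise

namespace Pool.Agent.Lib.MP_695920_nt.Solv

section quot

/-- the torsion of a quotient is not larger -/
lemma card_torsion_range_le {A B : Type*} [CommGroup A] [Finite A] [CommGroup B] (f : A →* B)
    (l : ℕ) : Nat.card {x : f.range // x ^ l = 1} ≤ Nat.card {x : A // x ^ l = 1} := by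
  -- kernel and range of the power maps
  have e1 : Nat.card {x : A // x ^ l = 1} = Nat.card (powMonoidHom l : A →* A).ker := rfl
  have e2 : Nat.card {x : f.range // x ^ l = 1} =
      Nat.card (powMonoidHom l : f.range →* f.range).ker := rfl
  have hfin : Finite f.range := Finite.of_surjective _ f.rangeRestrict_surjective
  have i1 : Nat.card (powMonoidHom l : A →* A).ker =
      (powMonoidHom l : A →* A).range.index := by
    have h1 := Subgroup.card_mul_index (powMonoidHom l : A →* A).ker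
    have h2 := Subgroup.card_mul_index (powMonoidHom l : A →* A).range
    rw [Subgroup.index_ker] at h1
    have h3 : 0 < Nat.card (powMonoidHom l : A →* A).range := Nat.card_pos
    have h4 : Nat.card (powMonoidHom l : A →* A).range * (powMonoidHom l : A →* A).range.index =
      Nat.card (powMonoidHom l : A →* A).range * Nat.card (powMonoidHom l : A →* A).ker := by
      rw [h2, ← h1, mul_comm]
    exact (Nat.eq_of_mul_eq_mul_left h3 h4).symm
  have i2 : Nat.card (powMonoidHom l : f.range →* f.range).ker =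
      (powMonoidHom l : f.range →* f.range).range.index := by
    have h1 := Subgroup.card_mul_index (powMonoidHom l : f.range →* f.range).ker
    have h2 := Subgroup.card_mul_index (powMonoidHom l : f.range →* f.range).range
    rw [Subgroup.index_ker] at h1
    have h3 : 0 < Nat.card (powMonoidHom l : f.range →* f.range).range := Nat.card_pos
    have h4 : Nat.card (powMonoidHom l : f.range →* f.range).range *
        (powMonoidHom l : f.range →* f.range).range.index =
      Nat.card (powMonoidHom l : f.range →* f.range).range *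
        Nat.card (powMonoidHom l : f.range →* f.range).ker := by
      rw [h2, ← h1, mul_comm]
    exact (Nat.eq_of_mul_eq_mul_left h3 h4).symm
  rw [e1, e2, i1, i2]
  -- the index of the range
  have h5 : (powMonoidHom l : A →* A).range.map f.rangeRestrict =
      (powMonoidHom l : f.range →* f.range).range := by
    ext y
    constructor
    · rintro ⟨_, ⟨x, rfl⟩, rfl⟩
      exact ⟨f.rangeRestrict x, by simp⟩
    · rintro ⟨z, rfl⟩
      obtain ⟨x, rfl⟩ := f.rangeRestrict_surjective z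
      exact ⟨x ^ l, ⟨x, rfl⟩, by simp⟩
  rw [← h5]
  apply Nat.le_of_dvd
  · exact Nat.pos_of_ne_zero Subgroup.index_ne_zero_of_finite
  · exact Subgroup.index_map_dvd _ f.rangeRestrict_surjective

end quot

section fixed

variable {L : Type} [Field L] [NumberField L] {G : Type*} [Group G] [Finite G]
  [MulSemiringAction G L] [hG : IsGaloisGroup G ℚ L]

lemma prod_all_smul [Fintype G] (I : Ideal (𝓞 L)) :
    (Ideal.relNorm (𝓞 ℚ) I).map (algebraMap (𝓞 ℚ) (𝓞 L)) = ∏ g : G, g • I := by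
  have h1 : IsGaloisGroup G (𝓞 ℚ) (𝓞 L) := IsGaloisGroup.of_isFractionRing G (𝓞 ℚ) (𝓞 L) ℚ L
  exact map_relNorm_eq (K := ℚ) (H := G) I

lemma smul_map_of_mem (H : Subgroup G) {h : G} (hh : h ∈ H) (I : Ideal (𝓞 (fixF L H))) :
    h • (I.map (algebraMap (𝓞 (fixF L H)) (𝓞 L))) = I.map (algebraMap (𝓞 (fixF L H)) (𝓞 L)) := by
  rw [Ideal.pointwise_smul_def, Ideal.map_map]
  congr 1
  ext x
  have hx : h • ((algebraMap (𝓞 (fixF L H)) (𝓞 L) x : 𝓞 L) : L) =
      ((algebraMap (𝓞 (fixF L H)) (𝓞 L) x : 𝓞 L) : L) := (x : fixF L H).2 ⟨h, hh⟩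
  exact hx

lemma act_ext_of_mem (H : Subgroup G) {h : G} (hh : h ∈ H) (x : ClassGroup (𝓞 (fixF L H))) :
    act L h (ClassGroup.extendedHom (𝓞 (fixF L H)) (𝓞 L) x) =
      ClassGroup.extendedHom (𝓞 (fixF L H)) (𝓞 L) x := by
  obtain ⟨I, hI, rfl⟩ := cls_surj x
  rw [cls_map hI, cls_smul h (map_ne_bot' hI), smul_map_of_mem H hh]

lemma finrank_fix (H : Subgroup G) : finrank (fixF L H) L = Nat.card H :=
  (IsGaloisGroup.card_eq_finrank H (fixF L H) L).symm

lemma finrank_int (K L : Type*) [Field K] [NumberField K] [Field L] [NumberField L] [Algebra K L] :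
    finrank (𝓞 K) (𝓞 L) = finrank K L :=
  (IsFractionRing.finrank_eq (𝓞 K) K (𝓞 L) L).symm

lemma nrm_ext (H : Subgroup G) (x : ClassGroup (𝓞 (fixF L H))) :
    nrm L H (ClassGroup.extendedHom (𝓞 (fixF L H)) (𝓞 L) x) = x ^ Nat.card H := by
  obtain ⟨I, hI, rfl⟩ := cls_surj x
  have h1 : nrm L H (cls (I.map (algebraMap (𝓞 (fixF L H)) (𝓞 L)))) =
      cls (Ideal.relNorm (𝓞 (fixF L H)) (I.map (algebraMap (𝓞 (fixF L H)) (𝓞 L)))) := by
    rw [cls_of_ne (map_ne_bot' hI), nrm, IdMap.cl_mk0, ← cls_coe]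
    rfl
  rw [cls_map hI, h1, Ideal.relNorm_algebraMap, finrank_int, finrank_fix, cls_pow hI]

/-- torsion prime to the degree injects -/
lemma card_tors_le_fixed (τ : G) {p : ℕ} (hp : p.Prime) (hd : ¬ p ∣ orderOf τ) :
    Nat.card {x : ClassGroup (𝓞 (fixF L (Subgroup.zpowers τ))) // x ^ p = 1} ≤
      Nat.card {x : ClassGroup (𝓞 L) // x ^ p = 1 ∧ act L τ x = x} := by
  let f : {x : ClassGroup (𝓞 (fixF L (Subgroup.zpowers τ))) // x ^ p = 1} →
      {x : ClassGroup (𝓞 L) // x ^ p = 1 ∧ act L τ x = x} := fun x =>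
    ⟨ClassGroup.extendedHom (𝓞 (fixF L (Subgroup.zpowers τ))) (𝓞 L) x.1, by
      rw [← map_pow, x.2, map_one], act_ext_of_mem _ (Subgroup.mem_zpowers τ) _⟩
  apply Nat.card_le_card_of_injective f
  rintro ⟨x, hx⟩ ⟨y, hy⟩ hxy
  have h1 : ClassGroup.extendedHom (𝓞 (fixF L (Subgroup.zpowers τ))) (𝓞 L) x =
      ClassGroup.extendedHom (𝓞 (fixF L (Subgroup.zpowers τ))) (𝓞 L) y := congrArg Subtype.val hxy
  have h2 := congrArg (nrm L (Subgroup.zpowers τ)) h1
  rw [nrm_ext, nrm_ext, Nat.card_zpowers] at h2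
  apply Subtype.ext
  change x = y
  have h3 : (x / y) ^ p = 1 := by rw [div_pow, hx, hy, div_one]
  have h4 : (x / y) ^ orderOf τ = 1 := by rw [div_pow, h2, div_self']
  have h5 : (x / y) ^ (Nat.gcd p (orderOf τ)) = 1 := by
    rw [← orderOf_dvd_iff_pow_eq_one] at h3 h4 ⊢
    exact Nat.dvd_gcd h3 h4
  rw [(Nat.Prime.coprime_iff_not_dvd hp).mpr hd, pow_one, div_eq_one] at h5
  exact h5

/-- unique roots of ideals -/
lemma ideal_pow_inj {A : Type*} [CommRing A] [IsDedekindDomain A] {I J : Ideal A} {n : ℕ}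
    (hn : n ≠ 0) (h : I ^ n = J ^ n) : I = J := by
  apply dvd_antisymm
  · exact (UniqueFactorizationMonoid.pow_dvd_pow_iff_dvd hn).mp (dvd_of_eq h)
  · exact (UniqueFactorizationMonoid.pow_dvd_pow_iff_dvd hn).mp (dvd_of_eq h.symm)

omit [Finite G] in
/-- the product of the `H`-conjugates of an ideal extended from the fixed field of a normal
complement of `H` is principal -/
lemma cls_prod_complement [Fintype G] (N H : Subgroup G) [Fintype H]
    (hbij : Function.Bijective (fun x : H × N => (x.1 : G) * x.2)) {C : Ideal (𝓞 (fixF L N))}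
    (hC : C ≠ ⊥) :
    cls (∏ h : H, (h : G) • (C.map (algebraMap (𝓞 (fixF L N)) (𝓞 L)))) = 1 := by
  classical
  cases nonempty_fintype N
  set CL := C.map (algebraMap (𝓞 (fixF L N)) (𝓞 L)) with hCL
  have hN0 : Nat.card N ≠ 0 := Nat.card_pos.ne'
  have h1 : (∏ h : H, (h : G) • CL) ^ Nat.card N = ∏ g : G, g • CL := by
    rw [← Fintype.prod_bijective (fun x : H × N => (x.1 : G) * x.2) hbij
      (fun x : H × N => ((x.1 : G) * x.2) • CL) (fun g : G => g • CL) (fun _ => rfl),
      Fintype.prod_prod_type]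
    rw [← Finset.prod_pow]
    apply Finset.prod_congr rfl
    intro h _
    have h2 : ∀ n : N, ((h : G) * (n : G)) • CL = (h : G) • CL := by
      intro n
      rw [mul_smul, hCL, smul_map_of_mem N n.2]
    rw [Finset.prod_congr rfl (fun n _ => h2 n), Finset.prod_const, Finset.card_univ,
      ← Nat.card_eq_fintype_card]
  have h2 : ∏ g : G, g • CL =
      ((Ideal.relNorm (𝓞 ℚ) C).map (algebraMap (𝓞 ℚ) (𝓞 L))) ^ Nat.card N := by
    rw [← prod_all_smul, ← Ideal.relNorm_relNorm (𝓞 ℚ) (𝓞 (fixF L N)) CL, hCL,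
      Ideal.relNorm_algebraMap, finrank_int, finrank_fix, map_pow, Ideal.map_pow]
  rw [h2] at h1
  rw [ideal_pow_inj hN0 h1]
  have hpir : IsPrincipalIdealRing (𝓞 ℚ) :=
    IsPrincipalIdealRing.of_surjective Rat.ringOfIntegersEquiv.symm
      Rat.ringOfIntegersEquiv.symm.surjective
  have hprin : (Ideal.relNorm (𝓞 ℚ) C).IsPrincipal := IsPrincipalIdealRing.principal _
  obtain ⟨x, hx⟩ := hprin.principal
  rw [hx]
  change cls (Ideal.map _ (Ideal.span {x})) = 1
  rw [Ideal.map_span, Set.image_singleton]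
  apply cls_span
  intro h0
  have hx0 : x = 0 := FaithfulSMul.algebraMap_injective (𝓞 ℚ) (𝓞 L) (by rw [h0, map_zero])
  rw [hx0] at hx
  have h3 : Ideal.relNorm (𝓞 ℚ) C = ⊥ := by
    rw [hx]
    exact Ideal.span_singleton_eq_bot.mpr rfl
  rw [Ideal.relNorm_eq_bot_iff] at h3
  exact hC h3

/-- invariant torsion classes extended from the fixed field of the normal complement are trivial -/
lemma fixed_ext_trivial (N : Subgroup G) (τ : G)
    (hbij : Function.Bijective (fun x : Subgroup.zpowers τ × N => (x.1 : G) * x.2))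
    {p : ℕ} (hp : p.Prime) (hd : ¬ p ∣ orderOf τ) {z : ClassGroup (𝓞 L)} (hz : z ^ p = 1)
    (hτ : act L τ z = z)
    (hr : z ∈ (ClassGroup.extendedHom (𝓞 (fixF L N)) (𝓞 L)).range) : z = 1 := by
  classical
  cases nonempty_fintype G
  cases nonempty_fintype (Subgroup.zpowers τ)
  obtain ⟨c, rfl⟩ := hr
  obtain ⟨C, hC, rfl⟩ := cls_surj c
  set CL := C.map (algebraMap (𝓞 (fixF L N)) (𝓞 L)) with hCL
  have hCL0 : CL ≠ ⊥ := map_ne_bot' hC
  rw [cls_map hC] at hz hτ ⊢
  rw [← hCL] at hz hτ ⊢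
  have hpow : ∀ i : ℕ, act L (τ ^ i) (cls CL) = cls CL := by
    intro i
    induction i with
    | zero => rw [pow_zero, act_one]
    | succ i ih => rw [pow_succ, act_mul, hτ, ih]
  have h2 : ∀ h : Subgroup.zpowers τ, cls ((h : G) • CL) = cls CL := by
    rintro ⟨g, hg⟩
    obtain ⟨j, -, hj⟩ := (isOfFinOrder_of_finite τ).mem_zpowers_iff_mem_range_orderOf.mp hg |>
      Finset.mem_image.mp
    change cls (g • CL) = cls CL
    rw [← cls_smul g hCL0, ← hj]
    exact hpow j
  have h1 := cls_prod_complement N (Subgroup.zpowers τ) hbij hC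
  rw [← hCL, cls_prod _ _ (fun h _ => smul_ne_bot' _ hCL0), Finset.prod_congr rfl (fun h _ => h2 h),
    Finset.prod_const, Finset.card_univ, ← Nat.card_eq_fintype_card, Nat.card_zpowers] at h1
  have h5 : cls CL ^ (Nat.gcd p (orderOf τ)) = 1 := by
    rw [← orderOf_dvd_iff_pow_eq_one] at hz h1 ⊢
    exact Nat.dvd_gcd hz h1
  rwa [(Nat.Prime.coprime_iff_not_dvd hp).mpr hd, pow_one] at h5

/-- classes killed by `p` and fixed by `σ` -/
noncomputable def fixTors (L : Type) [Field L] [NumberField L] [MulSemiringAction G L] (p : ℕ) (σ : G) :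
    Subgroup (ClassGroup (𝓞 L)) where
  carrier := {x | x ^ p = 1 ∧ act L σ x = x}
  mul_mem' := by
    rintro x y ⟨hx1, hx2⟩ ⟨hy1, hy2⟩
    exact ⟨by rw [mul_pow, hx1, hy1, one_mul], by rw [map_mul, hx2, hy2]⟩
  one_mem' := ⟨one_pow _, map_one _⟩
  inv_mem' := by
    rintro x ⟨hx1, hx2⟩
    exact ⟨by rw [inv_pow, hx1, inv_one], by rw [map_inv, hx2]⟩

/-- classes killed by `p` and fixed by `σ` and `τ` -/
noncomputable def fixTors2 (L : Type) [Field L] [NumberField L] [MulSemiringAction G L] (p : ℕ)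
    (σ τ : G) : Subgroup (ClassGroup (𝓞 L)) where
  carrier := {x | x ^ p = 1 ∧ act L σ x = x ∧ act L τ x = x}
  mul_mem' := by
    rintro x y ⟨hx1, hx2, hx3⟩ ⟨hy1, hy2, hy3⟩
    exact ⟨by rw [mul_pow, hx1, hy1, one_mul], by rw [map_mul, hx2, hy2],
      by rw [map_mul, hx3, hy3]⟩
  one_mem' := ⟨one_pow _, map_one _, map_one _⟩
  inv_mem' := by
    rintro x ⟨hx1, hx2, hx3⟩
    exact ⟨by rw [inv_pow, hx1, inv_one], by rw [map_inv, hx2], by rw [map_inv, hx3]⟩

/-- the class groups of a solvable field of prime degree and of its cyclic resolvent -/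
theorem key_bound {p : ℕ} (hp : p.Prime) (σ τ : G) (c a : ℕ) (hσ : orderOf σ = p)
    (ha : orderOf τ * a = p - 1) (hrel : τ * σ * τ⁻¹ = σ ^ c)
    (hc : orderOf (c : ZMod p) = orderOf τ)
    (hbij : Function.Bijective
      (fun x : Subgroup.zpowers τ × Subgroup.zpowers σ => (x.1 : G) * x.2))
    {R : Finset (Ideal (𝓞 L))}
    (hR : ∀ P : Ideal (𝓞 L), P.IsPrime → P ≠ ⊥ →
      P ^ 2 ∣ (P.under (𝓞 (fixF L (Subgroup.zpowers σ)))).map
        (algebraMap (𝓞 (fixF L (Subgroup.zpowers σ))) (𝓞 L)) → P ∈ R)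
    {n : ℕ} (κ : (𝓞 (fixF L (Subgroup.zpowers σ)))ˣ → (Fin n → Fin (orderOf σ)))
    (hκ : ∀ u v, κ u = κ v → ∃ w : (𝓞 (fixF L (Subgroup.zpowers σ)))ˣ, u = v * w ^ (orderOf σ)) :
    Nat.card {x : ClassGroup (𝓞 (fixF L (Subgroup.zpowers τ))) // x ^ p = 1} ≤
      p ^ ((a + 1) * (n + R.card)) *
        Nat.card {x : ClassGroup (𝓞 (fixF L (Subgroup.zpowers σ))) // x ^ p = 1} ^ a := by
  classical
  have hp1 : 0 < p - 1 := by have := hp.two_le; omega
  have hdp : ¬ p ∣ orderOf τ := by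
    intro h
    have h1 : p ∣ p - 1 := h.trans ⟨a, ha.symm⟩
    have h2 := Nat.le_of_dvd hp1 h1
    omega
  have hact_pow : ∀ (g : G) (k : ℕ) (x : ClassGroup (𝓞 L)), (⇑(act L g))^[k] x = act L (g ^ k) x := by
    intro g k
    induction k with
    | zero => intro x; rw [Function.iterate_zero, id, pow_zero, act_one]
    | succ k ih => intro x; rw [Function.iterate_succ_apply', ih, pow_succ', act_mul]
  have h1 := lin_bound (A := ClassGroup (𝓞 L)) hp (act L σ) (act L τ) c (orderOf τ) a ha hc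
    (by
      intro x _
      rw [hact_pow, ← hσ, pow_orderOf_eq_one, act_one])
    (by
      intro x _
      have h2 : τ * σ = σ ^ c * τ := by rw [← hrel]; group
      rw [hact_pow, ← act_mul, ← act_mul, h2])
  have h2 := card_tors_le_fixed (L := L) τ hp hdp
  have hσp : (orderOf σ).Prime := by rw [hσ]; exact hp
  have h3 := amb_bound σ hσp hR κ hκ (fixTors L p σ) (fun x hx => hx.2)
  have h4 := amb_bound σ hσp hR κ hκ (fixTors2 L p σ τ) (fun x hx => hx.2.1)
  rw [hσ] at h3 h4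
  have h5 : Nat.card (fixTors L p σ ⊓
      (ClassGroup.extendedHom (𝓞 (fixF L (Subgroup.zpowers σ))) (𝓞 L)).range :
        Subgroup (ClassGroup (𝓞 L))) ≤
      Nat.card {x : ClassGroup (𝓞 (fixF L (Subgroup.zpowers σ))) // x ^ p = 1} := by
    refine le_trans ?_ (card_torsion_range_le
      (ClassGroup.extendedHom (𝓞 (fixF L (Subgroup.zpowers σ))) (𝓞 L)) p)
    apply Nat.card_le_card_of_injective (fun x =>
      (⟨⟨x.1, x.2.2⟩, Subtype.ext x.2.1.1⟩ :
        {x : (ClassGroup.extendedHom (𝓞 (fixF L (Subgroup.zpowers σ))) (𝓞 L)).range //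
          x ^ p = 1}))
    intro x y hxy
    have h6 := congrArg (fun z => ((z.1 : (ClassGroup.extendedHom
      (𝓞 (fixF L (Subgroup.zpowers σ))) (𝓞 L)).range) : ClassGroup (𝓞 L))) hxy
    exact Subtype.ext h6
  have h6 : Nat.card (fixTors2 L p σ τ ⊓
      (ClassGroup.extendedHom (𝓞 (fixF L (Subgroup.zpowers σ))) (𝓞 L)).range :
        Subgroup (ClassGroup (𝓞 L))) = 1 := by
    rw [Subgroup.card_eq_one, Subgroup.eq_bot_iff_forall]
    rintro x ⟨⟨hx1, hx2, hx3⟩, hxr⟩
    exact fixed_ext_trivial (Subgroup.zpowers σ) τ hbij hp hdp hx1 hx3 hxr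
  rw [h6, mul_one] at h4
  have e1 : Nat.card {x : ClassGroup (𝓞 L) // x ^ p = 1 ∧ act L σ x = x} =
      Nat.card (fixTors L p σ) := rfl
  have e2 : Nat.card {x : ClassGroup (𝓞 L) // x ^ p = 1 ∧ act L σ x = x ∧ act L τ x = x} =
      Nat.card (fixTors2 L p σ τ) := rfl
  rw [e1, e2] at h1
  have h7 := h3.trans (Nat.mul_le_mul_left _ h5)
  calc Nat.card {x : ClassGroup (𝓞 (fixF L (Subgroup.zpowers τ))) // x ^ p = 1}
      ≤ Nat.card (fixTors L p σ) ^ a * Nat.card (fixTors2 L p σ τ) := h2.trans h1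
    _ ≤ (p ^ (n + R.card) *
          Nat.card {x : ClassGroup (𝓞 (fixF L (Subgroup.zpowers σ))) // x ^ p = 1}) ^ a *
          p ^ (n + R.card) := Nat.mul_le_mul (Nat.pow_le_pow_left h7 a) h4
    _ = _ := by ring

end fixed

end Pool.Agent.Lib.MP_695920_nt.Solv
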