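import Mathlib

set_option autoImplicit false

open Finset NumberField Module

namespace Pool.Agent.Lib.MP_695920_nt.Solv

/-- reduction of an integer modulo `l` -/
def redFin (l : ℕ) (hl : 0 < l) (z : ℤ) : Fin l :=
  ⟨(z % (l : ℤ)).toNat, by
    have h0 : (0 : ℤ) < l := by exact_mod_cast hl
    have h1 := Int.emod_nonneg z h0.ne'
    have h2 := Int.emod_lt_of_pos z h0
    omega⟩

lemma redFin_eq {l : ℕ} {hl : 0 < l} {x y : ℤ} (h : redFin l hl x = redFin l hl y) :
    ∃ k : ℤ, x = y + k * l := by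
  have h0 : (0 : ℤ) < l := by exact_mod_cast hl
  have h1 := Int.emod_nonneg x h0.ne'
  have h2 := Int.emod_nonneg y h0.ne'
  have h3 : (x % (l : ℤ)).toNat = (y % (l : ℤ)).toNat := congrArg Fin.val h
  have h4 : x % (l : ℤ) = y % (l : ℤ) := by omega
  have h5 : (l : ℤ) ∣ x - y := Int.ModEq.dvd (n := (l : ℤ)) (a := y) (b := x) h4.symm
  obtain ⟨k, hk⟩ := h5
  exact ⟨k, by linear_combination hk⟩

/-- Task U: units modulo `l`-th powers -/
theorem unit_classes (E : Type*) [Field E] [NumberField E] (l : ℕ) (hl : 0 < l) :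
    ∃ (κ : (𝓞 E)ˣ → (Fin (finrank ℚ E) → Fin l)), ∀ u v, κ u = κ v →
      ∃ w : (𝓞 E)ˣ, u = v * w ^ l := by
  classical
  have hrank : NumberField.Units.rank E < finrank ℚ E := by
    have h1 := InfinitePlace.card_add_two_mul_card_eq_rank E
    have h2 : Fintype.card (InfinitePlace E) = InfinitePlace.nrRealPlaces E
        + InfinitePlace.nrComplexPlaces E := InfinitePlace.card_eq_nrRealPlaces_add_nrComplexPlaces E
    have h3 : 0 < Fintype.card (InfinitePlace E) := Fintype.card_pos
    unfold NumberField.Units.rank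
    omega
  have hex : ∀ x : (𝓞 E)ˣ, ∃ (ζ : Units.torsion E) (e : Fin (Units.rank E) → ℤ),
      x = ζ * ∏ i, (Units.fundSystem E i ^ (e i)) := by
    intro x
    obtain ⟨⟨ζ, e⟩, h, -⟩ := Units.exist_unique_eq_mul_prod E x
    exact ⟨ζ, e, h⟩
  choose ζ e he using hex
  obtain ⟨g, hg⟩ := IsCyclic.exists_generator (α := Units.torsion E)
  have hk : ∀ x : (𝓞 E)ˣ, ∃ k : ℤ, g ^ k = ζ x := fun x => Subgroup.mem_zpowers_iff.1 (hg (ζ x))
  choose k hk using hk
  refine ⟨fun x j => if h : j.val < Units.rank E then redFin l hl (e x ⟨j.val, h⟩)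
    else redFin l hl (k x), ?_⟩
  intro u v huv
  have h1 : ∀ i : Fin (Units.rank E), ∃ c : ℤ, e u i = e v i + c * l := by
    intro i
    have h := congrFun huv ⟨i.val, i.isLt.trans hrank⟩
    simp only [i.isLt, dif_pos] at h
    exact redFin_eq h
  have h2 : ∃ c : ℤ, k u = k v + c * l := by
    have h := congrFun huv ⟨Units.rank E, hrank⟩
    simp only [lt_irrefl, dif_neg, not_false_eq_true] at h
    exact redFin_eq h
  choose c hc using h1
  obtain ⟨c0, hc0⟩ := h2
  refine ⟨((g ^ c0 : Units.torsion E) : (𝓞 E)ˣ) * ∏ i, Units.fundSystem E i ^ (c i), ?_⟩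
  rw [he u, he v, ← hk u, ← hk v, hc0, mul_pow, ← Finset.prod_pow, mul_mul_mul_comm,
    ← Finset.prod_mul_distrib]
  congr 1
  · push_cast
    rw [zpow_add, zpow_mul, zpow_natCast]
  · apply Finset.prod_congr rfl
    intro i _
    rw [hc i, zpow_add, zpow_mul, zpow_natCast]

/-- Task W: number of prime divisors -/
theorem pow_omega_le (A ε : ℝ) (hA : 1 ≤ A) (hε : 0 < ε) :
    ∃ C : ℝ, 1 ≤ C ∧ ∀ m : ℕ, 0 < m → A ^ (m.primeFactors.card) ≤ C * (m : ℝ) ^ ε := by
  have hA0 : 0 < A := by linarith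
  set B : ℕ := ⌈A ^ (1 / ε)⌉₊ with hB
  refine ⟨A ^ (B + 1), one_le_pow₀ hA, ?_⟩
  intro m hm
  -- split the prime factors
  have hsplit := Finset.prod_filter_mul_prod_filter_not m.primeFactors (fun p => p < B)
    (fun _ => A)
  rw [Finset.prod_const, Finset.prod_const, Finset.prod_const] at hsplit
  rw [← hsplit]
  have h1 : A ^ (m.primeFactors.filter (fun p => p < B)).card ≤ A ^ (B + 1) := by
    apply pow_le_pow_right₀ hA
    calc (m.primeFactors.filter (fun p => p < B)).card ≤ (Finset.range B).card := by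
          apply Finset.card_le_card
          intro p hp
          rw [Finset.mem_filter] at hp
          exact Finset.mem_range.2 hp.2
      _ = B := Finset.card_range B
      _ ≤ B + 1 := Nat.le_succ B
  have h2 : A ^ (m.primeFactors.filter (fun p => ¬ p < B)).card ≤ (m : ℝ) ^ ε := by
    have h3 : ∀ p ∈ m.primeFactors.filter (fun p => ¬ p < B), A ≤ (p : ℝ) ^ ε := by
      intro p hp
      rw [Finset.mem_filter, not_lt] at hp
      have h4 : A ^ (1 / ε) ≤ (p : ℝ) := (Nat.le_ceil _).trans (by exact_mod_cast hp.2)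
      calc A = (A ^ (1 / ε)) ^ ε := by
            rw [← Real.rpow_mul hA0.le, one_div, inv_mul_cancel₀ hε.ne', Real.rpow_one]
        _ ≤ (p : ℝ) ^ ε := Real.rpow_le_rpow (by positivity) h4 hε.le
    calc A ^ (m.primeFactors.filter (fun p => ¬ p < B)).card
        = ∏ _p ∈ m.primeFactors.filter (fun p => ¬ p < B), A := by rw [Finset.prod_const]
      _ ≤ ∏ p ∈ m.primeFactors.filter (fun p => ¬ p < B), (p : ℝ) ^ ε :=
          Finset.prod_le_prod (fun _ _ => hA0.le) h3
      _ = (∏ p ∈ m.primeFactors.filter (fun p => ¬ p < B), (p : ℝ)) ^ ε := by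
          rw [Real.finsetProd_rpow _ _ (fun p _ => Nat.cast_nonneg p)]
      _ ≤ (m : ℝ) ^ ε := by
          apply Real.rpow_le_rpow (Finset.prod_nonneg fun p _ => Nat.cast_nonneg p) _ hε.le
          rw [← Nat.cast_prod]
          have h5 : (∏ p ∈ m.primeFactors.filter (fun p => ¬ p < B), p) ∣ m :=
            (Finset.prod_dvd_prod_of_subset _ _ _ (Finset.filter_subset _ _)).trans
              (Nat.prod_primeFactors_dvd m)
          exact_mod_cast Nat.le_of_dvd hm h5
  exact mul_le_mul h1 h2 (by positivity) (by positivity)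

end Pool.Agent.Lib.MP_695920_nt.Solv
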