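import Mathlib
import Pool.Agent.Lib.MP_695920_nt.Solv.Key
import Pool.Agent.Lib.MP_695920_nt.Solv.Units
import Pool.Agent.Lib.MP_695920_nt.Solv.DiscIneq
import Pool.Agent.Lib.MP_695920_nt.NoInertBound

set_option autoImplicit false

open Finset NumberField Module IsDedekindDomain
open scoped nonZeroDivisors Pointwise IntermediateField

namespace Pool.Agent.Lib.MP_695920_nt.Solv

open Classical in
/-- the primes above the primes dividing the discriminant -/
noncomputable def ramSet (L : Type*) [Field L] [NumberField L] : Finset (Ideal (𝓞 L)) :=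
  (discr L).natAbs.primeFactors.biUnion
    (fun q => IsDedekindDomain.primesOverFinset (Ideal.span {(q : ℤ)}) (𝓞 L))

lemma mem_ramSet {K L : Type*} [Field K] [NumberField K] [Field L] [NumberField L] [Algebra K L]
    {P : Ideal (𝓞 L)} (hP : P.IsPrime) (hP0 : P ≠ ⊥)
    (h : P ^ 2 ∣ (P.under (𝓞 K)).map (algebraMap (𝓞 K) (𝓞 L))) : P ∈ ramSet L := by
  classical
  obtain ⟨p, f, hp, hf, _, hmem, hN⟩ := exists_prime_absNorm hP0 hP
  have hover := liesOver_of_mem hP hp hmem
  have h1 : Ideal.span {(p : 𝓞 L)} ≤ (P.under (𝓞 K)).map (algebraMap (𝓞 K) (𝓞 L)) := by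
    rw [Ideal.span_singleton_le_iff_mem]
    have h2 : (p : 𝓞 K) ∈ P.under (𝓞 K) := by
      rw [Ideal.under, Ideal.mem_comap, map_natCast]
      exact hmem
    have h3 := Ideal.mem_map_of_mem (algebraMap (𝓞 K) (𝓞 L)) h2
    rwa [map_natCast] at h3
  have h2 : P ^ 2 ∣ Ideal.span {(p : 𝓞 L)} := h.trans (Ideal.dvd_iff_le.mpr h1)
  have h3 := ramified_dvd_sq hp hP hmem h2
  unfold ramSet
  rw [Finset.mem_biUnion]
  refine ⟨p, Nat.mem_primeFactors.mpr ⟨hp, h3, Int.natAbs_ne_zero.mpr (discr_ne_zero L)⟩, ?_⟩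
  exact (mem_primesOverFinset_nat hp).mpr ⟨hP, hover⟩

lemma card_ramSet_le (L : Type*) [Field L] [NumberField L] :
    (ramSet L).card ≤ (discr L).natAbs.primeFactors.card * finrank ℚ L := by
  classical
  unfold ramSet
  refine Finset.card_biUnion_le.trans ?_
  rw [← smul_eq_mul]
  apply Finset.sum_le_card_nsmul
  intro q hq
  have hqp := Nat.prime_of_mem_primeFactors hq
  have hmax := span_int_isMaximal hqp
  exact Ideal.card_primesOverFinset_le_finrank (𝓞 L) ℚ L (p := Ideal.span {(q : ℤ)})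
    (by simpa using hqp.ne_zero)

section closure

variable {L : Type*} [Field L] [NumberField L] [IsGalois ℚ L]

lemma discr_conj (H : Subgroup Gal(L/ℚ)) (g : Gal(L/ℚ)) :
    discr (fixF L (H.map (MulAut.conj g).toMonoidHom)) = discr (fixF L H) := by
  have e : fixF L H ≃ₐ[ℚ] (fixF L (H.map (MulAut.conj g).toMonoidHom)) :=
    (IntermediateField.intermediateFieldMap g (fixF L H)).trans
      (IntermediateField.equivOfEq (fixF_conj H g))
  rw [discr_eq_discr_of_algEquiv _ e]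

/-- the constant -/
noncomputable def ccs (n : ℕ) : ℝ := ∑ r ∈ range (n + 1), |cc n r|

lemma ccs_nonneg (n : ℕ) : 0 ≤ ccs n := Finset.sum_nonneg (fun _ _ => abs_nonneg _)

lemma one_le_absdiscr (K : Type*) [Field K] [NumberField K] : (1 : ℝ) ≤ |(discr K : ℝ)| := by
  have : 1 ≤ |discr K| := Int.one_le_abs (discr_ne_zero K)
  exact_mod_cast this

theorem log_discr_le (H : Subgroup Gal(L/ℚ)) (hcore : H.normalCore = ⊥) :
    Real.log |(discr L : ℝ)| ≤ ccs (finrank ℚ L) +
      (finrank ℚ L : ℝ) ^ 2 * Real.log |(discr (fixF L H) : ℝ)| := by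
  classical
  let S : Finset (Subgroup Gal(L/ℚ)) :=
    Finset.univ.image (fun g : Gal(L/ℚ) => H.map (MulAut.conj g).toMonoidHom)
  have h1 := composite_bound S (by
    intro g hg
    have h2 : g ∈ H.normalCore := by
      intro b
      have h3 := hg _ (Finset.mem_image_of_mem _ (Finset.mem_univ b⁻¹))
      obtain ⟨y, hy, hyg⟩ := Subgroup.mem_map.mp h3
      have h4 : g = b⁻¹ * y * b⁻¹⁻¹ := hyg.symm
      rw [h4]
      have h5 : b * (b⁻¹ * y * b⁻¹⁻¹) * b⁻¹ = y := by group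
      rw [h5]
      exact hy
    rw [hcore] at h2
    exact Subgroup.mem_bot.mp h2)
    (Finset.image_nonempty.mpr Finset.univ_nonempty) |(discr (fixF L H) : ℝ)|
    (one_le_absdiscr _) (by
      intro H' hH'
      obtain ⟨g, -, rfl⟩ := Finset.mem_image.mp hH'
      rw [discr_conj])
  refine h1.trans ?_
  apply add_le_add_left
  have hS : S.card ≤ finrank ℚ L := by
    refine Finset.card_image_le.trans ?_
    rw [Finset.card_univ, ← Nat.card_eq_fintype_card, IsGalois.card_aut_eq_finrank]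
  unfold ccs
  refine (le_abs_self _).trans ?_
  exact Finset.single_le_sum (f := fun r => |cc (finrank ℚ L) r|) (fun _ _ => abs_nonneg _)
    (Finset.mem_range.mpr (Nat.lt_succ_of_le hS))

end closure

theorem key_eps (p a n : ℕ) (hp : p.Prime) (ε : ℝ) (hε : 0 < ε) :
    ∃ C : ℝ, 0 < C ∧ ∀ (L : Type) [Field L] [NumberField L] [IsGalois ℚ L] (σ τ : Gal(L/ℚ)) (c : ℕ),
      finrank ℚ L = n → orderOf σ = p → orderOf τ * a = p - 1 → τ * σ * τ⁻¹ = σ ^ c →
      orderOf (c : ZMod p) = orderOf τ →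
      Function.Bijective (fun x : Subgroup.zpowers τ × Subgroup.zpowers σ => (x.1 : Gal(L/ℚ)) * x.2) →
      (Subgroup.zpowers τ).normalCore = ⊥ →
      (Nat.card {x : ClassGroup (𝓞 (fixF L (Subgroup.zpowers τ))) // x ^ p = 1} : ℝ) ≤
        C * Real.exp (ε * Real.log |(discr (fixF L (Subgroup.zpowers τ)) : ℝ)|) *
        (Nat.card {x : ClassGroup (𝓞 (fixF L (Subgroup.zpowers σ))) // x ^ p = 1} : ℝ) ^ a := by
  classical
  have hp1 : (1 : ℝ) ≤ p := by exact_mod_cast hp.one_lt.le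
  set A : ℝ := (p : ℝ) ^ ((a + 1) * n) with hA
  have hA1 : 1 ≤ A := one_le_pow₀ hp1
  set ε' : ℝ := ε / ((n : ℝ) ^ 2 + 1) with hε'
  have hn2 : (0 : ℝ) < (n : ℝ) ^ 2 + 1 := by positivity
  have hε'0 : 0 < ε' := div_pos hε hn2
  obtain ⟨C1, hC1, hom⟩ := pow_omega_le A ε' hA1 hε'0
  refine ⟨A * C1 * Real.exp (ε' * ccs n), by positivity, ?_⟩
  intro L _ _ _ σ τ c hn hσ ha hrel hc hbij hcore
  set DK : ℝ := |(discr (fixF L (Subgroup.zpowers τ)) : ℝ)| with hDK
  have hDK1 : 1 ≤ DK := one_le_absdiscr _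
  have hlogDK : 0 ≤ Real.log DK := Real.log_nonneg hDK1
  obtain ⟨κ, hκ⟩ := unit_classes (fixF L (Subgroup.zpowers σ)) (orderOf σ) (by
    rw [hσ]; exact hp.pos)
  have h1 := key_bound hp σ τ c a hσ ha hrel hc hbij (R := ramSet L)
    (fun P hP hP0 h => mem_ramSet hP hP0 h) κ hκ
  set NK := Nat.card {x : ClassGroup (𝓞 (fixF L (Subgroup.zpowers τ))) // x ^ p = 1} with hNK
  set NE := Nat.card {x : ClassGroup (𝓞 (fixF L (Subgroup.zpowers σ))) // x ^ p = 1} with hNE
  have hnE : finrank ℚ (fixF L (Subgroup.zpowers σ)) ≤ n := by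
    rw [← hn, ← finrank_mul_finrank ℚ (fixF L (Subgroup.zpowers σ)) L]
    exact Nat.le_mul_of_pos_right _ finrank_pos
  set w := (discr L).natAbs.primeFactors.card with hw
  have hR := card_ramSet_le L
  rw [hn] at hR
  have h2 : (a + 1) * (finrank ℚ (fixF L (Subgroup.zpowers σ)) + (ramSet L).card) ≤
      (a + 1) * n + (a + 1) * n * w := by
    calc (a + 1) * (finrank ℚ (fixF L (Subgroup.zpowers σ)) + (ramSet L).card)
        ≤ (a + 1) * (n + w * n) := Nat.mul_le_mul_left _ (Nat.add_le_add hnE hR)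
      _ = (a + 1) * n + (a + 1) * n * w := by ring
  have h3 : (p : ℝ) ^ ((a + 1) * (finrank ℚ (fixF L (Subgroup.zpowers σ)) + (ramSet L).card)) ≤
      A * A ^ w := by
    refine (pow_le_pow_right₀ hp1 h2).trans (le_of_eq ?_)
    rw [pow_add, pow_mul _ _ w]
  have h4 := hom (discr L).natAbs (Int.natAbs_pos.mpr (discr_ne_zero L))
  have hDL : (((discr L).natAbs : ℕ) : ℝ) = |(discr L : ℝ)| := by
    rw [Nat.cast_natAbs, Int.cast_abs]
  rw [hDL] at h4
  have hDL1 := one_le_absdiscr L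
  have h5 := log_discr_le (Subgroup.zpowers τ) hcore
  rw [hn, ← hDK] at h5
  have h6 : |(discr L : ℝ)| ^ ε' ≤ Real.exp (ε' * ccs n) * Real.exp (ε * Real.log DK) := by
    rw [Real.rpow_def_of_pos (by linarith), ← Real.exp_add]
    apply Real.exp_le_exp.mpr
    calc Real.log |(discr L : ℝ)| * ε' ≤ (ccs n + (n : ℝ) ^ 2 * Real.log DK) * ε' :=
          mul_le_mul_of_nonneg_right h5 hε'0.le
      _ = ε' * ccs n + (ε' * (n : ℝ) ^ 2) * Real.log DK := by ring
      _ ≤ ε' * ccs n + ε * Real.log DK := by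
          apply add_le_add_right
          apply mul_le_mul_of_nonneg_right _ hlogDK
          rw [hε', div_mul_eq_mul_div, div_le_iff₀ hn2]
          nlinarith
  have h7 : (NK : ℝ) ≤ (p : ℝ) ^ ((a + 1) *
      (finrank ℚ (fixF L (Subgroup.zpowers σ)) + (ramSet L).card)) * (NE : ℝ) ^ a := by
    exact_mod_cast h1
  have hNE0 : (0 : ℝ) ≤ (NE : ℝ) ^ a := by positivity
  calc (NK : ℝ) ≤ (p : ℝ) ^ ((a + 1) *
        (finrank ℚ (fixF L (Subgroup.zpowers σ)) + (ramSet L).card)) * (NE : ℝ) ^ a := h7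
    _ ≤ (A * A ^ w) * (NE : ℝ) ^ a := mul_le_mul_of_nonneg_right h3 hNE0
    _ ≤ (A * (C1 * |(discr L : ℝ)| ^ ε')) * (NE : ℝ) ^ a := by
        apply mul_le_mul_of_nonneg_right _ hNE0
        exact mul_le_mul_of_nonneg_left h4 (by linarith)
    _ ≤ (A * (C1 * (Real.exp (ε' * ccs n) * Real.exp (ε * Real.log DK)))) * (NE : ℝ) ^ a := by
        apply mul_le_mul_of_nonneg_right _ hNE0
        apply mul_le_mul_of_nonneg_left _ (by linarith)
        exact mul_le_mul_of_nonneg_left h6 (by linarith)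
    _ = _ := by ring

end Pool.Agent.Lib.MP_695920_nt.Solv
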