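import Mathlib

set_option autoImplicit false

open Subgroup

namespace Pool.Agent.Lib.MP_695920_nt.Solv

section grp

variable {G : Type*} [Group G]

/-- a normal subgroup inside `H` is trivial when the core is trivial -/
lemma le_bot_of_core {H : Subgroup G} (hcore : H.normalCore = ⊥) {M : Subgroup G} (hM : M.Normal)
    (h : M ≤ H) : M = ⊥ := by
  rw [eq_bot_iff, ← hcore]
  exact (Subgroup.normal_le_normalCore).mpr h

lemma le_normalizer_of {A M : Subgroup G} (hA : ∀ a ∈ A, ∀ x ∈ M, a * x * a⁻¹ ∈ M) :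
    A ≤ normalizer (M : Set G) := by
  intro a ha
  rw [Subgroup.mem_normalizer_iff]
  intro x
  constructor
  · exact hA a ha x
  · intro h
    have h1 := hA a⁻¹ (A.inv_mem ha) _ h
    have h2 : a⁻¹ * (a * x * a⁻¹) * a⁻¹⁻¹ = x := by group
    rw [← h2]; exact h1

lemma normal_of_sup {A H M : Subgroup G} (hs : A ⊔ H = ⊤)
    (hA : ∀ a ∈ A, ∀ x ∈ M, a * x * a⁻¹ ∈ M) (hH : ∀ a ∈ H, ∀ x ∈ M, a * x * a⁻¹ ∈ M) :
    M.Normal := by
  rw [← Subgroup.normalizer_eq_top_iff, eq_top_iff, ← hs]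
  exact sup_le (le_normalizer_of hA) (le_normalizer_of hH)

/-- the last nontrivial term of the derived series -/
lemma exists_abelian_normal [Group.IsSolvable G] [Nontrivial G] :
    ∃ A : Subgroup G, A.Normal ∧ A ≠ ⊥ ∧ ∀ a ∈ A, ∀ b ∈ A, a * b = b * a := by
  classical
  have hex : ∃ n, derivedSeries G n = ⊥ := Group.IsSolvable.solvable
  let n := Nat.find hex
  have hn : derivedSeries G n = ⊥ := Nat.find_spec hex
  have hn0 : n ≠ 0 := by
    intro h0
    rw [h0, derivedSeries_zero] at hn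
    exact top_ne_bot hn
  obtain ⟨m, hm⟩ := Nat.exists_eq_succ_of_ne_zero hn0
  have hlt : m < Nat.find hex := by
    change m < n
    omega
  have hmne : derivedSeries G m ≠ ⊥ := Nat.find_min hex hlt
  refine ⟨derivedSeries G m, inferInstance, hmne, ?_⟩
  intro a ha b hb
  rw [hm, derivedSeries_succ] at hn
  have h1 := Subgroup.commutator_mem_commutator ha hb
  rw [hn, mem_bot, commutatorElement_eq_one_iff_mul_comm] at h1
  exact h1

variable [Finite G]

lemma conj_pow' {g k : G} {c : ℕ} (h : g * k * g⁻¹ = k ^ c) (i : ℕ) :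
    g * k ^ i * g⁻¹ = (k ^ i) ^ c := by
  rw [← pow_mul, mul_comm, pow_mul, ← h, conj_pow]

lemma conj_pow_pow {g k : G} {c : ℕ} (h : g * k * g⁻¹ = k ^ c) (i : ℕ) :
    g ^ i * k * (g ^ i)⁻¹ = k ^ (c ^ i) := by
  induction i with
  | zero => simp
  | succ i ih =>
    have h1 : g ^ (i + 1) * k * (g ^ (i + 1))⁻¹ = g * (g ^ i * k * (g ^ i)⁻¹) * g⁻¹ := by
      rw [pow_succ']; group
    rw [h1, ih, conj_pow' h, ← pow_mul, pow_succ]

/-- the structure of a solvable transitive permutation group of prime degree -/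
theorem frob_structure [Group.IsSolvable G] (H : Subgroup G) {p : ℕ} (hp : p.Prime)
    (hidx : H.index = p) (hcore : H.normalCore = ⊥) :
    ∃ N : Subgroup G, N.Normal ∧ Nat.card N = p ∧ N ⊓ H = ⊥ ∧ N ⊔ H = ⊤ ∧
      (∀ g k : G, g * k * g⁻¹ * k⁻¹ ∈ N) ∧
      (∀ h ∈ H, h ≠ 1 → ∀ n ∈ N, h * n = n * h → n = 1) ∧
      (∀ g : G, g ∉ N → ∃ x : G, x * g * x⁻¹ ∈ H) ∧
      ∃ (σ τ : G) (c : ℕ), N = zpowers σ ∧ H = zpowers τ ∧ orderOf σ = p ∧
        τ * σ * τ⁻¹ = σ ^ c ∧ orderOf (c : ZMod p) = Nat.card H ∧ Nat.card H ∣ p - 1 := by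
  classical
  have hnt : Nontrivial G := by
    by_contra hcon
    rw [not_nontrivial_iff_subsingleton] at hcon
    have h1 : H = ⊤ := Subsingleton.elim _ _
    rw [h1, Subgroup.index_top] at hidx
    exact hp.one_lt.ne hidx
  obtain ⟨N, hN, hNne, hab⟩ := exists_abelian_normal (G := G)
  have hNH : ¬ N ≤ H := fun h => hNne (le_bot_of_core hcore hN h)
  have hsup : N ⊔ H = ⊤ := by
    have h1 : (N ⊔ H).index ∣ H.index := Subgroup.index_dvd_of_le le_sup_right
    rw [hidx] at h1
    rcases (Nat.dvd_prime hp).mp h1 with h2 | h2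
    · exact Subgroup.index_eq_one.mp h2
    · exfalso
      apply hNH
      have h3 : Nat.card (N ⊔ H : Subgroup G) = Nat.card H := by
        have e1 := Subgroup.card_mul_index (N ⊔ H)
        have e2 := Subgroup.card_mul_index H
        rw [h2] at e1
        rw [hidx, ← e1] at e2
        exact (Nat.eq_of_mul_eq_mul_right hp.pos e2).symm
      have h4 : H = N ⊔ H := Subgroup.eq_of_le_of_card_ge le_sup_right h3.le
      rw [h4]; exact le_sup_left
  have hinf : N ⊓ H = ⊥ := by
    apply le_bot_of_core hcore _ inf_le_right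
    apply normal_of_sup hsup
    · intro a ha x hx
      have : a * x * a⁻¹ = x := by rw [hab a ha x hx.1, mul_inv_cancel_right]
      rw [this]; exact hx
    · intro a ha x hx
      exact ⟨hN.conj_mem x hx.1 a, H.mul_mem (H.mul_mem ha hx.2) (H.inv_mem ha)⟩
  -- decomposition of elements
  have hdec : ∀ g : G, ∃ n ∈ N, ∃ h ∈ H, n * h = g := by
    intro g
    have hg : g ∈ N ⊔ H := by rw [hsup]; exact mem_top g
    exact Subgroup.mem_sup_of_normal_left.mp hg
  have hcompl : IsComplement' N H := by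
    apply isComplement'_of_disjoint_and_mul_eq_univ (disjoint_iff.mpr hinf)
    rw [Set.eq_univ_iff_forall]
    intro g
    obtain ⟨n, hn, h, hh, rfl⟩ := hdec g
    exact Set.mul_mem_mul hn hh
  have hcard : Nat.card N = p := by
    rw [← hidx]
    exact (hcompl.index_eq_card).symm
  have : Fact p.Prime := ⟨hp⟩
  -- generator of N
  obtain ⟨σ, hσN, hσ1⟩ := (Subgroup.ne_bot_iff_exists_ne_one.mp hNne : ∃ a : N, a ≠ 1) |>.imp
    (fun a ha => ha) |> fun ⟨a, ha⟩ => (⟨a, a.2, fun h => ha (Subtype.ext h)⟩ :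
      ∃ σ : G, σ ∈ N ∧ σ ≠ 1)
  have hσo : orderOf σ = p := by
    have h1 : orderOf σ ∣ p := by
      rw [← hcard]
      exact Subgroup.orderOf_dvd_natCard N hσN
    rcases (Nat.dvd_prime hp).mp h1 with h2 | h2
    · exact absurd (orderOf_eq_one_iff.mp h2) hσ1
    · exact h2
  have hNσ : N = zpowers σ := by
    symm
    apply Subgroup.eq_of_le_of_card_ge (zpowers_le.mpr hσN)
    rw [Nat.card_zpowers, hσo, hcard]
  -- every nontrivial element of N generates N
  have hgen : ∀ n ∈ N, n ≠ 1 → N = zpowers n := by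
    intro n hn hn1
    symm
    apply Subgroup.eq_of_le_of_card_ge (zpowers_le.mpr hn)
    rw [Nat.card_zpowers, hcard]
    have h1 : orderOf n ∣ p := by
      rw [← hcard]
      exact Subgroup.orderOf_dvd_natCard N hn
    rcases (Nat.dvd_prime hp).mp h1 with h2 | h2
    · exact absurd (orderOf_eq_one_iff.mp h2) hn1
    · exact h2.ge
  -- centralizer
  have hcent : H ⊓ centralizer (N : Set G) = ⊥ := by
    apply le_bot_of_core hcore _ inf_le_left
    apply normal_of_sup hsup
    · intro a ha x hx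
      have h1 := (Subgroup.mem_centralizer_iff.mp hx.2) a ha
      have : a * x * a⁻¹ = x := by rw [h1, mul_inv_cancel_right]
      rw [this]; exact hx
    · intro a ha x hx
      refine ⟨H.mul_mem (H.mul_mem ha hx.1) (H.inv_mem ha), ?_⟩
      change a * x * a⁻¹ ∈ centralizer (N : Set G)
      rw [Subgroup.mem_centralizer_iff]
      intro n hn
      have h1 : a⁻¹ * n * a ∈ N := by
        have := hN.conj_mem n hn a⁻¹
        rwa [inv_inv] at this
      have h2 := (Subgroup.mem_centralizer_iff.mp hx.2) _ h1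
      calc n * (a * x * a⁻¹) = a * ((a⁻¹ * n * a) * x) * a⁻¹ := by group
        _ = a * (x * (a⁻¹ * n * a)) * a⁻¹ := by rw [h2]
        _ = a * x * a⁻¹ * n := by group
  have hfix : ∀ h ∈ H, h ≠ 1 → ∀ n ∈ N, h * n = n * h → n = 1 := by
    intro h hh hh1 n hn hcomm
    by_contra hn1
    apply hh1
    have h1 : h ∈ H ⊓ centralizer (N : Set G) := by
      refine ⟨hh, ?_⟩
      change h ∈ centralizer (N : Set G)
      rw [Subgroup.mem_centralizer_iff]
      intro m hm
      rw [SetLike.mem_coe, hgen n hn hn1] at hm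
      obtain ⟨k, rfl⟩ := Subgroup.mem_zpowers_iff.mp hm
      have : Commute n h := hcomm.symm
      exact (this.zpow_left k).eq
    rw [hcent] at h1
    exact mem_bot.mp h1
  -- conjugation acts by powers
  have hpow : ∀ g : G, ∃ c : ℕ, g * σ * g⁻¹ = σ ^ c := by
    intro g
    have h1 := hN.conj_mem σ hσN g
    rw [hNσ] at h1
    obtain ⟨c, -, hc⟩ := (isOfFinOrder_of_finite σ).mem_zpowers_iff_mem_range_orderOf.mp h1 |>
      Finset.mem_image.mp
    exact ⟨c, hc.symm⟩
  -- commutators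
  have hcommH : ∀ a ∈ H, ∀ b ∈ H, a * b = b * a := by
    intro a ha b hb
    obtain ⟨i, hi⟩ := hpow a
    obtain ⟨j, hj⟩ := hpow b
    have h1 : (a * b * a⁻¹ * b⁻¹) * σ = σ * (a * b * a⁻¹ * b⁻¹) := by
      have e1 : (a * b) * σ * (a * b)⁻¹ = σ ^ (i * j) := by
        have : (a * b) * σ * (a * b)⁻¹ = a * (b * σ * b⁻¹) * a⁻¹ := by group
        rw [this, hj, conj_pow' hi, ← pow_mul, mul_comm]
      have e2 : (b * a) * σ * (b * a)⁻¹ = σ ^ (i * j) := by
        have : (b * a) * σ * (b * a)⁻¹ = b * (a * σ * a⁻¹) * b⁻¹ := by group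
        rw [this, hi, conj_pow' hj, ← pow_mul]
      have e3 : (b * a)⁻¹ * (a * b) * σ * ((b * a)⁻¹ * (a * b))⁻¹ = σ := by
        calc (b * a)⁻¹ * (a * b) * σ * ((b * a)⁻¹ * (a * b))⁻¹
            = (b * a)⁻¹ * ((a * b) * σ * (a * b)⁻¹) * (b * a) := by group
          _ = (b * a)⁻¹ * ((b * a) * σ * (b * a)⁻¹) * (b * a) := by rw [e1, e2]
          _ = σ := by group
      have e4 : (a * b) * (b * a)⁻¹ * σ = σ * ((a * b) * (b * a)⁻¹) := by
        -- `(ab)(ba)⁻¹` also centralises
        have e5 : ((a * b) * (b * a)⁻¹) * σ * ((a * b) * (b * a)⁻¹)⁻¹ = σ := by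
          -- (ba)⁻¹ σ (ba)
          have e6 : (a * b) * ((b * a)⁻¹ * σ * (b * a)) * (a * b)⁻¹ =
              (b * a) * ((b * a)⁻¹ * σ * (b * a)) * (b * a)⁻¹ := by
            have hmem : (b * a)⁻¹ * σ * (b * a) ∈ zpowers σ := by
              rw [← hNσ]
              have := hN.conj_mem σ hσN (b * a)⁻¹
              rwa [inv_inv] at this
            obtain ⟨k, hk⟩ := Subgroup.mem_zpowers_iff.mp hmem
            rw [← hk]
            rw [← conj_zpow, ← conj_zpow, e1, e2]
          calc ((a * b) * (b * a)⁻¹) * σ * ((a * b) * (b * a)⁻¹)⁻¹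
              = (a * b) * ((b * a)⁻¹ * σ * (b * a)) * (a * b)⁻¹ := by group
            _ = (b * a) * ((b * a)⁻¹ * σ * (b * a)) * (b * a)⁻¹ := e6
            _ = σ := by group
        calc (a * b) * (b * a)⁻¹ * σ
            = (((a * b) * (b * a)⁻¹) * σ * ((a * b) * (b * a)⁻¹)⁻¹) * ((a * b) * (b * a)⁻¹) := by
              group
          _ = σ * ((a * b) * (b * a)⁻¹) := by rw [e5]
      have e7 : a * b * a⁻¹ * b⁻¹ = (a * b) * (b * a)⁻¹ := by group
      rw [e7]; exact e4
    have h2 : a * b * a⁻¹ * b⁻¹ = 1 := by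
      by_contra hne
      exact hσ1 (hfix _ (H.mul_mem (H.mul_mem (H.mul_mem ha hb) (H.inv_mem ha)) (H.inv_mem hb))
        hne σ hσN h1)
    calc a * b = (a * b * a⁻¹ * b⁻¹) * (b * a) := by group
      _ = b * a := by rw [h2, one_mul]
  have hcomm : ∀ g k : G, g * k * g⁻¹ * k⁻¹ ∈ N := by
    intro g k
    obtain ⟨n, hn, a, ha, rfl⟩ := hdec g
    obtain ⟨m, hm, b, hb, rfl⟩ := hdec k
    rw [← QuotientGroup.eq_one_iff]
    have e1 : (n : G ⧸ N) = 1 := (QuotientGroup.eq_one_iff n).mpr hn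
    have e2 : (m : G ⧸ N) = 1 := (QuotientGroup.eq_one_iff m).mpr hm
    have e3 : (a : G ⧸ N) * b = b * a := by
      rw [← QuotientGroup.mk_mul, hcommH a ha b hb, QuotientGroup.mk_mul]
    rw [QuotientGroup.mk_mul, QuotientGroup.mk_mul, QuotientGroup.mk_mul, QuotientGroup.mk_inv,
      QuotientGroup.mk_inv, QuotientGroup.mk_mul, QuotientGroup.mk_mul, e1, e2, one_mul, one_mul,
      e3]
    group
  -- elements outside N
  have hout : ∀ g : G, g ∉ N → ∃ x : G, x * g * x⁻¹ ∈ H := by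
    intro g hg
    obtain ⟨n, hn, h, hh, rfl⟩ := hdec g
    have hh1 : h ≠ 1 := by
      rintro rfl
      rw [mul_one] at hg
      exact hg hn
    -- the map m ↦ m (h m⁻¹ h⁻¹) of N is injective
    let f : N → N := fun m => ⟨(m : G)⁻¹ * (h * m * h⁻¹),
      N.mul_mem (N.inv_mem m.2) (hN.conj_mem _ m.2 h)⟩
    have hf : Function.Injective f := by
      intro a b hab'
      have h1 : (a : G)⁻¹ * (h * a * h⁻¹) = (b : G)⁻¹ * (h * b * h⁻¹) := congrArg Subtype.val hab'
      have h2 : h * ((a : G) * (b : G)⁻¹) = ((a : G) * (b : G)⁻¹) * h := by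
        have c1 : h * (a : G) * h⁻¹ ∈ N := hN.conj_mem _ a.2 h
        have c2 : h * (b : G) * h⁻¹ ∈ N := hN.conj_mem _ b.2 h
        have h3 : (b : G) * (a : G)⁻¹ = (h * b * h⁻¹) * (h * a * h⁻¹)⁻¹ := by
          have h4 : (b : G) * (a : G)⁻¹ * (h * a * h⁻¹) = h * b * h⁻¹ := by
            rw [mul_assoc, h1]; group
          rw [← h4, mul_inv_cancel_right]
        have h5 : (h * b * h⁻¹) * (h * a * h⁻¹)⁻¹ = h * ((b : G) * (a : G)⁻¹) * h⁻¹ := by group
        rw [h5] at h3
        have h6 : (a : G) * (b : G)⁻¹ = h * ((a : G) * (b : G)⁻¹) * h⁻¹ := by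
          have h7 := congrArg (fun z => z⁻¹) h3
          simp only [mul_inv_rev, inv_inv] at h7
          rw [mul_assoc, ← h7]
        calc h * ((a : G) * (b : G)⁻¹) = (h * ((a : G) * (b : G)⁻¹) * h⁻¹) * h := by group
          _ = ((a : G) * (b : G)⁻¹) * h := by rw [← h6]
      have h8 := hfix h hh hh1 _ (N.mul_mem a.2 (N.inv_mem b.2)) h2
      exact Subtype.ext (mul_inv_eq_one.mp h8)
    have hfs : Function.Surjective f := Finite.surjective_of_injective hf
    obtain ⟨m, hm⟩ := hfs ⟨n⁻¹, N.inv_mem hn⟩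
    have hm' : (m : G)⁻¹ * (h * m * h⁻¹) = n⁻¹ := congrArg Subtype.val hm
    refine ⟨(m : G)⁻¹, ?_⟩
    have h1 : (m : G)⁻¹ * (n * h) * (m : G)⁻¹⁻¹ = h := by
      have h2 : n = (h * m * h⁻¹)⁻¹ * m := by
        have := congrArg (fun z => z⁻¹) hm'
        simp only [mul_inv_rev, inv_inv] at this
        rw [← this]; group
      have c1 : h * (m : G) * h⁻¹ ∈ N := hN.conj_mem _ m.2 h
      have h3 : (m : G)⁻¹ * n = n * (m : G)⁻¹ := hab _ (N.inv_mem m.2) _ hn
      rw [inv_inv]
      calc (m : G)⁻¹ * (n * h) * m = ((m : G)⁻¹ * n) * h * m := by group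
        _ = n * (m : G)⁻¹ * h * m := by rw [h3]
        _ = (h * m * h⁻¹)⁻¹ * m * (m : G)⁻¹ * h * m := by rw [← h2]
        _ = h := by group
    rw [h1]; exact hh
  -- H is cyclic
  have hHcyc : IsCyclic H := by
    have hc : IsCyclic N := by rw [hNσ]; infer_instance
    have e1 : IsCyclic (MulAut N) := by
      have e2 := (IsCyclic.mulAutMulEquiv N)
      have e3 : IsCyclic (ZMod (Nat.card N))ˣ := by
        rw [hcard]; infer_instance
      exact isCyclic_of_surjective e2.symm.toMonoidHom e2.symm.surjective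
    let φ : H →* MulAut N := (MulAut.conjNormal (H := N)).comp H.subtype
    apply isCyclic_of_injective φ
    rw [← MonoidHom.ker_eq_bot_iff, Subgroup.eq_bot_iff_forall]
    intro h hh
    rw [MonoidHom.mem_ker] at hh
    by_contra hne
    apply hσ1
    apply hfix (h : G) h.2 (fun e => hne (Subtype.ext e)) σ hσN
    have h1 := congrArg (fun f : MulAut N => ((f ⟨σ, hσN⟩ : N) : G)) hh
    simp only [φ, MonoidHom.comp_apply, Subgroup.coe_subtype, MulAut.conjNormal_apply,
      MulAut.one_apply] at h1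
    calc (h : G) * σ = ((h : G) * σ * (h : G)⁻¹) * h := by group
      _ = σ * h := by rw [h1]
  obtain ⟨τ', hτ'⟩ := hHcyc.exists_generator
  have hHτ : H = zpowers (τ' : G) := by
    apply le_antisymm
    · intro x hx
      obtain ⟨k, hk⟩ := Subgroup.mem_zpowers_iff.mp (hτ' ⟨x, hx⟩)
      rw [Subgroup.mem_zpowers_iff]
      refine ⟨k, ?_⟩
      have := congrArg Subtype.val hk
      simpa using this
    · rw [zpowers_le]; exact τ'.2
  obtain ⟨c, hc⟩ := hpow (τ' : G)
  have hτo : orderOf (τ' : G) = Nat.card H := by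
    rw [← Nat.card_zpowers, ← hHτ]
  have horder : orderOf (c : ZMod p) = Nat.card H := by
    rw [← hτo]
    apply Nat.dvd_antisymm
    · apply orderOf_dvd_of_pow_eq_one
      have h1 := conj_pow_pow hc (orderOf (τ' : G))
      rw [pow_orderOf_eq_one, one_mul, inv_one, mul_one] at h1
      have h2 : σ ^ 1 = σ ^ (c ^ orderOf (τ' : G)) := by rw [pow_one]; exact h1
      rw [pow_eq_pow_iff_modEq, hσo] at h2
      have h3 := (ZMod.natCast_eq_natCast_iff _ _ _).mpr h2
      push_cast at h3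
      exact h3.symm
    · apply orderOf_dvd_of_pow_eq_one
      by_contra hne
      apply hσ1
      apply hfix _ (H.pow_mem τ'.2 _) hne σ hσN
      have h1 := conj_pow_pow hc (orderOf (c : ZMod p))
      have h2 : σ ^ (c ^ orderOf (c : ZMod p)) = σ := by
        nth_rewrite 2 [← pow_one σ]
        rw [pow_eq_pow_iff_modEq, hσo, ← ZMod.natCast_eq_natCast_iff]
        push_cast
        exact pow_orderOf_eq_one _
      rw [h2] at h1
      calc (τ' : G) ^ orderOf (c : ZMod p) * σ
          = ((τ' : G) ^ orderOf (c : ZMod p) * σ * ((τ' : G) ^ orderOf (c : ZMod p))⁻¹) *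
            (τ' : G) ^ orderOf (c : ZMod p) := by group
        _ = σ * (τ' : G) ^ orderOf (c : ZMod p) := by rw [h1]
  refine ⟨N, hN, hcard, hinf, hsup, hcomm, hfix, hout, σ, τ', c, hNσ, hHτ, hσo, hc, horder, ?_⟩
  rw [← horder]
  apply ZMod.orderOf_dvd_card_sub_one
  intro h0
  rw [h0] at horder
  have h1 : orderOf (0 : ZMod p) = 0 := by
    rw [orderOf_eq_zero_iff']
    intro n hn
    rw [zero_pow hn.ne']
    exact zero_ne_one
  rw [h1] at horder
  exact Nat.card_pos.ne horder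

end grp

end Pool.Agent.Lib.MP_695920_nt.Solv
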