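import Mathlib

set_option autoImplicit false

open Finset

namespace Pool.Agent.Lib.MP_695920_nt.Solv

lemma pow_le_exp (k : ℕ) {ε : ℝ} (hε : 0 < ε) :
    ∃ C : ℝ, 0 < C ∧ ∀ u : ℝ, 0 ≤ u → u ^ k ≤ C * Real.exp (ε * u) := by
  refine ⟨(k.factorial : ℝ) / ε ^ k, by positivity, ?_⟩
  intro u hu
  have h1 := Real.pow_div_factorial_le_exp (ε * u) (by positivity) k
  have hf : (0 : ℝ) < k.factorial := by exact_mod_cast k.factorial_pos
  rw [div_le_iff₀ hf, mul_pow] at h1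
  have h2 : 0 < ε ^ k := by positivity
  rw [div_mul_eq_mul_div, le_div_iff₀ h2]
  linarith

lemma count_lower {δ ε c₂ B₁ B₂ : ℝ} (hε : 0 < ε) (hεδ : ε < δ) (hB₁ : 0 ≤ B₁) (hB₂ : 0 ≤ B₂)
    (hc₂ : 0 ≤ c₂) :
    ∃ u₀ : ℝ, 0 ≤ u₀ ∧ ∀ u : ℝ, u₀ ≤ u → (10 : ℝ) ^ 8 ≤ (⌊Real.exp (δ * u - c₂)⌋₊ : ℝ) ∧
      Real.exp ((δ - ε) * u) ≤ (⌊Real.exp (δ * u - c₂)⌋₊ : ℝ) /
        (2 * Real.log (⌊Real.exp (δ * u - c₂)⌋₊ : ℝ)) - (B₁ + B₂ * u) := by
  have hδ : 0 < δ := hε.trans hεδ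
  obtain ⟨C1, hC1, h1⟩ := pow_le_exp 1 (ε := ε / 2) (by positivity)
  obtain ⟨C2, hC2, h2⟩ := pow_le_exp 2 (ε := ε / 2) (by positivity)
  -- a threshold for the exponential
  set K : ℝ := Real.exp c₂ * (1 + 2 * δ * ((1 + B₁) * C1 + B₂ * C2)) with hK
  have hK0 : 0 < K := by positivity
  refine ⟨max (max (2 / ε * Real.log K) ((Real.log (10 ^ 8 + 1) + c₂) / δ)) 0, le_max_right _ _, ?_⟩
  intro u hu
  have hu0 : 0 ≤ u := (le_max_right _ _).trans hu
  have hu1 : 2 / ε * Real.log K ≤ u := ((le_max_left _ _).trans (le_max_left _ _)).trans hu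
  have hu2 : (Real.log (10 ^ 8 + 1) + c₂) / δ ≤ u :=
    ((le_max_right _ _).trans (le_max_left _ _)).trans hu
  set X : ℝ := Real.exp (δ * u - c₂) with hX
  have hXbig : 10 ^ 8 + 1 ≤ X := by
    rw [div_le_iff₀ hδ] at hu2
    rw [hX, ← Real.exp_log (show (0 : ℝ) < 10 ^ 8 + 1 by norm_num)]
    apply Real.exp_le_exp.mpr
    linarith
  set y : ℝ := (⌊X⌋₊ : ℝ) with hy
  have hy1 : X - 1 ≤ y := by
    have := Nat.lt_floor_add_one X
    linarith
  have hy2 : y ≤ X := Nat.floor_le (by linarith)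
  have hybig : (10 : ℝ) ^ 8 ≤ y := by linarith
  refine ⟨hybig, ?_⟩
  have hy0 : 0 < y := lt_of_lt_of_le (by norm_num) hybig
  have hlogy : 0 < Real.log y := Real.log_pos (lt_of_lt_of_le (by norm_num) hybig)
  have hlogy2 : Real.log y ≤ δ * u := by
    have h3 := Real.log_le_log hy0 hy2
    rw [hX, Real.log_exp] at h3
    linarith
  have hδu : 0 < δ * u := lt_of_lt_of_le hlogy hlogy2
  -- main inequality
  have h3 : y / (2 * (δ * u)) ≤ y / (2 * Real.log y) := by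
    apply div_le_div_of_nonneg_left hy0.le (by positivity)
    linarith
  have h4 : Real.exp ((δ - ε) * u) + (B₁ + B₂ * u) ≤ y / (2 * (δ * u)) := by
    rw [le_div_iff₀ (by positivity)]
    have hE : 0 < Real.exp ((δ - ε) * u) := Real.exp_pos _
    have hE1 : 1 ≤ Real.exp ((δ - ε) * u) := by
      rw [← Real.exp_zero]
      apply Real.exp_le_exp.mpr
      apply mul_nonneg _ hu0
      linarith
    have hKle : K ≤ Real.exp (ε / 2 * u) := by
      rw [← Real.exp_log hK0]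
      apply Real.exp_le_exp.mpr
      rw [div_mul_eq_mul_div, div_le_iff₀ hε] at hu1
      linarith
    have h5 := h1 u hu0
    have h6 := h2 u hu0
    rw [pow_one] at h5
    set F : ℝ := Real.exp (ε / 2 * u) with hF
    have hF1 : 1 ≤ F := by
      rw [hF, ← Real.exp_zero]
      apply Real.exp_le_exp.mpr
      positivity
    have hXeq : X = Real.exp ((δ - ε) * u) * (F * F) * Real.exp (-c₂) := by
      rw [hX, hF, ← Real.exp_add, ← Real.exp_add, ← Real.exp_add]
      congr 1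
      ring
    have h7 : Real.exp ((δ - ε) * u) * (1 + 2 * δ * ((1 + B₁) * (C1 * F) + B₂ * (C2 * F))) ≤ X := by
      rw [hXeq, mul_assoc (Real.exp ((δ - ε) * u))]
      apply mul_le_mul_of_nonneg_left _ hE.le
      have h8 : (1 + 2 * δ * ((1 + B₁) * (C1 * F) + B₂ * (C2 * F))) ≤
          (1 + 2 * δ * ((1 + B₁) * C1 + B₂ * C2)) * F := by
        have : (1 + 2 * δ * ((1 + B₁) * C1 + B₂ * C2)) * F =
          F + 2 * δ * ((1 + B₁) * (C1 * F) + B₂ * (C2 * F)) := by ring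
        rw [this]
        linarith
      refine h8.trans ?_
      have h9 : (1 + 2 * δ * ((1 + B₁) * C1 + B₂ * C2)) = K * Real.exp (-c₂) := by
        rw [hK, Real.exp_neg]
        field_simp
      rw [h9]
      calc K * Real.exp (-c₂) * F ≤ F * Real.exp (-c₂) * F := by
            apply mul_le_mul_of_nonneg_right _ (by linarith)
            exact mul_le_mul_of_nonneg_right hKle (Real.exp_pos _).le
        _ = F * F * Real.exp (-c₂) := by ring
    have h10 : (Real.exp ((δ - ε) * u) + (B₁ + B₂ * u)) * (2 * (δ * u)) + 1 ≤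
        Real.exp ((δ - ε) * u) * (1 + 2 * δ * ((1 + B₁) * (C1 * F) + B₂ * (C2 * F))) := by
      set E := Real.exp ((δ - ε) * u) with hEdef
      have e1 : (E + (B₁ + B₂ * u)) * (2 * (δ * u)) + 1 =
          E * (2 * δ * u) + 2 * δ * (B₁ * u) + 2 * δ * (B₂ * u ^ 2) + 1 := by ring
      have e2 : E * (1 + 2 * δ * ((1 + B₁) * (C1 * F) + B₂ * (C2 * F))) =
          E * (2 * δ * (C1 * F)) + E * (2 * δ * (B₁ * (C1 * F))) + E * (2 * δ * (B₂ * (C2 * F)))
            + E := by ring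
      rw [e1, e2]
      have e3 : E * (2 * δ * u) ≤ E * (2 * δ * (C1 * F)) := by gcongr
      have e4 : 2 * δ * (B₁ * u) ≤ E * (2 * δ * (B₁ * (C1 * F))) := by
        calc 2 * δ * (B₁ * u) ≤ 2 * δ * (B₁ * (C1 * F)) := by gcongr
          _ = 1 * (2 * δ * (B₁ * (C1 * F))) := (one_mul _).symm
          _ ≤ E * (2 * δ * (B₁ * (C1 * F))) := by
              apply mul_le_mul_of_nonneg_right hE1
              positivity
      have e5 : 2 * δ * (B₂ * u ^ 2) ≤ E * (2 * δ * (B₂ * (C2 * F))) := by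
        calc 2 * δ * (B₂ * u ^ 2) ≤ 2 * δ * (B₂ * (C2 * F)) := by gcongr
          _ = 1 * (2 * δ * (B₂ * (C2 * F))) := (one_mul _).symm
          _ ≤ E * (2 * δ * (B₂ * (C2 * F))) := by
              apply mul_le_mul_of_nonneg_right hE1
              positivity
      linarith
    linarith
  linarith

end Pool.Agent.Lib.MP_695920_nt.Solv
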