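import Mathlib
import Pool.Agent.Lib.MP_695920_nt.Solv.Analysis

set_option autoImplicit false

open Finset

namespace Pool.Agent.Lib.MP_695920_nt.Solv

/-- the purely numerical part of the argument -/
theorem numeric (p d a : ℕ) (hp3 : 3 ≤ p) (hda : d * a = p - 1) (δ ε' : ℝ) (hε' : 0 < ε')
    (hδ : 2 * (p : ℝ) * ((p : ℝ) - 1) * δ = 1) (hεδ : ε' < δ) (c c₃ Ck B₁ B₂ : ℝ) (hc : 0 < c)
    (hc₃ : 0 ≤ c₃) (hCk : 0 < Ck) (hB₁ : 0 < B₁) (hB₂ : 0 < B₂) :
    ∃ C : ℝ, 0 < C ∧ ∀ u v NK NE : ℝ, 0 ≤ u → 0 ≤ v → 0 ≤ NK → 0 ≤ NE →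
      (d : ℝ) * a * v ≤ d * (d * a * Real.log d) + d * u →
      NK ≤ Ck * Real.exp (ε' * u) * NE ^ a →
      (d = 1 → NE ≤ 1) →
      (1 < d → NE ≤ B₂ * Real.exp (v / 2) * v ^ d) →
      (c * Real.exp ((δ - ε') * u) * NK ≤ B₁ * Real.exp (u / 2) * u ^ p ∨
       (1 < d ∧ c * Real.exp ((δ - ε') * u) * NE ≤ B₂ * Real.exp (v / 2) * v ^ d) ∨
       (d = 1 ∨ v ≤ c₃ + ((d : ℝ) - 1) / ((p : ℝ) - 1) * u)) →
      NK ≤ C * Real.exp ((1 / 2 - δ + 4 * ε') * u) := by
  have hpR : (3 : ℝ) ≤ p := by exact_mod_cast hp3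
  have hdpos : 0 < d := by
    rcases Nat.eq_zero_or_pos d with h | h
    · rw [h, zero_mul] at hda; omega
    · exact h
  have hapos : 0 < a := by
    rcases Nat.eq_zero_or_pos a with h | h
    · rw [h, mul_zero] at hda; omega
    · exact h
  have hdR : (1 : ℝ) ≤ d := by exact_mod_cast hdpos
  have haR : (1 : ℝ) ≤ a := by exact_mod_cast hapos
  have hdaR : (d : ℝ) * a = (p : ℝ) - 1 := by
    have h1 : ((d * a : ℕ) : ℝ) = ((p - 1 : ℕ) : ℝ) := by rw [hda]
    rw [Nat.cast_mul, Nat.cast_sub (by omega), Nat.cast_one] at h1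
    exact h1
  have hδ0 : 0 < δ := hε'.trans hεδ
  have hlogd : 0 ≤ Real.log d := Real.log_nonneg hdR
  set c₀ : ℝ := d * a * Real.log d with hc₀
  have hc₀0 : 0 ≤ c₀ := by positivity
  have hp1 : (0 : ℝ) < (p : ℝ) - 1 := by linarith
  have hpp : (1 : ℝ) ≤ (p : ℝ) * ((p : ℝ) - 1) := by nlinarith
  have hδhalf : δ ≤ 1 / 2 := by
    have h1 : δ * 1 ≤ δ * ((p : ℝ) * ((p : ℝ) - 1)) := mul_le_mul_of_nonneg_left hpp hδ0.le
    linarith
  have hδd : δ ≤ 1 / (2 * d) := by
    rw [le_div_iff₀ (by positivity)]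
    have h1 : (d : ℝ) ≤ (p : ℝ) - 1 := by
      rw [← hdaR]
      exact le_mul_of_one_le_right (by linarith) haR
    have h2 : (d : ℝ) ≤ (p : ℝ) * ((p : ℝ) - 1) := by
      refine h1.trans ?_
      exact le_mul_of_one_le_left hp1.le (by linarith)
    have h3 : δ * d ≤ δ * ((p : ℝ) * ((p : ℝ) - 1)) := mul_le_mul_of_nonneg_left h2 hδ0.le
    linarith
  obtain ⟨C1, hC1, h1⟩ := pow_le_exp p hε'
  obtain ⟨C2, hC2, h2⟩ := pow_le_exp (d * a) hε'
  set K1 : ℝ := B₁ / c * C1 with hK1
  set K2 : ℝ := Ck * (B₂ / c) ^ a * C2 * Real.exp (ε' * c₀) * Real.exp (c₀ / 2) with hK2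
  set K3 : ℝ := Ck * B₂ ^ a * C2 * Real.exp (ε' * c₀) * Real.exp (a * c₃ / 2) with hK3
  refine ⟨K1 + K2 + K3 + Ck, by positivity, ?_⟩
  intro u v NK NE hu hv hNK hNE hav hkey hd1 htriv hcases
  -- discriminant inequality
  have hav' : (a : ℝ) * v ≤ c₀ + u := by
    have hd0 : (0 : ℝ) < d := by linarith
    have h3 : (d : ℝ) * (a * v) ≤ d * (c₀ + u) := by
      calc (d : ℝ) * (a * v) = d * a * v := by ring
        _ ≤ d * c₀ + d * u := hav
        _ = d * (c₀ + u) := by ring
    exact le_of_mul_le_mul_left h3 hd0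
  have hv' : v ≤ c₀ + u := (le_mul_of_one_le_left hv haR).trans hav'
  have hεu : 0 ≤ ε' * u := mul_nonneg hε'.le hu
  have hvpow : v ^ (d * a) ≤ C2 * Real.exp (ε' * c₀) * Real.exp (ε' * u) := by
    refine (pow_le_pow_left₀ hv hv' _).trans ?_
    refine (h2 (c₀ + u) (by linarith)).trans (le_of_eq ?_)
    rw [mul_assoc, ← Real.exp_add]
    congr 2
    ring
  -- comparison of the final exponentials
  have hfin : ∀ K x : ℝ, 0 ≤ K → x ≤ (1 / 2 - δ + 4 * ε') * u → K ≤ K1 + K2 + K3 + Ck →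
      K * Real.exp x ≤ (K1 + K2 + K3 + Ck) * Real.exp ((1 / 2 - δ + 4 * ε') * u) := by
    intro K x hK hx hKK
    exact mul_le_mul hKK (Real.exp_le_exp.mpr hx) (Real.exp_pos _).le (by positivity)
  rcases hcases with hcase | ⟨hd2, hcase⟩ | hcase
  · -- primes in K
    have hE : 0 < c * Real.exp ((δ - ε') * u) := by positivity
    have h3 : NK ≤ K1 * Real.exp (u / 2 - (δ - ε') * u + ε' * u) := by
      have h4 : NK ≤ B₁ * Real.exp (u / 2) * u ^ p / (c * Real.exp ((δ - ε') * u)) := by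
        rw [le_div_iff₀ hE]
        linarith
      refine h4.trans ?_
      have h5 : B₁ * Real.exp (u / 2) * u ^ p ≤ B₁ * Real.exp (u / 2) * (C1 * Real.exp (ε' * u)) := by
        apply mul_le_mul_of_nonneg_left (h1 u hu)
        positivity
      refine (div_le_div_of_nonneg_right h5 hE.le).trans (le_of_eq ?_)
      rw [hK1, Real.exp_add, Real.exp_sub]
      field_simp
    refine h3.trans (hfin K1 _ (by positivity) ?_ ?_)
    · linarith
    · have : 0 ≤ K2 + K3 + Ck := by positivity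
      linarith
  · -- primes in E
    have hE : 0 < c * Real.exp ((δ - ε') * u) := by positivity
    have h4 : NE ≤ B₂ / c * (Real.exp (v / 2) * v ^ d * Real.exp (-((δ - ε') * u))) := by
      have h5 : NE ≤ B₂ * Real.exp (v / 2) * v ^ d / (c * Real.exp ((δ - ε') * u)) := by
        rw [le_div_iff₀ hE]
        linarith
      refine h5.trans (le_of_eq ?_)
      rw [Real.exp_neg]
      field_simp
    have h6 : NE ^ a ≤ (B₂ / c) ^ a * (Real.exp (a * v / 2) * v ^ (d * a) *
        Real.exp (-((δ - ε') * u))) := by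
      refine (pow_le_pow_left₀ hNE h4 a).trans ?_
      rw [mul_pow, mul_pow, mul_pow, ← pow_mul, ← Real.exp_nat_mul, ← Real.exp_nat_mul]
      apply mul_le_mul_of_nonneg_left _ (by positivity)
      apply mul_le_mul
      · apply le_of_eq
        congr 2
        ring
      · apply Real.exp_le_exp.mpr
        have : 0 ≤ (δ - ε') * u := by
          apply mul_nonneg _ hu
          linarith
        have h9 := le_mul_of_one_le_left this haR
        linarith
      · exact (Real.exp_pos _).le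
      · positivity
    have h7 : Real.exp (a * v / 2) ≤ Real.exp (c₀ / 2) * Real.exp (u / 2) := by
      rw [← Real.exp_add]
      apply Real.exp_le_exp.mpr
      linarith
    have h8 : NK ≤ K2 * Real.exp (ε' * u + u / 2 + ε' * u + -((δ - ε') * u)) := by
      calc NK ≤ Ck * Real.exp (ε' * u) * NE ^ a := hkey
        _ ≤ Ck * Real.exp (ε' * u) * ((B₂ / c) ^ a * (Real.exp (a * v / 2) * v ^ (d * a) *
            Real.exp (-((δ - ε') * u)))) := by
            apply mul_le_mul_of_nonneg_left h6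
            positivity
        _ ≤ Ck * Real.exp (ε' * u) * ((B₂ / c) ^ a * ((Real.exp (c₀ / 2) * Real.exp (u / 2)) *
            (C2 * Real.exp (ε' * c₀) * Real.exp (ε' * u)) * Real.exp (-((δ - ε') * u)))) := by
            gcongr
        _ = _ := by
            rw [hK2, Real.exp_add, Real.exp_add, Real.exp_add]
            ring
    refine h8.trans (hfin K2 _ (by positivity) ?_ ?_)
    · linarith
    · have : 0 ≤ K1 + K3 + Ck := by positivity
      linarith
  · by_cases hdd : d = 1
    · have h3 : NE ^ a ≤ 1 := pow_le_one₀ hNE (hd1 hdd)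
      have h4 : NK ≤ Ck * Real.exp (ε' * u) := by
        calc NK ≤ Ck * Real.exp (ε' * u) * NE ^ a := hkey
          _ ≤ Ck * Real.exp (ε' * u) * 1 := by
              apply mul_le_mul_of_nonneg_left h3
              positivity
          _ = _ := mul_one _
      refine h4.trans (hfin Ck _ hCk.le ?_ ?_)
      · apply mul_le_mul_of_nonneg_right _ hu
        linarith
      · have : 0 ≤ K1 + K2 + K3 := by positivity
        linarith
    · have hd2 : 1 < d := by omega
      have hvle := hcase.resolve_left hdd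
      have h3 := htriv hd2
      have h6 : NE ^ a ≤ B₂ ^ a * (Real.exp (a * v / 2) * v ^ (d * a)) := by
        refine (pow_le_pow_left₀ hNE h3 a).trans (le_of_eq ?_)
        rw [mul_pow, mul_pow, ← pow_mul, ← Real.exp_nat_mul, mul_assoc]
        congr 3
        ring
      have h7 : Real.exp (a * v / 2) ≤ Real.exp (a * c₃ / 2) *
          Real.exp ((1 / 2 - 1 / (2 * d)) * u) := by
        rw [← Real.exp_add]
        apply Real.exp_le_exp.mpr
        have h8 : (a : ℝ) * v ≤ a * (c₃ + ((d : ℝ) - 1) / ((p : ℝ) - 1) * u) :=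
          mul_le_mul_of_nonneg_left hvle (by linarith)
        have h9 : (a : ℝ) * (((d : ℝ) - 1) / ((p : ℝ) - 1) * u) = (1 - 1 / d) * u := by
          rw [← hdaR]
          have hd0 : (d : ℝ) ≠ 0 := by linarith
          have ha0 : (a : ℝ) ≠ 0 := by linarith
          field_simp
        have h10 : (1 / 2 - 1 / (2 * (d : ℝ))) * u = ((1 - 1 / d) * u) / 2 := by
          have hd0 : (d : ℝ) ≠ 0 := by linarith
          field_simp
        rw [h10, ← h9]
        linarith
      have h8 : NK ≤ K3 * Real.exp (ε' * u + (1 / 2 - 1 / (2 * d)) * u + ε' * u) := by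
        calc NK ≤ Ck * Real.exp (ε' * u) * NE ^ a := hkey
          _ ≤ Ck * Real.exp (ε' * u) * (B₂ ^ a * (Real.exp (a * v / 2) * v ^ (d * a))) := by
              apply mul_le_mul_of_nonneg_left h6
              positivity
          _ ≤ Ck * Real.exp (ε' * u) * (B₂ ^ a * ((Real.exp (a * c₃ / 2) *
              Real.exp ((1 / 2 - 1 / (2 * d)) * u)) *
              (C2 * Real.exp (ε' * c₀) * Real.exp (ε' * u)))) := by
              gcongr
          _ = _ := by
              rw [hK3, Real.exp_add, Real.exp_add]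
              ring
      refine h8.trans (hfin K3 _ (by positivity) ?_ ?_)
      · have : δ * u ≤ 1 / (2 * d) * u := mul_le_mul_of_nonneg_right hδd hu
        linarith
      · have : 0 ≤ K1 + K2 + Ck := by positivity
        linarith

end Pool.Agent.Lib.MP_695920_nt.Solv
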