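import Mathlib
import Pool.Agent.Lib.MP_695920_nt.EVCount
import Pool.Agent.Lib.MP_695920_nt.NoInertBound
import Pool.Agent.Lib.MP_695920_nt.Decomp

set_option autoImplicit false

open Finset NumberField Module IsDedekindDomain
open scoped nonZeroDivisors Pointwise

namespace Pool.Agent.Lib.MP_695920_nt.Solv

/-- the Ellenberg-Venkatesh bound with small unramified primes of degree one and the sharp range -/
theorem ev_sharp {M : Type*} [Field M] [NumberField M] {l : ℕ} (hl : 0 < l)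
    (hn2 : 1 < finrank ℚ M) (G : Finset ℕ) (y : ℝ) (hy1 : 1 ≤ y)
    (hG : ∀ p ∈ G, p.Prime ∧ (p : ℝ) ≤ y ∧ ∃ P : Ideal (𝓞 M), UGood P ∧ Ideal.absNorm P = p)
    (hy : 2 * l * ((finrank ℚ M : ℝ) - 1) * Real.log y +
      2 * l * finrank ℚ M * ((finrank ℚ M : ℝ) - 1) < Real.log |(discr M : ℝ)|) :
    (1 + G.card : ℝ) * (Nat.card {x : ClassGroup (𝓞 M) // x ^ l = 1} : ℝ) ≤
      Bn (finrank ℚ M) * Real.sqrt |(discr M : ℝ)| * Real.log |(discr M : ℝ)| ^ finrank ℚ M := by
  classical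
  refine le_trans ?_ (sum_bound' hn2)
  choose! c hc using fun p (hp : p ∈ G) => (hG p hp).2.2
  have hcinj : Set.InjOn c (G : Set ℕ) := by
    intro p hp q hq hpq
    rw [← (hc p hp).2, ← (hc q hq).2, hpq]
  have hAcard : (insert ⊤ (G.image c)).card = G.card + 1 := by
    rw [Finset.card_insert_of_notMem, Finset.card_image_of_injOn hcinj]
    intro h
    rw [mem_image] at h
    obtain ⟨p, hp, hpt⟩ := h
    have h1 := (hc p hp).2
    rw [hpt, Ideal.absNorm_top] at h1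
    exact (hG p hp).1.one_lt.ne h1
  have hAmem : ∀ P ∈ insert ⊤ (G.image c), P = ⊤ ∨
      ∃ p ∈ G, P = c p ∧ Ideal.absNorm P = p ∧ UGood P := by
    intro P hP
    rw [mem_insert, mem_image] at hP
    rcases hP with h | ⟨p, hp, h⟩
    · exact Or.inl h
    · exact Or.inr ⟨p, hp, h.symm, h ▸ (hc p hp).2, h ▸ (hc p hp).1⟩
  have hAnorm : ∀ P ∈ insert ⊤ (G.image c), (Ideal.absNorm P : ℝ) ≤ y := by
    intro P hP
    rcases hAmem P hP with h | ⟨p, hp, _, h, _⟩
    · rw [h, Ideal.absNorm_top]; push_cast; linarith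
    · rw [h]; exact (hG p hp).2.1
  have hfin := ev_count' (K := M) (M := M) hl (insert ⊤ (G.image c)) ?_ ?_ ?_
  · rw [hAcard] at hfin
    push_cast at hfin
    calc (1 + G.card : ℝ) * (Nat.card {x : ClassGroup (𝓞 M) // x ^ l = 1} : ℝ)
        = (G.card + 1 : ℝ) * (Nat.card {x : ClassGroup (𝓞 M) // x ^ l = 1} : ℝ) := by ring
      _ ≤ _ := hfin
  · intro P hP
    rcases hAmem P hP with h | ⟨p, hp, h, h', h''⟩
    · exact Or.inl h
    · exact Or.inr h''
  · intro P hP Q hQ hPQ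
    simp only at hPQ
    rcases hAmem P hP with h | ⟨p, hp, h, hNP, _⟩ <;> rcases hAmem Q hQ with h' | ⟨q, hq, h', hNQ, _⟩
    · rw [h, h']
    · exfalso
      rw [h, Ideal.absNorm_top, hNQ] at hPQ
      exact (hG q hq).1.one_lt.ne hPQ
    · exfalso
      rw [h', Ideal.absNorm_top, hNP] at hPQ
      exact (hG p hp).1.one_lt.ne hPQ.symm
    · have : p = q := by rw [← hNP, ← hNQ, hPQ]
      rw [h, h', this]
  · intro P hP Q hQ hne
    have hPy := hAnorm P hP
    have hQy := hAnorm Q hQ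
    have hy0 : 0 < y := by linarith
    have hlogy : 0 ≤ Real.log y := Real.log_nonneg hy1
    have hm1 : finrank M M = 1 := finrank_self M
    rw [hm1]
    set n := finrank ℚ M with hn
    have hn1 : 1 ≤ n := hn2.le
    have hnr : (1 : ℝ) ≤ n := by exact_mod_cast hn1
    have hlr : (1 : ℝ) ≤ l := by exact_mod_cast hl
    have hD0 : (0 : ℝ) < |(discr M : ℝ)| := abs_pos.mpr (by exact_mod_cast discr_ne_zero M)
    have h1 : (2 * Real.exp (((1 : ℕ) : ℝ) * l)) ≤ Real.exp (2 * l) := by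
      have h2 : (2 : ℝ) ≤ Real.exp (l : ℝ) := by
        have := Real.add_one_le_exp (l : ℝ)
        linarith
      rw [Nat.cast_one, one_mul, two_mul (l : ℝ), Real.exp_add]
      exact mul_le_mul_of_nonneg_right h2 (Real.exp_pos _).le
    have h3 : (Ideal.absNorm P : ℝ) * (Ideal.absNorm Q : ℝ) ≤ Real.exp (2 * Real.log y) := by
      rw [two_mul, Real.exp_add, Real.exp_log hy0]
      exact mul_le_mul hPy hQy (Nat.cast_nonneg _) (by positivity)
    have h4 : ((n - 1 : ℕ) : ℝ) = (n : ℝ) - 1 := by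
      rw [Nat.cast_sub hn1, Nat.cast_one]
    calc (2 * Real.exp (((1 : ℕ) : ℝ) * l)) ^ (n * (n - 1)) *
          ((Ideal.absNorm P : ℝ) * (Ideal.absNorm Q : ℝ)) ^ (1 * l * (n - 1))
        ≤ (Real.exp (2 * l)) ^ (n * (n - 1)) *
          (Real.exp (2 * Real.log y)) ^ (1 * l * (n - 1)) := by
          gcongr
      _ = Real.exp (2 * l * (n - 1) * Real.log y + 2 * l * n * ((n : ℝ) - 1)) := by
          rw [← Real.exp_nat_mul, ← Real.exp_nat_mul, ← Real.exp_add]
          congr 1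
          push_cast
          rw [h4]
          ring
      _ < Real.exp (Real.log |(discr M : ℝ)|) := Real.exp_lt_exp.mpr hy
      _ = |(discr M : ℝ)| := Real.exp_log hD0

/-- the dichotomy for unramified primes -/
lemma dichotomy {L : Type*} [Field L] [NumberField L] [IsGalois ℚ L] {N H : Subgroup Gal(L/ℚ)}
    (hout : ∀ g : Gal(L/ℚ), g ∉ N → ∃ x : Gal(L/ℚ), x * g * x⁻¹ ∈ H) {q : ℕ} (hq : q.Prime)
    (hunr : ¬ q ∣ (discr L).natAbs) :
    (∃ P : Ideal (𝓞 (fixF L N)), UGood P ∧ Ideal.absNorm P = q) ∨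
    (∃ P : Ideal (𝓞 (fixF L H)), UGood P ∧ Ideal.absNorm P = q) := by
  obtain ⟨P, hP, hP0, hmem⟩ := exists_prime_above (K := L) hq
  have hcyc := isCyclic_stabilizer hq hunr hP hP0 hmem
  obtain ⟨g, hg⟩ := hcyc.exists_generator
  have hgen : ∀ s ∈ MulAction.stabilizer Gal(L/ℚ) P, ∃ k : ℤ, (g : Gal(L/ℚ)) ^ k = s := by
    intro s hs
    obtain ⟨k, hk⟩ := Subgroup.mem_zpowers_iff.mp (hg ⟨s, hs⟩)
    exact ⟨k, by rw [← Subgroup.coe_zpow, hk]⟩
  by_cases hgN : (g : Gal(L/ℚ)) ∈ N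
  · left
    have hle : MulAction.stabilizer Gal(L/ℚ) P ≤ N := by
      intro s hs
      obtain ⟨k, rfl⟩ := hgen s hs
      exact N.zpow_mem hgN k
    exact ⟨_, under_ugood hq hP hP0 hmem hle⟩
  · right
    obtain ⟨x, hx⟩ := hout g hgN
    have hP' : (x • P).IsPrime := hP.smul x
    have hmem' : (q : 𝓞 L) ∈ x • P := by
      rw [Ideal.mem_pointwise_smul_iff_inv_smul_mem]
      have h1 : x⁻¹ • (q : 𝓞 L) = (q : 𝓞 L) :=
        map_natCast (MulSemiringAction.toRingHom Gal(L/ℚ) (𝓞 L) x⁻¹) q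
      rw [h1]
      exact hmem
    have hP'0 : x • P ≠ ⊥ := by
      intro h0
      rw [h0, Ideal.mem_bot] at hmem'
      exact hq.ne_zero (by exact_mod_cast hmem')
    have hle : MulAction.stabilizer Gal(L/ℚ) (x • P) ≤ H := by
      intro s hs
      have h1 : x⁻¹ * s * x ∈ MulAction.stabilizer Gal(L/ℚ) P := by
        rw [MulAction.mem_stabilizer_iff] at hs ⊢
        rw [mul_smul, mul_smul, hs, inv_smul_smul]
      obtain ⟨k, hk⟩ := hgen _ h1
      have h2 : s = (x * g * x⁻¹) ^ k := by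
        rw [conj_zpow, hk]
        group
      rw [h2]
      exact H.zpow_mem hx k
    exact ⟨_, under_ugood hq hP' hP'0 hmem' hle⟩

end Pool.Agent.Lib.MP_695920_nt.Solv
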