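import Mathlib
import Pool.Agent.Lib.MP_695920_nt.GeneralFinal
import Pool.Agent.Lib.MP_695920_nt.Solv.EVSharp
import Pool.Agent.Lib.MP_695920_nt.Solv.Omega
import Pool.Agent.Lib.MP_695920_nt.Solv.Analysis

set_option autoImplicit false

open Finset NumberField Module IsDedekindDomain
open scoped nonZeroDivisors Pointwise

namespace Pool.Agent.Lib.MP_695920_nt.Solv

theorem trichotomy (p d n : ℕ) (hp3 : 3 ≤ p) (hd : 0 < d) (δ ε : ℝ) (hε : 0 < ε)
    (hδ : 2 * (p : ℝ) * ((p : ℝ) - 1) * δ = 1) (hεδ : ε < δ) :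
    ∃ c c₃ : ℝ, 0 < c ∧ 0 ≤ c₃ ∧ ∀ (L : Type) [Field L] [NumberField L] [IsGalois ℚ L]
      (N H : Subgroup Gal(L/ℚ)), finrank ℚ L = n → finrank ℚ (fixF L H) = p →
      finrank ℚ (fixF L N) = d → H.normalCore = ⊥ →
      (∀ g : Gal(L/ℚ), g ∉ N → ∃ x : Gal(L/ℚ), x * g * x⁻¹ ∈ H) →
      (c * Real.exp ((δ - ε) * Real.log |(discr (fixF L H) : ℝ)|) *
          (Nat.card {x : ClassGroup (𝓞 (fixF L H)) // x ^ p = 1} : ℝ) ≤
        Bn p * Real.sqrt |(discr (fixF L H) : ℝ)| * Real.log |(discr (fixF L H) : ℝ)| ^ p) ∨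
      (1 < d ∧ c * Real.exp ((δ - ε) * Real.log |(discr (fixF L H) : ℝ)|) *
          (Nat.card {x : ClassGroup (𝓞 (fixF L N)) // x ^ p = 1} : ℝ) ≤
        Bn d * Real.sqrt |(discr (fixF L N) : ℝ)| * Real.log |(discr (fixF L N) : ℝ)| ^ d) ∨
      (d = 1 ∨ Real.log |(discr (fixF L N) : ℝ)| ≤
        c₃ + ((d : ℝ) - 1) / ((p : ℝ) - 1) * Real.log |(discr (fixF L H) : ℝ)|) := by
  classical
  have hpR : (3 : ℝ) ≤ p := by exact_mod_cast hp3
  have hdR : (1 : ℝ) ≤ d := by exact_mod_cast hd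
  have hδ0 : 0 < δ := hε.trans hεδ
  obtain ⟨u₀, hu₀, hcount⟩ := count_lower (δ := δ) (ε := ε) (c₂ := (p : ℝ) + 1)
    (B₁ := 2 * ccs n) (B₂ := 2 * (n : ℝ) ^ 2) hε hεδ
    (by have := ccs_nonneg n; positivity) (by positivity) (by positivity)
  refine ⟨min (1 / 2) (Real.exp (-((δ - ε) * u₀))), 2 * p * d * (d - 1), ?_, ?_, ?_⟩
  · exact lt_min (by norm_num) (Real.exp_pos _)
  · have : (0 : ℝ) ≤ (d : ℝ) - 1 := by linarith
    positivity
  intro L _ _ _ N H hn hK hE hcore hout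
  set u : ℝ := Real.log |(discr (fixF L H) : ℝ)| with hu
  set v : ℝ := Real.log |(discr (fixF L N) : ℝ)| with hv
  set c : ℝ := min (1 / 2) (Real.exp (-((δ - ε) * u₀))) with hc
  have hc1 : c ≤ 1 / 2 := min_le_left _ _
  have hc2 : c ≤ Real.exp (-((δ - ε) * u₀)) := min_le_right _ _
  have hc0 : 0 < c := lt_min (by norm_num) (Real.exp_pos _)
  have hu0 : 0 ≤ u := Real.log_nonneg (one_le_absdiscr _)
  have hKgt : 1 < finrank ℚ (fixF L H) := by rw [hK]; omega
  set NK : ℝ := (Nat.card {x : ClassGroup (𝓞 (fixF L H)) // x ^ p = 1} : ℝ) with hNK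
  set NE : ℝ := (Nat.card {x : ClassGroup (𝓞 (fixF L N)) // x ^ p = 1} : ℝ) with hNE
  have hNK0 : 0 ≤ NK := Nat.cast_nonneg _
  have hNE0 : 0 ≤ NE := Nat.cast_nonneg _
  have hp0 : 0 < p := by omega
  have hδε : 0 ≤ δ - ε := by linarith
  rcases le_or_gt u u₀ with hcase | hcase
  · -- small discriminants
    left
    have h1 := triv_bound (M := fixF L H) hp0 hKgt
    rw [hK] at h1
    refine le_trans ?_ h1
    have h2 : c * Real.exp ((δ - ε) * u) ≤ 1 := by
      calc c * Real.exp ((δ - ε) * u) ≤ Real.exp (-((δ - ε) * u₀)) * Real.exp ((δ - ε) * u₀) := by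
            apply mul_le_mul hc2 _ (Real.exp_pos _).le (Real.exp_pos _).le
            exact Real.exp_le_exp.mpr (mul_le_mul_of_nonneg_left hcase hδε)
        _ = 1 := by rw [← Real.exp_add, neg_add_cancel, Real.exp_zero]
    calc c * Real.exp ((δ - ε) * u) * NK ≤ 1 * NK := mul_le_mul_of_nonneg_right h2 hNK0
      _ = NK := one_mul _
  -- large discriminants
  by_cases hd1 : d = 1
  · right; right; left; exact hd1
  have hd2 : 1 < d := by omega
  obtain ⟨hy8, hcnt⟩ := hcount u hcase.le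
  set yN : ℕ := ⌊Real.exp (δ * u - ((p : ℝ) + 1))⌋₊ with hyN
  have hy1 : (1 : ℝ) ≤ (yN : ℝ) := le_trans (by norm_num) hy8
  have hy0 : (0 : ℝ) < (yN : ℝ) := by linarith
  have hlogy : Real.log (yN : ℝ) ≤ δ * u - ((p : ℝ) + 1) := by
    rw [← Real.log_exp (δ * u - ((p : ℝ) + 1))]
    apply Real.log_le_log hy0
    exact Nat.floor_le (Real.exp_pos _).le
  have hlogy0 : 0 ≤ Real.log (yN : ℝ) := Real.log_nonneg hy1
  by_cases hthr : 2 * (p : ℝ) * ((d : ℝ) - 1) * Real.log (yN : ℝ) +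
      2 * p * d * ((d : ℝ) - 1) < v
  swap
  · -- the resolvent is small
    right; right; right
    push Not at hthr
    refine hthr.trans ?_
    have hp1 : (0 : ℝ) < (p : ℝ) - 1 := by linarith
    have h1 : 2 * (p : ℝ) * ((d : ℝ) - 1) * Real.log (yN : ℝ) ≤
        2 * (p : ℝ) * ((d : ℝ) - 1) * (δ * u) := by
      apply mul_le_mul_of_nonneg_left
      · linarith
      · have : (0 : ℝ) ≤ (d : ℝ) - 1 := by linarith
        positivity
    have h2 : 2 * (p : ℝ) * ((d : ℝ) - 1) * (δ * u) = ((d : ℝ) - 1) / ((p : ℝ) - 1) * u := by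
      have h3 : 2 * (p : ℝ) * δ = 1 / ((p : ℝ) - 1) := by
        rw [eq_div_iff hp1.ne']
        linarith
      calc 2 * (p : ℝ) * ((d : ℝ) - 1) * (δ * u) = ((d : ℝ) - 1) * u * (2 * (p : ℝ) * δ) := by ring
        _ = _ := by rw [h3]; ring
    rw [h2] at h1
    linarith
  -- the primes
  set PP := ((Ioc 0 yN).filter Nat.Prime).filter (fun q => ¬ q ∣ (discr L).natAbs) with hPP
  set GK := PP.filter (fun q => ∃ P : Ideal (𝓞 (fixF L H)), UGood P ∧ Ideal.absNorm P = q) with hGK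
  set GE := PP.filter (fun q => ∃ P : Ideal (𝓞 (fixF L N)), UGood P ∧ Ideal.absNorm P = q) with hGE
  have hPPcard : Real.exp ((δ - ε) * u) ≤ (PP.card : ℝ) := by
    have h1 := pi_lower yN hy8
    have h2 := card_ramified_le' (L := L)
      (((Ioc 0 yN).filter Nat.Prime).filter (fun q => q ∣ (discr L).natAbs)) (by
        intro q hq
        rw [mem_filter, mem_filter] at hq
        exact ⟨hq.1.2, hq.2⟩)
    have h3 := log_discr_le H hcore
    rw [hn, ← hu] at h3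
    have h4 := Finset.card_filter_add_card_filter_not (s := (Ioc 0 yN).filter Nat.Prime)
      (fun q => q ∣ (discr L).natAbs)
    have h5 : ((((Ioc 0 yN).filter Nat.Prime).filter (fun q => q ∣ (discr L).natAbs)).card : ℝ) +
        (PP.card : ℝ) = (((Ioc 0 yN).filter Nat.Prime).card : ℝ) := by
      exact_mod_cast h4
    linarith
  have hcover : PP ⊆ GK ∪ GE := by
    intro q hq
    have hq' := hq
    rw [hPP, mem_filter, mem_filter] at hq'
    rcases dichotomy hout hq'.1.2 hq'.2 with h | h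
    · exact mem_union_right _ (mem_filter.mpr ⟨hq, h⟩)
    · exact mem_union_left _ (mem_filter.mpr ⟨hq, h⟩)
  have hcard2 : (PP.card : ℝ) ≤ (GK.card : ℝ) + (GE.card : ℝ) := by
    have := (Finset.card_le_card hcover).trans (Finset.card_union_le _ _)
    exact_mod_cast this
  have hGKmem : ∀ q ∈ GK, q.Prime ∧ (q : ℝ) ≤ (yN : ℝ) ∧
      ∃ P : Ideal (𝓞 (fixF L H)), UGood P ∧ Ideal.absNorm P = q := by
    intro q hq
    rw [hGK, mem_filter, hPP, mem_filter, mem_filter, mem_Ioc] at hq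
    exact ⟨hq.1.1.2, by exact_mod_cast hq.1.1.1.2, hq.2⟩
  have hGEmem : ∀ q ∈ GE, q.Prime ∧ (q : ℝ) ≤ (yN : ℝ) ∧
      ∃ P : Ideal (𝓞 (fixF L N)), UGood P ∧ Ideal.absNorm P = q := by
    intro q hq
    rw [hGE, mem_filter, hPP, mem_filter, mem_filter, mem_Ioc] at hq
    exact ⟨hq.1.1.2, by exact_mod_cast hq.1.1.1.2, hq.2⟩
  rcases le_total (GE.card : ℝ) (GK.card : ℝ) with hle | hle
  · left
    have h1 := ev_sharp hp0 hKgt GK (yN : ℝ) hy1 hGKmem (by
      rw [hK, ← hu]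
      have h2 : 2 * (p : ℝ) * ((p : ℝ) - 1) * Real.log (yN : ℝ) ≤
          2 * (p : ℝ) * ((p : ℝ) - 1) * (δ * u - ((p : ℝ) + 1)) := by
        apply mul_le_mul_of_nonneg_left hlogy
        have : (0 : ℝ) ≤ (p : ℝ) - 1 := by linarith
        positivity
      have h3 : 2 * (p : ℝ) * ((p : ℝ) - 1) * (δ * u - ((p : ℝ) + 1)) =
          u - 2 * (p : ℝ) * ((p : ℝ) - 1) * ((p : ℝ) + 1) := by
        calc 2 * (p : ℝ) * ((p : ℝ) - 1) * (δ * u - ((p : ℝ) + 1))
            = (2 * (p : ℝ) * ((p : ℝ) - 1) * δ) * u -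
              2 * (p : ℝ) * ((p : ℝ) - 1) * ((p : ℝ) + 1) := by ring
          _ = _ := by rw [hδ, one_mul]
      rw [h3] at h2
      have h4 : 0 < 2 * (p : ℝ) * ((p : ℝ) - 1) := by
        have : (0 : ℝ) < (p : ℝ) - 1 := by linarith
        positivity
      nlinarith)
    rw [hK] at h1
    refine le_trans ?_ h1
    apply mul_le_mul_of_nonneg_right _ hNK0
    have h2 : Real.exp ((δ - ε) * u) ≤ 2 * (GK.card : ℝ) := by linarith
    have h3 : c * Real.exp ((δ - ε) * u) ≤ 1 / 2 * Real.exp ((δ - ε) * u) :=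
      mul_le_mul_of_nonneg_right hc1 (Real.exp_pos _).le
    linarith
  · right; left
    refine ⟨hd2, ?_⟩
    have hEgt : 1 < finrank ℚ (fixF L N) := by rw [hE]; exact hd2
    have h1 := ev_sharp hp0 hEgt GE (yN : ℝ) hy1 hGEmem (by
      rw [hE, ← hv]
      exact hthr)
    rw [hE] at h1
    refine le_trans ?_ h1
    apply mul_le_mul_of_nonneg_right _ hNE0
    have h2 : Real.exp ((δ - ε) * u) ≤ 2 * (GE.card : ℝ) := by linarith
    have h3 : c * Real.exp ((δ - ε) * u) ≤ 1 / 2 * Real.exp ((δ - ε) * u) :=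
      mul_le_mul_of_nonneg_right hc1 (Real.exp_pos _).le
    linarith

end Pool.Agent.Lib.MP_695920_nt.Solv
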