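import Mathlib
import Pool.Agent.Lib.MP_695920_nt.Solv.Grp
import Pool.Agent.Lib.MP_695920_nt.Solv.Tri
import Pool.Agent.Lib.MP_695920_nt.Solv.Num

set_option autoImplicit false

open Finset NumberField Module IsDedekindDomain
open scoped nonZeroDivisors Pointwise

namespace Pool.Agent.Lib.MP_695920_nt.Solv

lemma card_tors_of_finrank_one {E : Type*} [Field E] [NumberField E] (h : finrank ℚ E = 1) (l : ℕ) :
    Nat.card {x : ClassGroup (𝓞 E) // x ^ l = 1} ≤ 1 := by
  have h1 : Function.Surjective (algebraMap ℚ E) := by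
    rw [Algebra.surjective_algebraMap_iff]
    exact (Subalgebra.bot_eq_top_iff_finrank_eq_one.mpr h).symm
  let e : ℚ ≃+* E := RingEquiv.ofBijective (algebraMap ℚ E) ⟨(algebraMap ℚ E).injective, h1⟩
  let e2 : ℤ ≃+* 𝓞 E := Rat.ringOfIntegersEquiv.symm.trans (RingOfIntegers.mapRingEquiv e)
  have hpir : IsPrincipalIdealRing (𝓞 E) := IsPrincipalIdealRing.of_surjective e2 e2.surjective
  have h2 : Subsingleton (ClassGroup (𝓞 E)) := by
    constructor
    intro a b
    have h3 : ∀ c : ClassGroup (𝓞 E), c = 1 := by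
      intro c
      obtain ⟨I, rfl⟩ := ClassGroup.mk0_surjective c
      rw [ClassGroup.mk0_eq_one_iff]
      exact IsPrincipalIdealRing.principal _
    rw [h3 a, h3 b]
  exact Finite.card_le_one_iff_subsingleton.mpr inferInstance

lemma sqrt_eq_exp {D : ℝ} (hD : 0 < D) : Real.sqrt D = Real.exp (Real.log D / 2) := by
  rw [Real.exp_half, Real.exp_log hD]

lemma compl_bij {G : Type*} [Group G] {N H : Subgroup G} (hN : N.Normal) (hinf : N ⊓ H = ⊥)
    (hsup : N ⊔ H = ⊤) : Subgroup.IsComplement' H N := by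
  apply Subgroup.isComplement'_of_disjoint_and_mul_eq_univ
  · rw [disjoint_iff, inf_comm]; exact hinf
  · rw [Set.eq_univ_iff_forall]
    intro g
    have hg : g ∈ H ⊔ N := by rw [sup_comm, hsup]; exact Subgroup.mem_top g
    obtain ⟨h, hh, n, hn, rfl⟩ := Subgroup.mem_sup_of_normal_right.mp hg
    exact Set.mul_mem_mul hh hn

theorem main_fixed (p d : ℕ) (hp : p.Prime) (hp3 : 3 ≤ p) (ε : ℝ) (hε : 0 < ε) :
    ∃ C : ℝ, 0 < C ∧ ∀ (L : Type) [Field L] [NumberField L] [IsGalois ℚ L]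
      [Group.IsSolvable Gal(L/ℚ)] (H : Subgroup Gal(L/ℚ)), H.index = p → H.normalCore = ⊥ →
      Nat.card H = d →
      (Nat.card {x : ClassGroup (𝓞 (fixF L H)) // x ^ p = 1} : ℝ) ≤
        C * Real.exp ((1 / 2 - 1 / (2 * (p : ℝ) * ((p : ℝ) - 1)) + ε) *
          Real.log |(discr (fixF L H) : ℝ)|) := by
  classical
  by_cases hdvd : d ∣ p - 1
  swap
  · refine ⟨1, one_pos, ?_⟩
    intro L _ _ _ _ H hidx hcore hd
    exfalso
    obtain ⟨N, -, -, -, -, -, -, -, σ, τ, c, -, -, -, -, -, hdv⟩ :=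
      frob_structure H hp hidx hcore
    rw [hd] at hdv
    exact hdvd hdv
  obtain ⟨a, ha⟩ := hdvd
  have hpR : (3 : ℝ) ≤ p := by exact_mod_cast hp3
  have hp1 : (0 : ℝ) < (p : ℝ) - 1 := by linarith
  set δ : ℝ := 1 / (2 * (p : ℝ) * ((p : ℝ) - 1)) with hδdef
  have hδ : 2 * (p : ℝ) * ((p : ℝ) - 1) * δ = 1 := by
    rw [hδdef]
    have : (2 * (p : ℝ) * ((p : ℝ) - 1)) ≠ 0 := by positivity
    field_simp
  have hδ0 : 0 < δ := by rw [hδdef]; positivity
  set ε' : ℝ := min (ε / 4) (δ / 2) with hε'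
  have hε'0 : 0 < ε' := lt_min (by positivity) (by positivity)
  have hε'δ : ε' < δ := lt_of_le_of_lt (min_le_right _ _) (by linarith)
  have hε'ε : 4 * ε' ≤ ε := by
    have := min_le_left (ε / 4) (δ / 2)
    linarith
  have hdpos : 0 < d := by
    rcases Nat.eq_zero_or_pos d with h | h
    · rw [h, zero_mul] at ha; omega
    · exact h
  obtain ⟨c, c₃, hc, hc₃, htri⟩ := trichotomy p d (p * d) hp3 hdpos δ ε' hε'0 hδ hε'δ
  obtain ⟨Ck, hCk, hkey⟩ := key_eps p a (p * d) hp ε' hε'0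
  have hBp := Bn_pos p (by omega)
  have hBd := Bn_pos d hdpos
  obtain ⟨C, hC, hnum⟩ := numeric p d a hp3 ha.symm δ ε' hε'0 hδ hε'δ c c₃ Ck (Bn p) (Bn d) hc hc₃
    hCk hBp hBd
  refine ⟨C, hC, ?_⟩
  intro L _ _ _ _ H hidx hcore hd
  obtain ⟨N, hN, hNcard, hinf, hsup, hcomm, hfix, hout, σ, τ, m, hNσ, hHτ, hσ, hrel, hord, -⟩ :=
    frob_structure H hp hidx hcore
  have hcompl := compl_bij hN hinf hsup
  have hNidx : N.index = Nat.card H := hcompl.index_eq_card
  have hK : finrank ℚ (fixF L H) = p := by rw [finrank_fixF_index, hidx]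
  have hE : finrank ℚ (fixF L N) = d := by rw [finrank_fixF_index, hNidx, hd]
  have hL : finrank ℚ L = p * d := by
    rw [← finrank_mul_finrank ℚ (fixF L H) L, hK, finrank_fix H, hd]
  have hDK := one_le_absdiscr (fixF L H)
  have hDE := one_le_absdiscr (fixF L N)
  set u : ℝ := Real.log |(discr (fixF L H) : ℝ)| with hu
  set v : ℝ := Real.log |(discr (fixF L N) : ℝ)| with hv
  have hu0 : 0 ≤ u := Real.log_nonneg hDK
  have hv0 : 0 ≤ v := Real.log_nonneg hDE
  have hτo : orderOf τ = d := by rw [← Nat.card_zpowers, ← hHτ, hd]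
  have hk := hkey L σ τ m hL hσ (by rw [hτo]; exact ha.symm) hrel (by
    rw [hord, hd, hτo]) (by
      have h1 := hcompl
      rw [hHτ, hNσ] at h1
      exact h1) (by rw [← hHτ]; exact hcore)
  rw [← hHτ, ← hNσ] at hk
  have ht := htri L N H hL hK hE hcore hout
  have hav : (d : ℝ) * a * v ≤ d * (d * a * Real.log d) + d * u := by
    have h1 := disc_ineq N H hN (by rw [hNcard]; exact hp) hinf hsup hNidx hcomm hfix
    rw [hNcard, hd, ha] at h1
    have h2 : (((discr (fixF L N)).natAbs : ℕ) : ℝ) ^ (d * a) ≤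
        (d : ℝ) ^ (d * (d * a)) * (((discr (fixF L H)).natAbs : ℕ) : ℝ) ^ d := by
      exact_mod_cast h1
    rw [Nat.cast_natAbs, Nat.cast_natAbs, Int.cast_abs, Int.cast_abs] at h2
    have hd0 : (0 : ℝ) < d := by exact_mod_cast hdpos
    have h3 := Real.log_le_log (by positivity) h2
    rw [Real.log_pow, Real.log_mul (by positivity) (by positivity), Real.log_pow, Real.log_pow,
      ← hu, ← hv] at h3
    push_cast at h3
    linarith
  rw [sqrt_eq_exp (by linarith), sqrt_eq_exp (by linarith), ← hu, ← hv] at ht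
  refine (hnum u v _ _ hu0 hv0 (Nat.cast_nonneg _) (Nat.cast_nonneg _) hav hk ?_ ?_ ht).trans ?_
  · intro hd1
    have := card_tors_of_finrank_one (hE.trans hd1) p
    exact_mod_cast this
  · intro hd2
    have h1 := triv_bound (M := fixF L N) hp.pos (by rw [hE]; exact hd2)
    rw [hE, sqrt_eq_exp (by linarith), ← hv] at h1
    exact h1
  · apply mul_le_mul_of_nonneg_left _ hC.le
    apply Real.exp_le_exp.mpr
    apply mul_le_mul_of_nonneg_right _ hu0
    linarith

theorem main_gal (p : ℕ) (hp : p.Prime) (hp3 : 3 ≤ p) (ε : ℝ) (hε : 0 < ε) :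
    ∃ C : ℝ, 0 < C ∧ ∀ (L : Type) [Field L] [NumberField L] [IsGalois ℚ L]
      [Group.IsSolvable Gal(L/ℚ)] (H : Subgroup Gal(L/ℚ)), H.index = p → H.normalCore = ⊥ →
      (Nat.card {x : ClassGroup (𝓞 (fixF L H)) // x ^ p = 1} : ℝ) ≤
        C * |(discr (fixF L H) : ℝ)| ^ (1 / 2 - 1 / (2 * (p : ℝ) * ((p : ℝ) - 1)) + ε) := by
  classical
  choose C hC hmain using fun d => main_fixed p d hp hp3 ε hε
  refine ⟨∑ d ∈ range p, C d, ?_, ?_⟩
  · apply Finset.sum_pos (fun d _ => hC d)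
    exact Finset.nonempty_range_iff.mpr hp.ne_zero
  intro L _ _ _ _ H hidx hcore
  obtain ⟨N, -, -, -, -, -, -, -, σ, τ, c, -, -, -, -, -, hdv⟩ :=
    frob_structure H hp hidx hcore
  have hlt : Nat.card H < p := by
    have := Nat.le_of_dvd (by omega) hdv
    omega
  refine (hmain (Nat.card H) L H hidx hcore rfl).trans ?_
  have hDK := one_le_absdiscr (fixF L H)
  rw [Real.rpow_def_of_pos (by linarith), mul_comm (Real.log _)]
  apply mul_le_mul_of_nonneg_right _ (Real.exp_pos _).le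
  exact Finset.single_le_sum (f := C) (fun d _ => (hC d).le) (Finset.mem_range.mpr hlt)

end Pool.Agent.Lib.MP_695920_nt.Solv
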