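import Mathlib
import Pool.Agent.Lib.MP_695920_nt.Solv.Main

set_option autoImplicit false

open Finset NumberField Module IsDedekindDomain
open scoped nonZeroDivisors Pointwise

namespace Pool.Agent.Lib.MP_695920_nt.Solv

section transfer

variable {A B : Type*} [CommRing A] [IsDedekindDomain A] [CommRing B] [IsDedekindDomain B]

lemma idMap_equiv (e : A ≃+* B) :
    IdMap ((Ideal.mapHom (e : A →+* B) : Ideal A →+* Ideal B) : Ideal A →* Ideal B) := by
  refine ⟨?_, ?_⟩
  · intro I hI h
    apply hI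
    exact (Ideal.map_eq_bot_iff_of_injective e.injective).mp h
  · intro x
    refine ⟨e x, ?_⟩
    change Ideal.map (e : A →+* B) (Ideal.span {x}) = _
    rw [Ideal.map_span, Set.image_singleton]
    rfl

lemma card_tors_le_of_equiv (e : A ≃+* B) (l : ℕ) [Finite (ClassGroup B)] :
    Nat.card {x : ClassGroup A // x ^ l = 1} ≤ Nat.card {x : ClassGroup B // x ^ l = 1} := by
  let f : {x : ClassGroup A // x ^ l = 1} → {x : ClassGroup B // x ^ l = 1} := fun x =>
    ⟨(idMap_equiv e).cl x.1, by rw [← map_pow, x.2, map_one]⟩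
  apply Nat.card_le_card_of_injective f
  rintro ⟨x, hx⟩ ⟨y, hy⟩ hxy
  have h1 : (idMap_equiv e).cl x = (idMap_equiv e).cl y := congrArg Subtype.val hxy
  have h2 := congrArg (idMap_equiv e.symm).cl h1
  have h3 : ∀ z : ClassGroup A, (idMap_equiv e.symm).cl ((idMap_equiv e).cl z) = z := by
    intro z
    obtain ⟨I, rfl⟩ := ClassGroup.mk0_surjective z
    rw [IdMap.cl_mk0, IdMap.cl_mk0]
    congr 1
    apply Subtype.ext
    change Ideal.map (e.symm : B →+* A) (Ideal.map (e : A →+* B) (I : Ideal A)) = I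
    rw [Ideal.map_map]
    have : (e.symm : B →+* A).comp (e : A →+* B) = RingHom.id A := by
      ext a
      simp
    rw [this, Ideal.map_id]
  rw [h3, h3] at h2
  exact Subtype.ext h2

end transfer

section closure

open IntermediateField

variable (K L : Type) [Field K] [NumberField K] [Field L] [NumberField L] [Algebra K L]
  [IsGalois ℚ L]

/-- realise a subfield of a Galois field inside its normal closure -/
theorem exists_closure [Group.IsSolvable Gal(L/ℚ)] :
    ∃ (M : Type) (_ : Field M) (_ : NumberField M) (_ : IsGalois ℚ M)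
      (_ : Group.IsSolvable Gal(M/ℚ)) (H : Subgroup Gal(M/ℚ)),
      H.index = finrank ℚ K ∧ H.normalCore = ⊥ ∧ Nonempty (K ≃ₐ[ℚ] (fixF M H)) := by
  classical
  let M : IntermediateField ℚ L := IntermediateField.normalClosure ℚ K L
  have hnormal : Normal ℚ M :=
    _root_.normalClosure.normal ℚ K L
  have hgal : IsGalois ℚ M := {}
  have hsolv : Group.IsSolvable Gal(M/ℚ) :=
    Group.isSolvable_of_surjective (AlgEquiv.restrictNormalHom_surjective (F := ℚ) (K₁ := M) L)
  let i : K →ₐ[ℚ] L := IsScalarTower.toAlgHom ℚ K L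
  have hrange : ∀ f : K →ₐ[ℚ] L, ∀ x : K, f x ∈ M := fun f x =>
    AlgHom.fieldRange_le_normalClosure f ⟨x, rfl⟩
  let lift : (K →ₐ[ℚ] L) → (K →ₐ[ℚ] M) := fun f => f.codRestrict M.toSubalgebra (hrange f)
  let j : K →ₐ[ℚ] M := lift i
  let KM : IntermediateField ℚ M := j.fieldRange
  let H : Subgroup Gal(M/ℚ) := KM.fixingSubgroup
  have hfixH : fixF M H = KM := IsGalois.fixedField_fixingSubgroup KM
  let hKM : K ≃ₐ[ℚ] KM := AlgEquiv.ofInjectiveField j
  refine ⟨M, inferInstance, inferInstance, hgal, hsolv, H, ?_, ?_, ?_⟩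
  · rw [← finrank_fixF_index, hfixH]
    exact hKM.toLinearEquiv.finrank_eq.symm
  · rw [Subgroup.eq_bot_iff_forall]
    intro g hg
    -- g fixes every embedded copy of K
    have hfix : ∀ (f : K →ₐ[ℚ] L) (x : K), g (lift f x) = lift f x := by
      intro f x
      let e : KM →ₐ[ℚ] M := (lift f).comp hKM.symm.toAlgHom
      let b' : M →ₐ[ℚ] M := AlgHom.liftNormal e M
      have hb' : Function.Bijective b' := Algebra.IsAlgebraic.algHom_bijective b'
      let b : Gal(M/ℚ) := AlgEquiv.ofBijective b' hb'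
      have hbx : b (j x) = lift f x := by
        have h1 := AlgHom.liftNormal_commutes e M (hKM x)
        have h2 : algebraMap KM M (hKM x) = j x := rfl
        have h3 : e (hKM x) = lift f x := by
          change (lift f) (hKM.symm (hKM x)) = _
          rw [AlgEquiv.symm_apply_apply]
        rw [h2, h3] at h1
        exact h1
      have h1 : b⁻¹ * g * b⁻¹⁻¹ ∈ H := hg b⁻¹
      rw [IntermediateField.mem_fixingSubgroup_iff] at h1
      have h2 := h1 (j x) ⟨x, rfl⟩
      rw [inv_inv, AlgEquiv.mul_apply, AlgEquiv.mul_apply, hbx] at h2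
      have h3 := congrArg b h2
      rw [← AlgEquiv.mul_apply, mul_inv_cancel, AlgEquiv.one_apply, hbx] at h3
      exact h3
    -- hence everything
    have hle : M ≤ (fixF M (Subgroup.zpowers g)).map M.val := by
      apply iSup_le
      intro f
      rintro _ ⟨x, rfl⟩
      refine ⟨lift f x, ?_, rfl⟩
      have h4 : lift f x ∈ fixF M (Subgroup.zpowers g) := by
        rw [mem_fixF]
        intro g' hg'
        have h2 : g ∈ MulAction.stabilizer Gal(M/ℚ) (lift f x) := hfix f x
        exact (Subgroup.zpowers_le.mpr h2) hg'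
      exact h4
    ext x
    obtain ⟨y, hy, hyx⟩ := hle x.2
    have hy' : y ∈ fixF M (Subgroup.zpowers g) := hy
    rw [mem_fixF] at hy'
    have hyx' : y = x := Subtype.ext hyx
    rw [← hyx', hy' g (Subgroup.mem_zpowers g)]
    rfl
  · exact ⟨hKM.trans (IntermediateField.equivOfEq hfixH.symm)⟩

end closure

/-- solvable fields of odd prime degree -/
theorem solvable_prime_degree (p : ℕ) (hp : p.Prime) (hp2 : p ≠ 2) (ε : ℝ) (hε : 0 < ε) :
    ∃ C : ℝ, 0 < C ∧ ∀ (K L : Type) [Field K] [NumberField K] [Field L] [NumberField L]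
      [Algebra K L] [IsGalois ℚ L] [Group.IsSolvable Gal(L/ℚ)], finrank ℚ K = p →
      (Nat.card {x : ClassGroup (𝓞 K) // x ^ p = 1} : ℝ) ≤
        C * |(discr K : ℝ)| ^ (1 / 2 - 1 / (2 * (p : ℝ) * ((p : ℝ) - 1)) + ε) := by
  have hp3 : 3 ≤ p := by
    have := hp.two_le
    omega
  obtain ⟨C, hC, hmain⟩ := main_gal p hp hp3 ε hε
  refine ⟨C, hC, ?_⟩
  intro K L _ _ _ _ _ _ _ hK
  obtain ⟨M, _, _, _, _, H, hidx, hcore, ⟨e⟩⟩ := exists_closure K L
  have h1 := hmain M H (by rw [hidx, hK]) hcore
  rw [← discr_eq_discr_of_algEquiv _ e] at h1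
  refine le_trans ?_ h1
  have h2 := card_tors_le_of_equiv (RingOfIntegers.mapRingEquiv e.toRingEquiv) p
  exact_mod_cast h2

end Pool.Agent.Lib.MP_695920_nt.Solv
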